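import Mathlib
import Pool.Agent.Lib.MP_27feec_al.Topo

/-!
# Strings, finite coverings, boxes and cores in abelian groups: definitions
-/

namespace LocMin

open Topology Filter

section algebra

variable {G : Type*} [AddCommGroup G]

/-- A string: a sequence of symmetric sets containing `0`, each twice contained in the previous
one. -/
structure IsStr (S : ℕ → Set G) : Prop where
  zero : ∀ n, (0 : G) ∈ S n
  neg : ∀ n, ∀ x ∈ S n, -x ∈ S n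
  add : ∀ n, ∀ x ∈ S (n + 1), ∀ y ∈ S (n + 1), x + y ∈ S n

theorem IsStr.succ_subset {S : ℕ → Set G} (hS : IsStr S) (n : ℕ) : S (n + 1) ⊆ S n := by
  intro x hx
  have := hS.add n x hx 0 (hS.zero _)
  rwa [add_zero] at this

theorem IsStr.anti {S : ℕ → Set G} (hS : IsStr S) : Antitone S :=
  antitone_nat_of_succ_le hS.succ_subset

/-- `X` is covered by finitely many translates of `O`. -/
def Tb (X O : Set G) : Prop := ∃ Φ : Set G, Φ.Finite ∧ ∀ x ∈ X, ∃ φ ∈ Φ, x - φ ∈ O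

/-- the set of the multiples `a • s`, `s ∈ X` -/
def nm (a : ℕ) (X : Set G) : Set G := {x | ∃ s ∈ X, a • s = x}

/-- the sum of two sets -/
def Sm (X Y : Set G) : Set G := {x | ∃ a ∈ X, ∃ b ∈ Y, a + b = x}

theorem Tb.mono {X X' O O' : Set G} (h : Tb X O) (hX : X' ⊆ X) (hO : O ⊆ O') : Tb X' O' := by
  obtain ⟨Φ, hΦ, h⟩ := h
  refine ⟨Φ, hΦ, fun x hx => ?_⟩
  obtain ⟨φ, hφ, h'⟩ := h x (hX hx)
  exact ⟨φ, hφ, hO h'⟩

/-- the homomorphism `κ ↦ ∑ κ m • y m` -/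
noncomputable def ev (y : ℕ → G) : (ℕ →₀ ℤ) →+ G :=
  Finsupp.liftAddHom fun m => (zmultiplesHom G) (y m)

theorem ev_apply (y : ℕ → G) (κ : ℕ →₀ ℤ) : ev y κ = κ.sum fun m a => a • y m := rfl

theorem ev_single (y : ℕ → G) (m : ℕ) (a : ℤ) : ev y (Finsupp.single m a) = a • y m := by
  rw [ev_apply]
  exact Finsupp.sum_single_index (zero_smul ℤ (y m))

/-- the boxes -/
def Box (j : ℕ) : Set (ℕ →₀ ℤ) :=
  {κ | (∀ m < j, κ m = 0) ∧ ∀ m, |κ m| ≤ 2 ^ (m * (m - j))}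

/-- the finite boxes -/
def LBox (m : ℕ) : Set (ℕ →₀ ℤ) :=
  {κ | (∀ i, m ≤ i → κ i = 0) ∧ ∀ i, |κ i| ≤ 2 ^ (i * i)}

end algebra

/-- the string generated by the sequence `y` -/
def strOf {G : Type*} [AddCommGroup G] (y : ℕ → G) (n : ℕ) : Set G := ev y '' Box n

section topology

variable {G : Type*} [AddCommGroup G] [τ : TopologicalSpace G]

/-- `V` witnesses the local minimality of `G`. -/
def Wit (V : Set G) : Prop :=
  V ∈ 𝓝 (0 : G) ∧ ∀ σ : TopologicalSpace G, @IsTopologicalAddGroup G σ _ → @T2Space G σ →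
    τ ≤ σ → V ∈ @nhds G σ 0 → σ = τ

theorem locallyMinimal_iff : LocallyMinimal G ↔ ∃ V : Set G, Wit V :=
  ⟨fun ⟨V, h1, h2⟩ => ⟨V, h1, h2⟩, fun ⟨V, h1, h2⟩ => ⟨V, h1, h2⟩⟩

/-- `S 0` is small with respect to `V`. -/
def Small (V : Set G) (S : ℕ → Set G) : Prop :=
  ∃ O ∈ 𝓝 (0 : G), ∀ x ∈ O, ∀ s ∈ S 0, x + s ∈ V

/-- the core of `S`: the intersection of the closures of all sets `a • S n`, `a > 0` -/
def Core (S : ℕ → Set G) : Set G :=
  {x | ∀ a : ℕ, 0 < a → ∀ n, ∀ O ∈ 𝓝 (0 : G), ∃ s ∈ S n, x - a • s ∈ O}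

/-- `S` is totally bounded after multiplication. -/
def MTb (S : ℕ → Set G) : Prop :=
  ∀ O ∈ 𝓝 (0 : G), ∃ a : ℕ, 0 < a ∧ ∃ n, Tb (nm a (S n)) O

end topology

section more

/-- the solid sets of multipliers -/
def Sol {G : Type*} [AddCommGroup G] (𝒰 : Ultrafilter ℕ) (y : ℕ → G) (q : ℕ) (R : ℕ → Set G)
    (l : ℕ) : Set (ℕ →₀ ℤ) :=
  {κ | ∀ c : ℕ →₀ ℤ, (∀ i, |c i| ≤ |κ i|) →
    ∀ᶠ r in (𝒰 : Filter ℕ), ev (fun i => q • (y i - y r)) c ∈ R l}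

/-- The sequence `z - t` is small modulo `N` after multiplication. -/
def Good {G : Type*} [AddCommGroup G] [TopologicalSpace G] (z t : ℕ → G) (N : AddSubgroup G) :
    Prop :=
  ∀ O ∈ 𝓝 (0 : G), ∃ a : ℕ, 0 < a ∧ ∃ j, ∀ κ ∈ Box j, ∃ c ∈ N,
    a • ev (fun m => z m - t m) κ - c ∈ O

/-- separation of points by characters -/
def CharSep (N : Type*) [AddCommGroup N] [TopologicalSpace N] : Prop :=
  ∀ x : N, x ≠ 0 → ∃ χ : N →+ UnitAddCircle, Continuous χ ∧ χ x ≠ 0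

/-- the translate `x ↦ f (x + y)` -/
noncomputable def shiftC {N : Type*} [AddCommGroup N] [TopologicalSpace N]
    [IsTopologicalAddGroup N] (y : N) (f : C(N, ℂ)) : C(N, ℂ) :=
  ⟨fun x => f (x + y), by fun_prop⟩

/-- the data of convolution operators -/
def ConvData (N : Type*) [AddCommGroup N] [TopologicalSpace N] [IsTopologicalAddGroup N]
    [CompactSpace N] : Prop :=
  ∃ T : C(N, ℂ) →L[ℂ] (C(N, ℂ) →L[ℂ] C(N, ℂ)),
    (∀ f g, T f * T g = T g * T f) ∧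
    (∀ f g y, T (shiftC y f) * T g = T f * T (shiftC y g)) ∧
    ∀ g, g ≠ 0 → ∃ g' : C(N, ℂ), ∃ c : ℝ, 0 < c ∧ ∃ ρ : ℝ, 0 < ρ ∧
      ∀ n : ℕ, c * ρ ^ n ≤ ‖(T g * T g') ^ n‖

/-- convolution operators and the Haar integral -/
def ConvBase (N : Type*) [AddCommGroup N] [TopologicalSpace N] [IsTopologicalAddGroup N]
    [CompactSpace N] : Prop :=
  ∃ (T : C(N, ℂ) →L[ℂ] (C(N, ℂ) →L[ℂ] C(N, ℂ))) (I : C(N, ℂ) →L[ℂ] ℂ)
    (inv : C(N, ℂ) → C(N, ℂ)),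
    (∀ f g, T f * T g = T g * T f) ∧
    (∀ f g y, T (shiftC y f) * T g = T f * T (shiftC y g)) ∧
    (∀ g u v, I (T g u * star v) = I (u * star (T (inv g) v))) ∧
    (∀ u, I (star u) = star (I u)) ∧
    (∀ u, u ≠ 0 → 0 < (I (u * star u)).re) ∧
    (∀ u, (I (u * star u)).re ≤ ‖u‖ ^ 2) ∧
    ∀ g, g ≠ 0 → T (inv g) g ≠ 0

end more

end LocMin
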