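import Mathlib
import Pool.Agent.Lib.MP_27feec_al_LM.Defs

/-!
# Boxes
-/

namespace LocMin

open Topology Filter

variable {G : Type*} [AddCommGroup G]

theorem box_str : IsStr Box := by
  refine ⟨fun n => ⟨fun m _ => rfl, fun m => ?_⟩, fun n x hx => ⟨fun m hm => ?_, fun m => ?_⟩,
    fun n x hx y hy => ⟨fun m hm => ?_, fun m => ?_⟩⟩
  · rw [Finsupp.coe_zero, Pi.zero_apply, abs_zero]
    positivity
  · rw [Finsupp.neg_apply, hx.1 m hm, neg_zero]
  · rw [Finsupp.neg_apply, abs_neg]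
    exact hx.2 m
  · rw [Finsupp.add_apply, hx.1 m (by omega), hy.1 m (by omega), add_zero]
  · rw [Finsupp.add_apply]
    rcases Nat.lt_or_ge m (n + 1) with h | h
    · rw [hx.1 m h, hy.1 m h, add_zero, abs_zero]
      positivity
    · have h1 := hx.2 m
      have h2 := hy.2 m
      have h3 : m * (m - n) = m * (m - (n + 1)) + m := by
        have h4 : m - n = (m - (n + 1)) + 1 := by omega
        rw [h4, Nat.mul_add, Nat.mul_one]
      have h5 : (2 : ℤ) ^ (m * (m - (n + 1)) + 1) ≤ 2 ^ (m * (m - n)) := by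
        rw [h3]
        exact pow_le_pow_right₀ (by norm_num) (by omega)
      rw [pow_succ] at h5
      have h6 := abs_add_le (x m) (y m)
      linarith

theorem single_mem_box {j m : ℕ} (h : j ≤ m) : Finsupp.single m (1 : ℤ) ∈ Box j := by
  refine ⟨fun i hi => ?_, fun i => ?_⟩
  · rw [Finsupp.single_apply, if_neg (by omega)]
  · rw [Finsupp.single_apply]
    have h1 : (1 : ℤ) ≤ 2 ^ (i * (i - j)) := one_le_pow₀ (by norm_num)
    split_ifs
    · rw [abs_one]
      exact h1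
    · rw [abs_zero]
      positivity

theorem lbox_finite (m : ℕ) : (LBox m).Finite := by
  refine ((Finset.finsupp (Finset.range m)
    (fun i => Finset.Icc (-(2 ^ (i * i)) : ℤ) (2 ^ (i * i)))).finite_toSet).subset ?_
  intro κ hκ
  rw [Finset.mem_coe, Finset.mem_finsupp_iff]
  refine ⟨fun i hi => ?_, fun i _ => ?_⟩
  · rw [Finset.mem_range]
    by_contra hc
    exact (Finsupp.mem_support_iff.mp hi) (hκ.1 i (by omega))
  · rw [Finset.mem_Icc]
    exact abs_le.mp (hκ.2 i)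

theorem ev_congr {y y' : ℕ → G} {m : ℕ} (h : ∀ i < m, y i = y' i) {κ : ℕ →₀ ℤ}
    (hκ : ∀ i, m ≤ i → κ i = 0) : ev y κ = ev y' κ := by
  rw [ev_apply, ev_apply]
  refine Finsupp.sum_congr fun i hi => ?_
  have h1 : i < m := by
    by_contra hc
    exact (Finsupp.mem_support_iff.mp hi) (hκ i (by omega))
  rw [h i h1]

private theorem Bx.nsmul_mem {S : ℕ → Set G} (hS : IsStr S) : ∀ (a b k : ℕ) (x : G),
    k ≤ 2 ^ a → x ∈ S (b + a) → k • x ∈ S b := by
  intro a
  induction a with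
  | zero =>
    intro b k x hk hx
    rw [pow_zero] at hk
    rcases Nat.le_one_iff_eq_zero_or_eq_one.mp hk with rfl | rfl
    · rw [zero_smul]
      exact hS.zero b
    · rw [one_smul]
      exact hx
  | succ a ih =>
    intro b k x hk hx
    rw [pow_succ] at hk
    have hx' : x ∈ S ((b + 1) + a) := by
      have h1 : (b + 1) + a = b + (a + 1) := by omega
      rw [h1]
      exact hx
    have h2 : k = k / 2 + (k - k / 2) := by omega
    rw [h2, add_smul]
    exact hS.add b _ (ih (b + 1) (k / 2) x (by omega) hx') _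
      (ih (b + 1) (k - k / 2) x (by omega) hx')

private theorem Bx.zsmul_mem {S : ℕ → Set G} (hS : IsStr S) (a b : ℕ) (k : ℤ) (x : G)
    (hk : |k| ≤ 2 ^ a) (hx : x ∈ S (b + a)) : k • x ∈ S b := by
  have h1 : k.natAbs ≤ 2 ^ a := by
    have h2 : ((k.natAbs : ℕ) : ℤ) ≤ ((2 ^ a : ℕ) : ℤ) := by
      rw [Int.natCast_natAbs]
      push_cast
      exact hk
    exact_mod_cast h2
  have h3 := Bx.nsmul_mem hS a b k.natAbs x h1 hx
  rcases Int.natAbs_eq k with h | h
  · rw [h, natCast_zsmul]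
    exact h3
  · rw [h, neg_smul, natCast_zsmul]
    exact hS.neg b _ h3

private theorem Bx.sum_mem {S : ℕ → Set G} (hS : IsStr S) (z : ℕ → G)
    (hz : ∀ m, z m ∈ S (m + 1)) : ∀ K N : ℕ, ∑ m ∈ Finset.Ico N (N + K), z m ∈ S N := by
  intro K
  induction K with
  | zero =>
    intro N
    rw [Nat.add_zero, Finset.Ico_self, Finset.sum_empty]
    exact hS.zero N
  | succ K ih =>
    intro N
    rw [Finset.sum_eq_sum_Ico_succ_bot (by omega)]
    have h1 : N + (K + 1) = (N + 1) + K := by omega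
    rw [h1]
    exact hS.add N _ (hz N) _ (ih (N + 1))

theorem ev_mem {S : ℕ → Set G} (hS : IsStr S) {y : ℕ → G} (hy : ∀ m, y m ∈ S (m * m + m + 1))
    {κ : ℕ →₀ ℤ} (hκ : ∀ m, |κ m| ≤ 2 ^ (m * m)) {N : ℕ} (hN : ∀ m < N, κ m = 0) :
    ev y κ ∈ S N := by
  obtain ⟨K, hK⟩ : ∃ K : ℕ, ∀ m ∈ κ.support, m < N + K := by
    refine ⟨κ.support.sup id + 1, fun m hm => ?_⟩
    have h1 : m ≤ κ.support.sup id := Finset.le_sup (f := id) hm
    omega
  have h1 : ev y κ = ∑ m ∈ Finset.Ico N (N + K), κ m • y m := by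
    rw [ev_apply]
    refine Finsupp.sum_of_support_subset κ ?_ _ (fun i _ => zero_smul ℤ (y i))
    intro m hm
    rw [Finset.mem_Ico]
    refine ⟨?_, hK m hm⟩
    by_contra hc
    exact (Finsupp.mem_support_iff.mp hm) (hN m (by omega))
  rw [h1]
  refine Bx.sum_mem hS (fun m => κ m • y m) (fun m => ?_) K N
  refine Bx.zsmul_mem hS (m * m) (m + 1) (κ m) (y m) (hκ m) ?_
  have h2 : m + 1 + m * m = m * m + m + 1 := by ring
  rw [h2]
  exact hy m

theorem strOf_isStr (y : ℕ → G) : IsStr (strOf y) := by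
  refine ⟨fun n => ⟨0, box_str.zero n, map_zero _⟩, ?_, ?_⟩
  · rintro n x ⟨κ, hκ, rfl⟩
    exact ⟨-κ, box_str.neg n κ hκ, map_neg _ _⟩
  · rintro n x ⟨κ, hκ, rfl⟩ x' ⟨κ', hκ', rfl⟩
    exact ⟨κ + κ', box_str.add n κ hκ κ' hκ', map_add _ _ _⟩

end LocMin
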