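import Mathlib
import Pool.Agent.Lib.MP_27feec_al_LM.Bx

/-!
# Averaging: nearly additive maps on boxes
-/

namespace LocMin

open Topology Filter

namespace Avg

private theorem exists_lift (z : UnitAddCircle) :
    ∃ r : ℝ, ((r : ℝ) : UnitAddCircle) = z ∧ |r| = ‖z‖ := by
  induction z using QuotientAddGroup.induction_on with
  | H x =>
    refine ⟨x - round x, ?_, ?_⟩
    · have h : (((round x : ℤ) : ℝ) : UnitAddCircle) = 0 := by
        rw [AddCircle.coe_eq_zero_iff]
        exact ⟨round x, by simp⟩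
      rw [AddCircle.coe_sub, h, sub_zero]
    · exact (UnitAddCircle.norm_eq (x := x)).symm

/-- the norm attaining lift -/
private noncomputable def lf (z : UnitAddCircle) : ℝ := (exists_lift z).choose

private theorem lf_coe (z : UnitAddCircle) : ((lf z : ℝ) : UnitAddCircle) = z :=
  (exists_lift z).choose_spec.1

private theorem abs_lf (z : UnitAddCircle) : |lf z| = ‖z‖ := (exists_lift z).choose_spec.2

private theorem eq_zero_of_lt_one {r : ℝ} (h : ((r : ℝ) : UnitAddCircle) = 0) (h1 : |r| < 1) :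
    r = 0 := by
  rw [AddCircle.coe_eq_zero_iff] at h
  obtain ⟨n, hn⟩ := h
  have hn' : (n : ℝ) = r := by simpa using hn
  rw [← hn'] at h1 ⊢
  have : |n| < 1 := by
    have := h1
    rw [← Int.cast_abs] at this
    exact_mod_cast this
  have : n = 0 := Int.abs_lt_one_iff.1 this
  simp [this]

private theorem norm_coe_le (r : ℝ) : ‖((r : ℝ) : UnitAddCircle)‖ ≤ |r| := by
  rw [UnitAddCircle.norm_eq]
  have := round_le r 0
  simpa using this

private theorem sum_shift {α : Type*} [AddCommGroup α] [DecidableEq α] (Q : Finset α) (e : α)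
    (g : α → ℝ) (δ : ℝ) (hg : ∀ c ∈ Q, |g c| ≤ δ) (hg' : ∀ c ∈ Q, |g (c + e)| ≤ δ) :
    |∑ c ∈ Q, (g (c + e) - g c)| ≤
      δ * ((Q.filter fun c => c + e ∉ Q).card + (Q.filter fun c => c - e ∉ Q).card) := by
  have h1 : ∑ c ∈ Q, g (c + e) = ∑ c ∈ Q.filter (fun c => c + e ∈ Q), g (c + e) +
      ∑ c ∈ Q.filter (fun c => c + e ∉ Q), g (c + e) :=
    (Finset.sum_filter_add_sum_filter_not Q _ _).symm
  have h2 : ∑ c ∈ Q, g c = ∑ c ∈ Q.filter (fun c => c - e ∈ Q), g c +
      ∑ c ∈ Q.filter (fun c => c - e ∉ Q), g c :=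
    (Finset.sum_filter_add_sum_filter_not Q _ _).symm
  have h3 : ∑ c ∈ Q.filter (fun c => c + e ∈ Q), g (c + e) =
      ∑ c ∈ Q.filter (fun c => c - e ∈ Q), g c := by
    refine Finset.sum_bij' (fun c _ => c + e) (fun c _ => c - e) ?_ ?_ ?_ ?_ ?_
    · intro c hc
      simp only [Finset.mem_filter, add_sub_cancel_right] at hc ⊢
      exact ⟨hc.2, hc.1⟩
    · intro c hc
      simp only [Finset.mem_filter, sub_add_cancel] at hc ⊢
      exact ⟨hc.2, hc.1⟩
    · intro c _
      exact add_sub_cancel_right c e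
    · intro c _
      exact sub_add_cancel c e
    · intro c _
      rfl
  have h4 : |∑ c ∈ Q.filter (fun c => c + e ∉ Q), g (c + e)| ≤
      (Q.filter fun c => c + e ∉ Q).card * δ := by
    refine (Finset.abs_sum_le_sum_abs _ _).trans ?_
    rw [← nsmul_eq_mul]
    refine Finset.sum_le_card_nsmul _ _ _ ?_
    intro c hc
    exact hg' c (Finset.mem_filter.1 hc).1
  have h5 : |∑ c ∈ Q.filter (fun c => c - e ∉ Q), g c| ≤
      (Q.filter fun c => c - e ∉ Q).card * δ := by
    refine (Finset.abs_sum_le_sum_abs _ _).trans ?_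
    rw [← nsmul_eq_mul]
    refine Finset.sum_le_card_nsmul _ _ _ ?_
    intro c hc
    exact hg c (Finset.mem_filter.1 hc).1
  have h6 : ∑ c ∈ Q, (g (c + e) - g c) = ∑ c ∈ Q.filter (fun c => c + e ∉ Q), g (c + e) -
      ∑ c ∈ Q.filter (fun c => c - e ∉ Q), g c := by
    rw [Finset.sum_sub_distrib, h1, h2, h3]
    ring
  rw [h6]
  refine (abs_sub _ _).trans ?_
  linarith

/-- the defect -/
private noncomputable def dd (φ : (ℕ →₀ ℤ) → UnitAddCircle) (c x : ℕ →₀ ℤ) : ℝ :=
  lf (φ (c + x) - φ c - φ x)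

section

variable {j : ℕ} {φ : (ℕ →₀ ℤ) → UnitAddCircle}
  (hφ : ∀ κ ∈ Box (j + 1), ∀ κ' ∈ Box (j + 1), ‖φ (κ + κ') - φ κ - φ κ'‖ ≤ 1 / 100)

include hφ

private theorem abs_dd {c x : ℕ →₀ ℤ} (hc : c ∈ Box (j + 1)) (hx : x ∈ Box (j + 1)) :
    |dd φ c x| ≤ 1 / 100 := by
  rw [dd, abs_lf]
  exact hφ c hc x hx

private theorem cocycle {c x y : ℕ →₀ ℤ} (hc : c ∈ Box (j + 2)) (hx : x ∈ Box (j + 3))
    (hy : y ∈ Box (j + 3)) :
    dd φ c x + dd φ (c + x) y = dd φ x y + dd φ c (x + y) := by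
  have hx2 : x ∈ Box (j + 2) := box_str.succ_subset _ hx
  have hy2 : y ∈ Box (j + 2) := box_str.succ_subset _ hy
  have hx1 : x ∈ Box (j + 1) := box_str.succ_subset _ hx2
  have hy1 : y ∈ Box (j + 1) := box_str.succ_subset _ hy2
  have hc1 : c ∈ Box (j + 1) := box_str.succ_subset _ hc
  have h1 := abs_dd hφ hc1 hx1
  have h2 := abs_dd hφ (box_str.add _ c hc x hx2) hy1
  have h3 := abs_dd hφ hx1 hy1
  have h4 := abs_dd hφ hc1 (box_str.add _ x hx2 y hy2)
  have h : dd φ c x + dd φ (c + x) y - (dd φ x y + dd φ c (x + y)) = 0 := by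
    apply eq_zero_of_lt_one
    · simp only [AddCircle.coe_sub, AddCircle.coe_add, dd, lf_coe]
      rw [add_assoc c x y]
      abel
    · rw [abs_le] at h1 h2 h3 h4
      rw [abs_lt]
      constructor <;> linarith [h1.1, h1.2, h2.1, h2.2, h3.1, h3.2, h4.1, h4.2]
  linarith

end

/-- the finite box over which we average -/
private def QS (j M : ℕ) : Set (ℕ →₀ ℤ) := {c | c ∈ Box (j + 2) ∧ ∀ m, M ≤ m → c m = 0}

private theorem QS_finite (j M : ℕ) : (QS j M).Finite := by
  refine (lbox_finite M).subset ?_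
  rintro c ⟨h1, h2⟩
  refine ⟨h2, fun i => (h1.2 i).trans ?_⟩
  exact pow_le_pow_right₀ (by norm_num) (Nat.mul_le_mul_left _ (Nat.sub_le _ _))

private noncomputable def QF (j M : ℕ) : Finset (ℕ →₀ ℤ) := (QS_finite j M).toFinset

private theorem mem_QF {j M : ℕ} {c : ℕ →₀ ℤ} :
    c ∈ QF j M ↔ c ∈ Box (j + 2) ∧ ∀ m, M ≤ m → c m = 0 := by
  simp [QF, QS]

private theorem QF_pos (j M : ℕ) : 0 < (QF j M).card :=
  Finset.card_pos.2 ⟨0, mem_QF.2 ⟨box_str.zero _, fun _ _ => rfl⟩⟩

private theorem shift_mem {j M m : ℕ} (hm : j + 2 ≤ m) (hM : m < M) {c : ℕ →₀ ℤ}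
    (hc : c ∈ QF j M) {a : ℤ} (ha : |c m + a| ≤ 2 ^ (m * (m - (j + 2)))) :
    c + Finsupp.single m a ∈ QF j M := by
  rw [mem_QF] at hc ⊢
  obtain ⟨⟨h1, h2⟩, h3⟩ := hc
  refine ⟨⟨fun i hi => ?_, fun i => ?_⟩, fun i hi => ?_⟩
  · rw [Finsupp.add_apply, h1 i hi, Finsupp.single_eq_of_ne (by omega), add_zero]
  · by_cases h : i = m
    · subst h
      rw [Finsupp.add_apply, Finsupp.single_eq_same]
      exact ha
    · rw [Finsupp.add_apply, Finsupp.single_eq_of_ne (by omega), add_zero]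
      exact h2 i
  · rw [Finsupp.add_apply, h3 i hi, Finsupp.single_eq_of_ne (by omega), add_zero]

private theorem card_up {j M m : ℕ} (hm : j + 2 ≤ m) (hM : m < M) :
    ((QF j M).filter fun c => c + Finsupp.single m (1 : ℤ) ∉ QF j M).card *
      (2 * 2 ^ (m * (m - (j + 2))) + 1) ≤ (QF j M).card := by
  set L : ℕ := 2 ^ (m * (m - (j + 2))) with hL
  have hLZ : (2 : ℤ) ^ (m * (m - (j + 2))) = (L : ℤ) := by rw [hL]; push_cast; rfl
  have key : ∀ c ∈ (QF j M).filter (fun c => c + Finsupp.single m (1 : ℤ) ∉ QF j M),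
      c m = L := by
    intro c hc
    rw [Finset.mem_filter] at hc
    by_contra hne
    apply hc.2
    refine shift_mem hm hM hc.1 ?_
    have := (mem_QF.1 hc.1).1.2 m
    rw [hLZ, abs_le] at this ⊢
    constructor <;> omega
  rw [← Finset.card_range (2 * L + 1), ← Finset.card_product]
  refine Finset.card_le_card_of_injOn
    (fun p => p.1 + Finsupp.single m (-(p.2 : ℤ))) ?_ ?_
  · rintro ⟨c, a⟩ hca
    rw [Finset.mem_coe, Finset.mem_product] at hca
    have h1 := key c hca.1
    have h2 : a < 2 * L + 1 := Finset.mem_range.1 hca.2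
    refine shift_mem hm hM (Finset.mem_filter.1 hca.1).1 ?_
    show |c m + -(a : ℤ)| ≤ _
    rw [hLZ, abs_le, h1]
    constructor <;> omega
  · rintro ⟨c, a⟩ hca ⟨c', a'⟩ hca' h
    rw [Finset.mem_coe, Finset.mem_product] at hca hca'
    have h1 := key c hca.1
    have h1' := key c' hca'.1
    have h : c + Finsupp.single m (-(a : ℤ)) = c' + Finsupp.single m (-(a' : ℤ)) := h
    have h2 := DFunLike.congr_fun h m
    simp only [Finsupp.add_apply, Finsupp.single_eq_same] at h2
    have h3 : a = a' := by omega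
    subst h3
    rw [add_right_cancel h]

private theorem card_down {j M m : ℕ} (hm : j + 2 ≤ m) (hM : m < M) :
    ((QF j M).filter fun c => c - Finsupp.single m (1 : ℤ) ∉ QF j M).card *
      (2 * 2 ^ (m * (m - (j + 2))) + 1) ≤ (QF j M).card := by
  set L : ℕ := 2 ^ (m * (m - (j + 2))) with hL
  have hLZ : (2 : ℤ) ^ (m * (m - (j + 2))) = (L : ℤ) := by rw [hL]; push_cast; rfl
  have key : ∀ c ∈ (QF j M).filter (fun c => c - Finsupp.single m (1 : ℤ) ∉ QF j M),
      c m = -L := by
    intro c hc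
    rw [Finset.mem_filter] at hc
    by_contra hne
    apply hc.2
    rw [sub_eq_add_neg, ← Finsupp.single_neg]
    refine shift_mem hm hM hc.1 ?_
    have := (mem_QF.1 hc.1).1.2 m
    rw [hLZ, abs_le] at this ⊢
    constructor <;> omega
  rw [← Finset.card_range (2 * L + 1), ← Finset.card_product]
  refine Finset.card_le_card_of_injOn
    (fun p => p.1 + Finsupp.single m (p.2 : ℤ)) ?_ ?_
  · rintro ⟨c, a⟩ hca
    rw [Finset.mem_coe, Finset.mem_product] at hca
    have h1 := key c hca.1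
    have h2 : a < 2 * L + 1 := Finset.mem_range.1 hca.2
    refine shift_mem hm hM (Finset.mem_filter.1 hca.1).1 ?_
    show |c m + (a : ℤ)| ≤ _
    rw [hLZ, abs_le, h1]
    constructor <;> omega
  · rintro ⟨c, a⟩ hca ⟨c', a'⟩ hca' h
    rw [Finset.mem_coe, Finset.mem_product] at hca hca'
    have h1 := key c hca.1
    have h1' := key c' hca'.1
    have h : c + Finsupp.single m (a : ℤ) = c' + Finsupp.single m (a' : ℤ) := h
    have h2 := DFunLike.congr_fun h m
    simp only [Finsupp.add_apply, Finsupp.single_eq_same] at h2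
    have h3 : a = a' := by omega
    subst h3
    rw [add_right_cancel h]

/-- the averaged defect -/
private noncomputable def ff (j M : ℕ) (φ : (ℕ →₀ ℤ) → UnitAddCircle) (x : ℕ →₀ ℤ) : ℝ :=
  (∑ c ∈ QF j M, dd φ c x) / (QF j M).card

/-- the corrected map -/
private noncomputable def PH (j M : ℕ) (φ : (ℕ →₀ ℤ) → UnitAddCircle) (x : ℕ →₀ ℤ) :
    UnitAddCircle := φ x + ((ff j M φ x : ℝ) : UnitAddCircle)

section

variable {j : ℕ} {φ : (ℕ →₀ ℤ) → UnitAddCircle}
  (hφ : ∀ κ ∈ Box (j + 1), ∀ κ' ∈ Box (j + 1), ‖φ (κ + κ') - φ κ - φ κ'‖ ≤ 1 / 100)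

include hφ

private theorem abs_ff (M : ℕ) {x : ℕ →₀ ℤ} (hx : x ∈ Box (j + 1)) : |ff j M φ x| ≤ 1 / 100 := by
  have hpos : (0 : ℝ) < (QF j M).card := by exact_mod_cast QF_pos j M
  rw [ff, abs_div, abs_of_pos hpos, div_le_iff₀ hpos]
  refine (Finset.abs_sum_le_sum_abs _ _).trans ?_
  rw [mul_comm, ← nsmul_eq_mul]
  refine Finset.sum_le_card_nsmul _ _ _ ?_
  intro c hc
  exact abs_dd hφ (box_str.succ_subset _ (mem_QF.1 hc).1) hx

omit hφ in
private theorem PH_zero (M : ℕ) : PH j M φ 0 = 0 := by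
  have hpos : (0 : ℝ) < (QF j M).card := by exact_mod_cast QF_pos j M
  have h : ff j M φ 0 = lf (-φ 0) := by
    rw [ff, div_eq_iff hpos.ne', mul_comm, ← nsmul_eq_mul, ← Finset.sum_const]
    refine Finset.sum_congr rfl ?_
    intro c _
    rw [dd, add_zero, sub_self, zero_sub]
  rw [PH, h, lf_coe, add_neg_cancel]

private theorem step (M m : ℕ) (hm : j + 3 ≤ m) (hM : m < M) {y : ℕ →₀ ℤ}
    (hy : y ∈ Box (j + 3)) :
    ‖PH j M φ (Finsupp.single m 1 + y) - PH j M φ (Finsupp.single m 1) - PH j M φ y‖ ≤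
      (1 / 100) / 2 ^ (m * (m - (j + 2))) := by
  have hpos : (0 : ℝ) < (QF j M).card := by exact_mod_cast QF_pos j M
  set x : ℕ →₀ ℤ := Finsupp.single m 1 with hx0
  have hx : x ∈ Box (j + 3) := single_mem_box hm
  have hx2 : x ∈ Box (j + 2) := box_str.succ_subset _ hx
  have hy2 : y ∈ Box (j + 2) := box_str.succ_subset _ hy
  have hy1 : y ∈ Box (j + 1) := box_str.succ_subset _ hy2
  have h1 : ff j M φ (x + y) - ff j M φ x - ff j M φ y + dd φ x y =
      (∑ c ∈ QF j M, (dd φ (c + x) y - dd φ c y)) / (QF j M).card := by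
    have h2 : ∑ c ∈ QF j M, (dd φ (c + x) y - dd φ c y) =
        ∑ c ∈ QF j M, (dd φ c (x + y) - dd φ c x - dd φ c y + dd φ x y) := by
      refine Finset.sum_congr rfl ?_
      intro c hc
      have := cocycle hφ (mem_QF.1 hc).1 hx hy
      linarith
    rw [h2, Finset.sum_add_distrib, Finset.sum_sub_distrib, Finset.sum_sub_distrib,
      Finset.sum_const, nsmul_eq_mul, ff, ff, ff]
    field_simp
  have h2 : PH j M φ (x + y) - PH j M φ x - PH j M φ y =
      (((∑ c ∈ QF j M, (dd φ (c + x) y - dd φ c y)) / (QF j M).card : ℝ) : UnitAddCircle) := by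
    rw [← h1, AddCircle.coe_add, AddCircle.coe_sub, AddCircle.coe_sub]
    have h3 : ((dd φ x y : ℝ) : UnitAddCircle) = φ (x + y) - φ x - φ y := by rw [dd, lf_coe]
    rw [h3, PH, PH, PH]
    abel
  rw [h2]
  refine (norm_coe_le _).trans ?_
  have h3 := sum_shift (QF j M) x (fun c => dd φ c y) (1 / 100)
    (fun c hc => abs_dd hφ (box_str.succ_subset _ (mem_QF.1 hc).1) hy1)
    (fun c hc => abs_dd hφ (box_str.add _ c (mem_QF.1 hc).1 x hx2) hy1)
  have h4 := card_up (j := j) (M := M) (m := m) (by omega) hM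
  have h5 := card_down (j := j) (M := M) (m := m) (by omega) hM
  rw [← hx0] at h4 h5
  rw [abs_div, abs_of_pos hpos, div_le_div_iff₀ hpos (by positivity)]
  have h4' : (((QF j M).filter fun c => c + x ∉ QF j M).card : ℝ) *
      (2 * 2 ^ (m * (m - (j + 2))) + 1) ≤ (QF j M).card := by exact_mod_cast h4
  have h5' : (((QF j M).filter fun c => c - x ∉ QF j M).card : ℝ) *
      (2 * 2 ^ (m * (m - (j + 2))) + 1) ≤ (QF j M).card := by exact_mod_cast h5
  have hL : (0 : ℝ) < 2 ^ (m * (m - (j + 2))) := by positivity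
  have hA : (0 : ℝ) ≤ ((QF j M).filter fun c => c + x ∉ QF j M).card := by positivity
  have hB : (0 : ℝ) ≤ ((QF j M).filter fun c => c - x ∉ QF j M).card := by positivity
  generalize (((QF j M).filter fun c => c + x ∉ QF j M).card : ℝ) = A at *
  generalize (((QF j M).filter fun c => c - x ∉ QF j M).card : ℝ) = B at *
  calc |∑ c ∈ QF j M, (dd φ (c + x) y - dd φ c y)| * 2 ^ (m * (m - (j + 2)))
      ≤ (1 / 100 * (A + B)) * 2 ^ (m * (m - (j + 2))) := by gcongr
    _ ≤ 1 / 100 * (QF j M).card := by nlinarith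

private theorem near (M : ℕ) (s : ℕ) : ∀ κ ∈ Box (j + 3), (∀ m, M ≤ m → κ m = 0) →
    ∑ m ∈ Finset.range M, (κ m).natAbs = s →
    ‖PH j M φ κ - ev (fun m => PH j M φ (Finsupp.single m 1)) κ‖ ≤
      ∑ m ∈ Finset.range M, |(κ m : ℝ)| * ((1 / 100) / 2 ^ (m * (m - (j + 2)))) := by
  classical
  induction s with
  | zero =>
    intro κ hκ hM hs
    have h0 : κ = 0 := by
      ext m
      by_cases hm : m < M
      · rw [Finset.sum_eq_zero_iff] at hs
        have := hs m (Finset.mem_range.2 hm)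
        simpa using this
      · simpa using hM m (by omega)
    subst h0
    rw [PH_zero, map_zero, sub_zero, norm_zero]
    exact Finset.sum_nonneg fun m _ => by positivity
  | succ s ih =>
    intro κ hκ hM hs
    have hne : ∃ m ∈ Finset.range M, (κ m).natAbs ≠ 0 := by
      apply Finset.exists_ne_zero_of_sum_ne_zero
      omega
    obtain ⟨m, hmr, hm0⟩ := hne
    have hmM : m < M := Finset.mem_range.1 hmr
    have hmj : j + 3 ≤ m := by
      by_contra hc
      exact hm0 (by rw [hκ.1 m (by omega)]; rfl)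
    have hne0 : κ m ≠ 0 := by
      intro h
      exact hm0 (by rw [h]; rfl)
    -- general facts on a unit change
    have aux : ∀ ε : ℤ, (κ m - ε).natAbs + 1 = (κ m).natAbs →
        (κ - Finsupp.single m ε ∈ Box (j + 3)) ∧
        (∀ i, M ≤ i → (κ - Finsupp.single m ε) i = 0) ∧
        ∑ i ∈ Finset.range M, ((κ - Finsupp.single m ε) i).natAbs = s ∧
        (∑ i ∈ Finset.range M, |((κ - Finsupp.single m ε) i : ℝ)| *
            ((1 / 100) / 2 ^ (i * (i - (j + 2))))) + (1 / 100) / 2 ^ (m * (m - (j + 2))) =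
          ∑ i ∈ Finset.range M, |(κ i : ℝ)| * ((1 / 100) / 2 ^ (i * (i - (j + 2)))) := by
      intro ε hε
      have hv : (κ - Finsupp.single m ε) m = κ m - ε := by
        rw [Finsupp.sub_apply, Finsupp.single_eq_same]
      have hv' : ∀ i, i ≠ m → (κ - Finsupp.single m ε) i = κ i := by
        intro i hi
        rw [Finsupp.sub_apply, Finsupp.single_eq_of_ne (by omega), sub_zero]
      refine ⟨⟨fun i hi => ?_, fun i => ?_⟩, fun i hi => ?_, ?_, ?_⟩
      · rw [hv' i (by omega)]
        exact hκ.1 i hi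
      · by_cases him : i = m
        · subst him
          rw [hv]
          refine le_trans ?_ (hκ.2 i)
          rw [Int.abs_eq_natAbs, Int.abs_eq_natAbs]
          omega
        · rw [hv' i him]
          exact hκ.2 i
      · rw [hv' i (by omega)]
        exact hM i hi
      · rw [← Finset.add_sum_erase _ _ hmr] at hs ⊢
        rw [hv]
        have : ∑ i ∈ (Finset.range M).erase m, ((κ - Finsupp.single m ε) i).natAbs =
            ∑ i ∈ (Finset.range M).erase m, (κ i).natAbs := by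
          refine Finset.sum_congr rfl ?_
          intro i hi
          rw [hv' i (Finset.ne_of_mem_erase hi)]
        rw [this]
        omega
      · rw [← Finset.add_sum_erase _ _ hmr,
          ← Finset.add_sum_erase _ (fun i => |(κ i : ℝ)| * ((1 / 100) / 2 ^ (i * (i - (j + 2)))))
            hmr]
        have : ∑ i ∈ (Finset.range M).erase m, |((κ - Finsupp.single m ε) i : ℝ)| *
              ((1 / 100) / 2 ^ (i * (i - (j + 2)))) =
            ∑ i ∈ (Finset.range M).erase m, |(κ i : ℝ)| *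
              ((1 / 100) / 2 ^ (i * (i - (j + 2)))) := by
          refine Finset.sum_congr rfl ?_
          intro i hi
          rw [hv' i (Finset.ne_of_mem_erase hi)]
        rw [this, hv]
        have h2 : |((κ m - ε : ℤ) : ℝ)| + 1 = |(κ m : ℝ)| := by
          rw [← Int.cast_abs, ← Int.cast_abs, Int.abs_eq_natAbs, Int.abs_eq_natAbs]
          have : (((κ m - ε).natAbs : ℤ) : ℝ) + 1 = (((κ m).natAbs : ℤ) : ℝ) := by
            rw [← hε]
            push_cast
            ring
          exact this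
        rw [← h2]
        ring
    rcases lt_or_gt_of_ne hne0 with hneg | hpos
    · -- negative coordinate
      obtain ⟨h1, h2, h3, h4⟩ := aux (-1) (by omega)
      have h5 := ih _ h1 h2 h3
      have h6 := step hφ M m hmj hmM hκ
      have h7 : κ - Finsupp.single m (-1 : ℤ) = Finsupp.single m 1 + κ := by
        rw [Finsupp.single_neg, sub_neg_eq_add, add_comm]
      rw [← h4]
      rw [h7] at h5 ⊢
      rw [map_add, ev_single, one_zsmul] at h5
      have h8 : PH j M φ κ - ev (fun m => PH j M φ (Finsupp.single m 1)) κ =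
          (PH j M φ (Finsupp.single m 1 + κ) - (PH j M φ (Finsupp.single m 1) +
            ev (fun m => PH j M φ (Finsupp.single m 1)) κ)) -
          (PH j M φ (Finsupp.single m 1 + κ) - PH j M φ (Finsupp.single m 1) - PH j M φ κ) := by
        abel
      rw [h8]
      exact (norm_sub_le _ _).trans (add_le_add h5 h6)
    · obtain ⟨h1, h2, h3, h4⟩ := aux 1 (by omega)
      have h5 := ih _ h1 h2 h3
      have h6 := step hφ M m hmj hmM h1
      have h7 : Finsupp.single m (1 : ℤ) + (κ - Finsupp.single m 1) = κ := by abel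
      rw [h7] at h6
      rw [← h4]
      rw [map_sub, ev_single, one_zsmul] at h5
      have h8 : PH j M φ κ - ev (fun m => PH j M φ (Finsupp.single m 1)) κ =
          (PH j M φ (κ - Finsupp.single m 1) - (ev (fun m => PH j M φ (Finsupp.single m 1)) κ -
            PH j M φ (Finsupp.single m 1))) +
          (PH j M φ κ - PH j M φ (Finsupp.single m 1) - PH j M φ (κ - Finsupp.single m 1)) := by
        abel
      rw [h8]
      exact (norm_add_le _ _).trans (add_le_add h5 h6)

private theorem near' (M : ℕ) {κ : ℕ →₀ ℤ} (hκ : κ ∈ Box (j + 3)) (hM : ∀ m, M ≤ m → κ m = 0) :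
    ‖φ κ - ev (fun m => PH j M φ (Finsupp.single m 1)) κ‖ ≤ 1 / 20 := by
  have h1 := near hφ M _ κ hκ hM rfl
  have h2 : ∑ m ∈ Finset.range M, |(κ m : ℝ)| * ((1 / 100) / 2 ^ (m * (m - (j + 2)))) ≤
      1 / 50 := by
    have h3 : ∀ m ∈ Finset.range M, |(κ m : ℝ)| * ((1 / 100) / 2 ^ (m * (m - (j + 2)))) ≤
        (1 / 100) * (1 / 2) ^ m := by
      intro m _
      by_cases hm : m < j + 3
      · rw [hκ.1 m hm]
        simp only [Int.cast_zero, abs_zero, zero_mul]
        positivity
      · have h4 := hκ.2 m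
        have h5 : |(κ m : ℝ)| ≤ 2 ^ (m * (m - (j + 3))) := by
          rw [← Int.cast_abs]
          exact_mod_cast h4
        have h6 : m * (m - (j + 2)) = m * (m - (j + 3)) + m := by
          have : m - (j + 2) = m - (j + 3) + 1 := by omega
          rw [this]
          ring
        calc |(κ m : ℝ)| * ((1 / 100) / 2 ^ (m * (m - (j + 2))))
            ≤ 2 ^ (m * (m - (j + 3))) * ((1 / 100) / 2 ^ (m * (m - (j + 2)))) := by gcongr
          _ = (1 / 100) * (1 / 2) ^ m := by
            rw [h6, pow_add, one_div_pow]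
            field_simp
    refine (Finset.sum_le_sum h3).trans ?_
    rw [← Finset.mul_sum]
    have h7 : ∑ m ∈ Finset.range M, (1 / 2 : ℝ) ^ m ≤ 2 := by
      have := sum_geometric_two_le M
      simpa using this
    linarith
  have hκ1 : κ ∈ Box (j + 1) := box_str.succ_subset _ (box_str.succ_subset _ hκ)
  have h3 := abs_ff hφ M hκ1
  have h4 : φ κ - ev (fun m => PH j M φ (Finsupp.single m 1)) κ =
      (PH j M φ κ - ev (fun m => PH j M φ (Finsupp.single m 1)) κ) -
        ((ff j M φ κ : ℝ) : UnitAddCircle) := by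
    rw [PH]
    abel
  rw [h4]
  refine (norm_sub_le _ _).trans ?_
  have h5 := (norm_coe_le (ff j M φ κ)).trans h3
  linarith

end

end Avg

theorem averaging (j : ℕ) (φ : (ℕ →₀ ℤ) → UnitAddCircle)
    (hφ : ∀ κ ∈ Box (j + 1), ∀ κ' ∈ Box (j + 1), ‖φ (κ + κ') - φ κ - φ κ'‖ ≤ 1 / 100) :
    ∃ μ : ℕ → UnitAddCircle, ∀ κ ∈ Box (j + 3), ‖φ κ - ev μ κ‖ ≤ 1 / 20 := by
  set F : ℕ → (ℕ → UnitAddCircle) := fun M m => Avg.PH j M φ (Finsupp.single m 1) with hF
  obtain ⟨μ, -, hμ⟩ := isCompact_univ.ultrafilter_le_nhds ((hyperfilter ℕ).map F)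
    (by simp)
  refine ⟨μ, fun κ hκ => ?_⟩
  have hcont : Continuous fun ν : ℕ → UnitAddCircle => ‖φ κ - ev ν κ‖ := by
    have : Continuous fun ν : ℕ → UnitAddCircle => ev ν κ := by
      simp only [ev_apply, Finsupp.sum]
      exact continuous_finsetSum _ fun m _ => (continuous_apply m).zsmul _
    exact (continuous_const.sub this).norm
  have hclosed : IsClosed {ν : ℕ → UnitAddCircle | ‖φ κ - ev ν κ‖ ≤ 1 / 20} :=
    isClosed_le hcont continuous_const
  have hev : ∀ᶠ M in (hyperfilter ℕ : Filter ℕ), F M ∈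
      {ν : ℕ → UnitAddCircle | ‖φ κ - ev ν κ‖ ≤ 1 / 20} := by
    have h1 : ∀ᶠ M in (atTop : Filter ℕ), F M ∈
        {ν : ℕ → UnitAddCircle | ‖φ κ - ev ν κ‖ ≤ 1 / 20} := by
      obtain ⟨B, hB⟩ : ∃ B : ℕ, ∀ m, B ≤ m → κ m = 0 := by
        refine ⟨κ.support.sup id + 1, fun m hm => ?_⟩
        by_contra h
        have := Finset.le_sup (f := id) (Finsupp.mem_support_iff.2 h)
        simp only [id] at this
        omega
      filter_upwards [eventually_ge_atTop B] with M hM
      exact Avg.near' hφ M hκ fun m hm => hB m (hM.trans hm)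
    rw [← Nat.cofinite_eq_atTop] at h1
    exact h1.filter_mono (hyperfilter_le_cofinite)
  exact hclosed.mem_of_tendsto (show Tendsto F (hyperfilter ℕ : Filter ℕ) (𝓝 μ) from hμ) hev

end LocMin
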