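import Mathlib
import Pool.Agent.Lib.MP_27feec_al_LM.Defs

/-!
# The topology generated by a family of sets
-/

namespace LocMin

open Topology Filter

variable {G : Type*} [AddCommGroup G]

private theorem fam_aux [τ : TopologicalSpace G] [IsTopologicalAddGroup G] {V : Set G} (hV : Wit V)
    {ι : Type*} [Nonempty ι] (w : ι → Set G) (h0 : ∀ i, (0 : G) ∈ w i)
    (hinter : ∀ i j, ∃ k, w k ⊆ w i ∩ w j)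
    (hadd : ∀ i, ∃ j, ∀ x ∈ w j, ∀ y ∈ w j, x + y ∈ w i)
    (hneg : ∀ i, ∃ j, ∀ x ∈ w j, -x ∈ w i)
    {O₀ : Set G} (hO₀ : O₀ ∈ 𝓝 (0 : G)) {i₀ : ι} (hi₀ : ∀ x ∈ O₀, ∀ s ∈ w i₀, x + s ∈ V)
    (hsep : ∀ x, (∀ O ∈ 𝓝 (0 : G), ∀ i, ∃ s ∈ w i, x - s ∈ O) → x = 0) :
    ∀ O ∈ 𝓝 (0 : G), ∃ i, w i ⊆ O := by
  have hne : Nonempty ({O : Set G // O ∈ 𝓝 (0 : G)} × ι) :=
    ⟨(⟨Set.univ, univ_mem⟩, Classical.arbitrary ι)⟩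
  obtain ⟨σ, hσ, hbas⟩ := exists_topology
    (fun p : {O : Set G // O ∈ 𝓝 (0 : G)} × ι => Sm p.1.1 (w p.2))
    (fun p => ⟨0, mem_of_mem_nhds p.1.2, 0, h0 p.2, add_zero 0⟩)
    (by
      rintro ⟨⟨O, hO⟩, i⟩ ⟨⟨O', hO'⟩, j⟩
      obtain ⟨k, hk⟩ := hinter i j
      refine ⟨(⟨O ∩ O', inter_mem hO hO'⟩, k), ?_⟩
      rintro _ ⟨a, ha, b, hb, rfl⟩
      exact ⟨⟨a, ha.1, b, (hk hb).1, rfl⟩, ⟨a, ha.2, b, (hk hb).2, rfl⟩⟩)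
    (by
      rintro ⟨⟨O, hO⟩, i⟩
      obtain ⟨j, hj⟩ := hadd i
      obtain ⟨O', hO', h4⟩ := exists_nhds_zero_half hO
      refine ⟨(⟨O', hO'⟩, j), ?_⟩
      rintro _ ⟨a, ha, b, hb, rfl⟩ _ ⟨c, hc, d, hd, rfl⟩
      exact ⟨a + c, h4 a ha c hc, b + d, hj b hb d hd, by abel⟩)
    (by
      rintro ⟨⟨O, hO⟩, i⟩
      obtain ⟨j, hj⟩ := hneg i
      refine ⟨(⟨-O, neg_mem_nhds_zero G hO⟩, j), ?_⟩
      rintro _ ⟨a, ha, b, hb, rfl⟩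
      exact ⟨-a, ha, -b, hj b hb, by abel⟩)
  have hT2 : @T2Space G σ := by
    refine @IsTopologicalAddGroup.t2Space_of_zero_sep G σ _ hσ ?_
    intro x hx
    by_contra hcon
    push Not at hcon
    refine hx (hsep x fun O hO i => ?_)
    obtain ⟨a, ha, b, hb, hab⟩ := hcon (Sm O (w i)) (hbas.mem_of_mem (i := (⟨O, hO⟩, i)) trivial)
    refine ⟨b, hb, ?_⟩
    rw [← hab, add_sub_cancel_right]
    exact ha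
  have hcoarse : τ ≤ σ := by
    refine le_of_nhds ‹@IsTopologicalAddGroup G τ _› hσ ?_
    intro O hO
    obtain ⟨⟨⟨O', hO'⟩, i⟩, -, h⟩ := hbas.mem_iff.1 hO
    refine mem_of_superset (f := @nhds G τ 0) hO' (Set.Subset.trans ?_ h)
    intro x hx
    exact ⟨x, hx, 0, h0 i, add_zero x⟩
  have hVσ : V ∈ @nhds G σ 0 := by
    refine mem_of_superset (hbas.mem_of_mem (i := (⟨O₀, hO₀⟩, i₀)) trivial) ?_
    rintro _ ⟨a, ha, b, hb, rfl⟩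
    exact hi₀ a ha b hb
  have heq := hV.2 σ hσ hT2 hcoarse hVσ
  intro O hO
  rw [← heq] at hO
  obtain ⟨⟨⟨O', hO'⟩, i⟩, -, h⟩ := hbas.mem_iff.1 hO
  refine ⟨i, fun s hs => h ⟨0, @mem_of_mem_nhds _ τ _ _ hO', s, hs, zero_add s⟩⟩

theorem Wit.family [TopologicalSpace G] [IsTopologicalAddGroup G] {V : Set G} (hV : Wit V)
    {ι : Type*} [Nonempty ι] (w : ι → Set G) (h0 : ∀ i, (0 : G) ∈ w i)
    (hinter : ∀ i j, ∃ k, w k ⊆ w i ∩ w j)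
    (hadd : ∀ i, ∃ j, ∀ x ∈ w j, ∀ y ∈ w j, x + y ∈ w i)
    (hneg : ∀ i, ∃ j, ∀ x ∈ w j, -x ∈ w i)
    {O₀ : Set G} (hO₀ : O₀ ∈ 𝓝 (0 : G)) {i₀ : ι} (hi₀ : ∀ x ∈ O₀, ∀ s ∈ w i₀, x + s ∈ V)
    (hsep : ∀ x, (∀ O ∈ 𝓝 (0 : G), ∀ i, ∃ s ∈ w i, x - s ∈ O) → x = 0) :
    ∀ O ∈ 𝓝 (0 : G), ∃ i, w i ⊆ O := by
  exact fam_aux hV w h0 hinter hadd hneg hO₀ hi₀ hsep

end LocMin
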