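import Mathlib
import Pool.Agent.Lib.MP_27feec_al_LM.Defs

/-!
# Generic elements and recursive choice
-/

namespace LocMin

open Topology Filter

variable {G : Type*} [AddCommGroup G]

theorem neumann {S : ℕ → Set G} (hS : IsStr S) {ι : Type*} (R : Finset ι) (d : ι → ℕ)
    (P : ι → Set G) (hP : ∀ i ∈ R, ∀ n, ¬ Tb (nm (d i) (S n)) {x | ∃ a ∈ P i, ∃ b ∈ P i, x = a - b})
    (Γ : ι → Set G) (hΓ : ∀ i ∈ R, (Γ i).Finite) (h : ℕ) :
    ∃ y ∈ S h, ∀ i ∈ R, ∀ γ ∈ Γ i, d i • y - γ ∉ P i := by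
  classical
  induction R using Finset.induction_on generalizing Γ h with
  | empty => exact ⟨0, hS.zero h, by simp⟩
  | insert r R hr ih =>
    have hfin : (Γ r).Finite := hΓ r (Finset.mem_insert_self _ _)
    obtain ⟨w, hw, hwΦ⟩ : ∃ w ∈ S (h + 1), ∀ γ ∈ Γ r, ∀ γ' ∈ Γ r,
        ¬ ∃ a ∈ P r, ∃ b ∈ P r, d r • w - (γ' - γ) = a - b := by
      by_contra hcon
      push Not at hcon
      apply hP r (Finset.mem_insert_self _ _) (h + 1)
      refine ⟨Set.image2 (fun γ γ' => γ' - γ) (Γ r) (Γ r), hfin.image2 _ hfin, ?_⟩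
      rintro x ⟨w, hw, rfl⟩
      obtain ⟨γ, hγ, γ', hγ', hex⟩ := hcon w hw
      exact ⟨γ' - γ, ⟨γ, hγ, γ', hγ', rfl⟩, hex⟩
    obtain ⟨y, hy, hyR⟩ := ih (fun i hi => hP i (Finset.mem_insert_of_mem hi))
      (fun i => Γ i ∪ (fun γ => γ - d i • w) '' Γ i)
      (fun i hi => (hΓ i (Finset.mem_insert_of_mem hi)).union
        ((hΓ i (Finset.mem_insert_of_mem hi)).image _)) (h + 1)
    have hR1 : ∀ i ∈ R, ∀ γ ∈ Γ i, d i • y - γ ∉ P i := fun i hi γ hγ =>
      hyR i hi γ (Or.inl hγ)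
    have hR2 : ∀ i ∈ R, ∀ γ ∈ Γ i, d i • (y + w) - γ ∉ P i := by
      intro i hi γ hγ
      have := hyR i hi (γ - d i • w) (Or.inr ⟨γ, hγ, rfl⟩)
      have e : d i • (y + w) - γ = d i • y - (γ - d i • w) := by
        rw [smul_add]; abel
      rwa [e]
    by_cases hc : ∀ γ ∈ Γ r, d r • y - γ ∉ P r
    · refine ⟨y, hS.succ_subset h hy, ?_⟩
      intro i hi
      rcases Finset.mem_insert.1 hi with rfl | hi
      · exact hc
      · exact hR1 i hi
    · push Not at hc
      obtain ⟨γ, hγ, hγP⟩ := hc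
      refine ⟨y + w, hS.add h y hy w hw, ?_⟩
      intro i hi
      rcases Finset.mem_insert.1 hi with rfl | hi
      · intro γ' hγ' hγ'P
        refine hwΦ γ hγ γ' hγ' ⟨_, hγ'P, _, hγP, ?_⟩
        rw [smul_add]; abel
      · exact hR2 i hi

/-- recursive choice of a sequence -/
theorem exists_dep_seq {α : Type*} [Inhabited α] (P : ℕ → (ℕ → α) → α → Prop)
    (hP : ∀ m p, ∃ a, P m p a)
    (hdep : ∀ m p p' a, (∀ i < m, p i = p' i) → P m p a → P m p' a) :
    ∃ y : ℕ → α, ∀ m, P m y (y m) := by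
  classical
  choose F hF using hP
  let y : ℕ → α := WellFounded.fix (C := fun _ => α) Nat.lt_wfRel.wf
    (fun m prev => F m (fun i => if h : i < m then prev i h else default))
  have hy : ∀ m, y m = F m (fun i => if i < m then y i else default) := by
    intro m
    have h0 := WellFounded.fix_eq (C := fun _ => α) Nat.lt_wfRel.wf
      (fun m prev => F m (fun i => if h : i < m then prev i h else default)) m
    exact h0
  refine ⟨y, fun m => ?_⟩
  refine hdep m (fun i => if i < m then y i else default) y (y m) ?_ ?_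
  · intro i hi
    simp only [hi, if_true]
  · have h1 := hF m (fun i => if i < m then y i else default)
    rw [← hy m] at h1
    exact h1

end LocMin
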