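import Mathlib
import Pool.Agent.Lib.MP_27feec_al.Main
import Pool.Agent.Lib.MP_27feec_al_LM.Fam
import Pool.Agent.Lib.MP_27feec_al_LM.Neu
import Pool.Agent.Lib.MP_27feec_al_LM.Bx

/-!
# Small strings are totally bounded after multiplication
-/

namespace LocMin

open Topology Filter

private theorem caseA_top (κ : ℕ →₀ ℤ) (hκ : ∀ i, |κ i| ≤ 2 ^ (i * i)) (h0 : κ ≠ 0) :
    ∃ m k : ℕ, 0 < k ∧ k ≤ 2 ^ (m * m) ∧ ∃ κ' ∈ LBox m,
      (κ = κ' + Finsupp.single m (k : ℤ) ∨ -κ = κ' + Finsupp.single m (k : ℤ)) := by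
  classical
  have hne : κ.support.Nonempty := Finsupp.support_nonempty_iff.2 h0
  let m := κ.support.max' hne
  have hm : κ m ≠ 0 := Finsupp.mem_support_iff.1 (κ.support.max'_mem hne)
  have hgt : ∀ i, m < i → κ i = 0 := by
    intro i hi
    by_contra hc
    have := κ.support.le_max' i (Finsupp.mem_support_iff.2 hc)
    omega
  have hk : ((κ m).natAbs : ℤ) = |κ m| := Int.natCast_natAbs (κ m)
  have hkle : (κ m).natAbs ≤ 2 ^ (m * m) := by
    have := hκ m
    rw [← hk] at this
    exact_mod_cast this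
  have hkpos : 0 < (κ m).natAbs := Int.natAbs_pos.2 hm
  have hL : ∀ s : ℤ, |s| = 1 → s • κ - Finsupp.single m (s * κ m) ∈ LBox m := by
    intro s hs
    refine ⟨fun i hi => ?_, fun i => ?_⟩
    · rcases eq_or_lt_of_le hi with rfl | hi'
      · simp
      · have hne' : m ≠ i := by omega
        simp [hne', hgt i hi']
    · by_cases h : m = i
      · subst h
        simp
      · have : (s • κ - Finsupp.single m (s * κ m)) i = s * κ i := by
          simp [h]
        rw [this, abs_mul, hs, one_mul]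
        exact hκ i
  rcases lt_or_gt_of_ne hm with hneg | hpos
  · refine ⟨m, (κ m).natAbs, hkpos, hkle, _, hL (-1) (by norm_num), Or.inr ?_⟩
    rw [hk, abs_of_neg hneg]
    ext i
    simp
  · refine ⟨m, (κ m).natAbs, hkpos, hkle, _, hL 1 (by norm_num), Or.inl ?_⟩
    rw [hk, abs_of_pos hpos]
    ext i
    simp

variable {G : Type*} [AddCommGroup G] [TopologicalSpace G] [IsTopologicalAddGroup G] [T2Space G]

theorem caseA {V : Set G} (hV : Wit V) {S : ℕ → Set G} (hS : IsStr S) (hSV : Small V S) :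
    MTb S := by
  classical
  by_contra hcon
  unfold MTb at hcon
  push Not at hcon
  obtain ⟨O1, hO1, hcon⟩ := hcon
  obtain ⟨O2, hO2, hO2s, hO2a⟩ := exists_four hO1
  have z2 : (0 : G) ∈ O2 := mem_of_mem_nhds hO2
  -- the choice of the sequence
  have : Inhabited G := ⟨0⟩
  obtain ⟨y, hy⟩ := exists_dep_seq (α := G)
    (fun m p a => a ∈ S (m * m + m + 1) ∧ ∀ k : ℕ, 0 < k → k ≤ 2 ^ (m * m) →
      ∀ κ ∈ LBox m, ev p κ + k • a ∉ O2)
    (by
      intro m p
      obtain ⟨a, ha, ha'⟩ := neumann hS (Finset.Icc 1 (2 ^ (m * m))) (fun i : ℕ => i)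
        (fun _ => O2)
        (by
          intro i hi n hT
          refine hcon i (Finset.mem_Icc.1 hi).1 n (hT.mono subset_rfl ?_)
          rintro _ ⟨a, ha, b, hb, rfl⟩
          have := hO2a a ha (-b) (hO2s b hb) 0 z2 0 z2
          have e : a - b = a + -b + 0 + 0 := by abel
          rw [e]
          exact this)
        (fun _ => (fun κ => -ev p κ) '' LBox m)
        (fun i _ => (lbox_finite m).image _) (m * m + m + 1)
      refine ⟨a, ha, fun k hk hk' κ hκ hmem => ?_⟩
      refine ha' k (Finset.mem_Icc.2 ⟨hk, hk'⟩) _ ⟨κ, hκ, rfl⟩ ?_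
      have e : k • a - -ev p κ = ev p κ + k • a := by abel
      change k • a - -ev p κ ∈ O2
      rw [e]
      exact hmem)
    (by
      rintro m p p' a hpp ⟨h1, h2⟩
      refine ⟨h1, fun k hk hk' κ hκ => ?_⟩
      rw [← ev_congr hpp hκ.1]
      exact h2 k hk hk' κ hκ)
  -- nonzero elements of the box have values outside of `O2`
  have hstar : ∀ κ ∈ Box 0, κ ≠ 0 → ev y κ ∉ O2 := by
    intro κ hκ h0 hmem
    obtain ⟨m, k, hk, hk', κ', hκ', hor⟩ := caseA_top κ (fun i => by
      have := hκ.2 i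
      rwa [Nat.sub_zero] at this) h0
    refine (hy m).2 k hk hk' κ' hκ' ?_
    have e : ev y κ' + k • y m = ev y (κ' + Finsupp.single m (k : ℤ)) := by
      rw [map_add, ev_single, natCast_zsmul]
    rw [e]
    rcases hor with h | h
    · rw [← h]
      exact hmem
    · rw [← h, map_neg]
      exact hO2s _ hmem
  have hbs := box_str
  have hanti := hbs.anti
  have hyS : ∀ m, y m ∈ S (m * m + m + 1) := fun m => (hy m).1
  -- the family
  obtain ⟨O0, hO0, hO0'⟩ := hSV
  have hfam := hV.family (ι := ℕ) (fun n => ev y '' Box (n + 1))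
    (fun n => ⟨0, hbs.zero _, map_zero _⟩)
    (fun i j => ⟨max i j, Set.subset_inter
      (Set.image_mono (hanti (by omega)))
      (Set.image_mono (hanti (by omega)))⟩)
    (by
      intro i
      refine ⟨i + 1, ?_⟩
      rintro _ ⟨κ, hκ, rfl⟩ _ ⟨κ', hκ', rfl⟩
      exact ⟨κ + κ', hbs.add (i + 1) κ hκ κ' hκ', map_add _ _ _⟩)
    (by
      intro i
      refine ⟨i, ?_⟩
      rintro _ ⟨κ, hκ, rfl⟩
      exact ⟨-κ, hbs.neg _ κ hκ, map_neg _ _⟩)
    hO0 (i₀ := 0)
    (by
      rintro x hx _ ⟨κ, hκ, rfl⟩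
      refine hO0' x hx _ (ev_mem hS hyS (fun m => (hκ.2 m).trans ?_) (by simp))
      exact pow_le_pow_right₀ (by norm_num) (Nat.mul_le_mul_left m (Nat.sub_le _ _)))
    (by
      intro x hx
      obtain ⟨O3, hO3, hO3s, hO3a⟩ := exists_four hO2
      have z3 : (0 : G) ∈ O3 := mem_of_mem_nhds hO3
      have hall : ∀ O' ∈ 𝓝 (0 : G), x ∈ O' := by
        intro O' hO'
        obtain ⟨_, ⟨κ, hκ, rfl⟩, h1⟩ := hx (O' ∩ O3) (inter_mem hO' hO3) 0
        let n := κ.support.sup id + 1
        have hn : ∀ i, n ≤ i → κ i = 0 := by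
          intro i hi
          by_contra hc
          have : i ≤ κ.support.sup id :=
            Finset.le_sup (f := id) (Finsupp.mem_support_iff.2 hc)
          omega
        obtain ⟨_, ⟨κ', hκ', rfl⟩, h2⟩ := hx (O' ∩ O3) (inter_mem hO' hO3) n
        have hd : κ - κ' ∈ Box 0 := by
          rw [sub_eq_add_neg]
          exact hbs.add 0 κ hκ _ (hbs.neg _ _ (hanti (by omega) hκ'))
        have h0 : κ - κ' = 0 := by
          by_contra hc
          refine hstar _ hd hc ?_
          have e : ev y (κ - κ') = (x - ev y κ') + -(x - ev y κ) + 0 + 0 := by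
            rw [map_sub]; abel
          rw [e]
          exact hO3a _ h2.2 _ (hO3s _ h1.2) 0 z3 0 z3
        have hκ0 : κ = 0 := by
          have he : κ = κ' := sub_eq_zero.1 h0
          ext i
          rcases Nat.lt_or_ge i n with hi | hi
          · rw [he]
            exact hκ'.1 i (by omega)
          · exact hn i hi
        have := h1.1
        rw [hκ0, map_zero, sub_zero] at this
        exact this
      by_contra hx0
      have h1 : ({x}ᶜ : Set G) ∈ 𝓝 (0 : G) := isOpen_compl_singleton.mem_nhds (Ne.symm hx0)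
      exact hall _ h1 rfl)
  obtain ⟨i, hi⟩ := hfam O2 hO2
  have h1 : ev y (Finsupp.single (i + 1) 1) ∈ O2 :=
    hi ⟨_, single_mem_box (le_refl (i + 1)), rfl⟩
  refine hstar _ (single_mem_box (Nat.zero_le _)) ?_ h1
  simp

end LocMin
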