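import Mathlib
import Pool.Agent.Lib.MP_27feec_al_LM.Defs

/-!
# The core of a string
-/

namespace LocMin

open Topology Filter

variable {G : Type*} [AddCommGroup G] [UniformSpace G] [IsUniformAddGroup G] [T2Space G]
  [CompleteSpace G]

private theorem core_half {G : Type*} [AddCommGroup G] [TopologicalSpace G]
    [IsTopologicalAddGroup G] {O : Set G} (hO : O ∈ 𝓝 (0 : G)) :
    ∃ O' ∈ 𝓝 (0 : G), ∀ x ∈ O', ∀ y ∈ O', x + y ∈ O := by
  have h : Tendsto (fun p : G × G => p.1 + p.2) (𝓝 0 ×ˢ 𝓝 0) (𝓝 0) := by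
    have h1 : Continuous fun p : G × G => p.1 + p.2 := by fun_prop
    have h2 := h1.tendsto (0, 0)
    rw [nhds_prod_eq] at h2
    simpa using h2
  obtain ⟨A, hA, B, hB, hAB⟩ := mem_prod_iff.1 (h hO)
  exact ⟨A ∩ B, inter_mem hA hB, fun x hx y hy => hAB (Set.mk_mem_prod hx.1 hy.2)⟩

private theorem core_neg_nhds {G : Type*} [AddCommGroup G] [TopologicalSpace G]
    [IsTopologicalAddGroup G] {O : Set G} (hO : O ∈ 𝓝 (0 : G)) :
    {x : G | -x ∈ O} ∈ 𝓝 (0 : G) := by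
  have h1 : Continuous fun x : G => -x := by fun_prop
  exact h1.continuousAt.preimage_mem_nhds (by simpa using hO)

/-- neighbourhoods of `x` of the form `{y | x - y ∈ O}` -/
private theorem core_sub_nhds {G : Type*} [AddCommGroup G] [TopologicalSpace G]
    [IsTopologicalAddGroup G] {O : Set G} (hO : O ∈ 𝓝 (0 : G)) (x : G) :
    {y : G | x - y ∈ O} ∈ 𝓝 x := by
  have h1 : Continuous fun y : G => x - y := by fun_prop
  exact h1.continuousAt.preimage_mem_nhds (by simpa using hO)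

private theorem core_sub_nhds' {G : Type*} [AddCommGroup G] [TopologicalSpace G]
    [IsTopologicalAddGroup G] {O : Set G} (hO : O ∈ 𝓝 (0 : G)) (x : G) :
    {y : G | y - x ∈ O} ∈ 𝓝 x := by
  have h1 : Continuous fun y : G => y - x := by fun_prop
  exact h1.continuousAt.preimage_mem_nhds (by simpa using hO)

private theorem core_smul {G : Type*} [AddCommGroup G] {S : ℕ → Set G} (hS : IsStr S) :
    ∀ (b n : ℕ), ∀ s ∈ S (n + b), b • s ∈ S n := by
  intro b
  induction b with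
  | zero =>
    intro n s _
    rw [zero_smul]
    exact hS.zero n
  | succ b ih =>
    intro n s hs
    rw [succ_nsmul]
    refine hS.add n _ (ih (n + 1) s ?_) _ ?_
    · have e : n + 1 + b = n + (b + 1) := by omega
      rw [e]
      exact hs
    · exact hS.anti (by omega) hs

/-- the core is a subgroup -/
def coreSub {G : Type*} [AddCommGroup G] [TopologicalSpace G] [IsTopologicalAddGroup G]
    {S : ℕ → Set G} (hS : IsStr S) : AddSubgroup G where
  carrier := Core S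
  zero_mem' := by
    intro a _ n O hO
    refine ⟨0, hS.zero n, ?_⟩
    rw [smul_zero, sub_zero]
    exact mem_of_mem_nhds hO
  add_mem' := by
    intro x y hx hy a ha n O hO
    obtain ⟨O', hO', h1⟩ := core_half hO
    obtain ⟨s, hs, hs'⟩ := hx a ha (n + 1) O' hO'
    obtain ⟨t, ht, ht'⟩ := hy a ha (n + 1) O' hO'
    refine ⟨s + t, hS.add n s hs t ht, ?_⟩
    have e : x + y - a • (s + t) = (x - a • s) + (y - a • t) := by
      rw [smul_add]
      abel
    rw [e]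
    exact h1 _ hs' _ ht'
  neg_mem' := by
    intro x hx a ha n O hO
    obtain ⟨s, hs, hs'⟩ := hx a ha n _ (core_neg_nhds hO)
    refine ⟨-s, hS.neg n s hs, ?_⟩
    have e : -x - a • (-s) = -(x - a • s) := by
      rw [smul_neg]
      abel
    rw [e]
    exact hs'

private theorem core_nm_dir {G : Type*} [AddCommGroup G] {S : ℕ → Set G} (hS : IsStr S)
    (a a' n n' : ℕ) : nm (a * a') (S (n + a' + (n' + a))) ⊆ nm a (S n) ∩ nm a' (S n') := by
  rintro x ⟨s, hs, rfl⟩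
  constructor
  · refine ⟨a' • s, core_smul hS a' n s (hS.anti (by omega) hs), ?_⟩
    rw [mul_smul]
  · refine ⟨a • s, core_smul hS a n' s (hS.anti (by omega) hs), ?_⟩
    rw [mul_comm, mul_smul]

/-- an ultrafilter containing all sets `nm a (S n)` and a given filter -/
private theorem core_ultra {G : Type*} [AddCommGroup G] {S : ℕ → Set G} (hS : IsStr S)
    (g : Filter G) (hg : ∀ a : ℕ, 0 < a → ∀ n, ∀ t ∈ g, (nm a (S n) ∩ t).Nonempty) :
    ∃ F : Ultrafilter G, (F : Filter G) ≤ g ∧ ∀ a : ℕ, 0 < a → ∀ n, nm a (S n) ∈ F := by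
  let f : ℕ × ℕ → Filter G := fun p => 𝓟 (nm (p.1 + 1) (S p.2))
  have hdir : Directed (· ≥ ·) f := by
    rintro ⟨a, n⟩ ⟨a', n'⟩
    have e : (a + 1) * (a' + 1) - 1 + 1 = (a + 1) * (a' + 1) := by
      have : 0 < (a + 1) * (a' + 1) := by positivity
      omega
    have h := core_nm_dir hS (a + 1) (a' + 1) n n'
    refine ⟨((a + 1) * (a' + 1) - 1, n + (a' + 1) + (n' + (a + 1))), ?_, ?_⟩
    · simp only [f, ge_iff_le, principal_mono]
      rw [e]
      exact h.trans Set.inter_subset_left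
    · simp only [f, ge_iff_le, principal_mono]
      rw [e]
      exact h.trans Set.inter_subset_right
  have hne : (iInf f ⊓ g).NeBot := by
    rw [inf_neBot_iff]
    intro s hs t ht
    rw [mem_iInf_of_directed hdir] at hs
    obtain ⟨p, hp⟩ := hs
    obtain ⟨x, hx1, hx2⟩ := hg (p.1 + 1) (Nat.succ_pos _) p.2 t ht
    exact ⟨x, hp hx1, hx2⟩
  refine ⟨Ultrafilter.of (iInf f ⊓ g), (Ultrafilter.of_le _).trans inf_le_right, ?_⟩
  intro a ha n
  have h1 : nm a (S n) ∈ f (a - 1, n) := by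
    have e : a - 1 + 1 = a := by omega
    simp only [f, e, mem_principal]
    exact subset_rfl
  exact (Ultrafilter.of_le _) (mem_inf_of_left (mem_iInf_of_mem _ h1))

private theorem core_cauchy {F : Ultrafilter G}
    (h : ∀ O ∈ 𝓝 (0 : G), ∃ φ : G, {x : G | x - φ ∈ O} ∈ F) : ∃ x : G, (F : Filter G) ≤ 𝓝 x := by
  have hc : Cauchy (F : Filter G) := by
    refine cauchy_of_sub fun O hO => ?_
    obtain ⟨O', hO', h1⟩ := core_half hO
    obtain ⟨φ, hφ⟩ := h _ (inter_mem hO' (core_neg_nhds hO'))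
    refine ⟨_, hφ, ?_⟩
    intro x hx y hy
    have e : y - x = (y - φ) + -(x - φ) := by abel
    rw [e]
    exact h1 _ hy.1 _ hx.2
  exact CompleteSpace.complete hc

private theorem core_lim {S : ℕ → Set G} (hM : MTb S) (F : Ultrafilter G)
    (hF : ∀ a : ℕ, 0 < a → ∀ n, nm a (S n) ∈ F) : ∃ x ∈ Core S, (F : Filter G) ≤ 𝓝 x := by
  obtain ⟨x, hx⟩ := core_cauchy (F := F) (by
    intro O hO
    obtain ⟨a, ha, n, Φ, hΦ, hcov⟩ := hM O hO
    have h1 : (⋃ φ ∈ Φ, {x : G | x - φ ∈ O}) ∈ F := by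
      refine mem_of_superset (hF a ha n) ?_
      intro x hx
      obtain ⟨φ, hφ, h2⟩ := hcov x hx
      exact Set.mem_biUnion hφ h2
    obtain ⟨φ, _, hφ⟩ := (Ultrafilter.finite_biUnion_mem_iff hΦ).1 h1
    exact ⟨φ, hφ⟩)
  refine ⟨x, ?_, hx⟩
  intro a ha n O hO
  have h1 : {y : G | x - y ∈ O} ∈ F := hx (core_sub_nhds hO x)
  obtain ⟨y, hy1, s, hs, rfl⟩ := F.nonempty_of_mem (inter_mem h1 (hF a ha n))
  exact ⟨s, hs, hy1⟩

theorem core_compact {S : ℕ → Set G} (hS : IsStr S) (hM : MTb S) : IsCompact (Core S) := by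
  have _ := hS
  rw [isCompact_iff_ultrafilter_le_nhds]
  intro F hF
  have hFC : Core S ∈ F := le_principal_iff.1 hF
  obtain ⟨x, hx⟩ := core_cauchy (F := F) (by
    intro O hO
    obtain ⟨O', hO', h1⟩ := core_half hO
    obtain ⟨a, ha, n, Φ, hΦ, hcov⟩ := hM O' hO'
    have h2 : (⋃ φ ∈ Φ, {x : G | x - φ ∈ O}) ∈ F := by
      refine mem_of_superset hFC ?_
      intro x hx
      obtain ⟨s, hs, hs'⟩ := hx a ha n O' hO'
      obtain ⟨φ, hφ, h3⟩ := hcov (a • s) ⟨s, hs, rfl⟩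
      refine Set.mem_biUnion hφ ?_
      have e : x - φ = (x - a • s) + (a • s - φ) := by abel
      change x - φ ∈ O
      rw [e]
      exact h1 _ hs' _ h3
    obtain ⟨φ, _, hφ⟩ := (Ultrafilter.finite_biUnion_mem_iff hΦ).1 h2
    exact ⟨φ, hφ⟩)
  refine ⟨x, ?_, hx⟩
  intro a ha n O hO
  obtain ⟨O', hO', h1⟩ := core_half hO
  have h2 : {y : G | x - y ∈ O'} ∈ F := hx (core_sub_nhds hO' x)
  obtain ⟨y, hy1, hy2⟩ := F.nonempty_of_mem (inter_mem h2 hFC)
  obtain ⟨s, hs, hs'⟩ := hy2 a ha n O' hO'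
  refine ⟨s, hs, ?_⟩
  have e : x - a • s = (x - y) + (y - a • s) := by abel
  rw [e]
  exact h1 _ hy1 _ hs'

theorem core_near {S : ℕ → Set G} (hS : IsStr S) (hM : MTb S) {O : Set G} (hO : O ∈ 𝓝 (0 : G)) :
    ∃ a : ℕ, 0 < a ∧ ∃ n, ∀ s ∈ S n, ∃ c ∈ Core S, a • s - c ∈ O := by
  by_contra hcon
  push Not at hcon
  obtain ⟨F, hF1, hF2⟩ := core_ultra hS (𝓟 {x : G | ∀ c ∈ Core S, x - c ∉ O}) (by
    intro a ha n t ht
    obtain ⟨s, hs, h1⟩ := hcon a ha n
    exact ⟨a • s, ⟨s, hs, rfl⟩, (mem_principal.1 ht) h1⟩)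
  obtain ⟨x, hx, hFx⟩ := core_lim hM F hF2
  have h1 : {y : G | y - x ∈ O} ∈ F := hFx (core_sub_nhds' hO x)
  have h2 : {x : G | ∀ c ∈ Core S, x - c ∉ O} ∈ F := hF1 (mem_principal_self _)
  obtain ⟨y, hy1, hy2⟩ := F.nonempty_of_mem (inter_mem h1 h2)
  exact hy2 x hx hy1

theorem core_div {S : ℕ → Set G} (hS : IsStr S) (hM : MTb S) {x : G} (hx : x ∈ Core S) {b : ℕ}
    (hb : 0 < b) : ∃ c ∈ Core S, b • c = x := by
  obtain ⟨F, hF1, hF2⟩ := core_ultra hS (comap (fun z : G => x - b • z) (𝓝 0)) (by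
    intro a ha n t ht
    obtain ⟨O, hO, hOt⟩ := mem_comap.1 ht
    obtain ⟨s, hs, h1⟩ := hx (b * a) (Nat.mul_pos hb ha) n O hO
    refine ⟨a • s, ⟨s, hs, rfl⟩, hOt ?_⟩
    change x - b • (a • s) ∈ O
    rw [← mul_smul]
    exact h1)
  obtain ⟨c, hc, hFc⟩ := core_lim hM F hF2
  refine ⟨c, hc, ?_⟩
  have h1 : Tendsto (fun z : G => x - b • z) F (𝓝 0) := by
    rw [tendsto_iff_comap]
    exact hF1
  have h2 : Tendsto (fun z : G => x - b • z) F (𝓝 (x - b • c)) := by
    have h3 : Continuous fun z : G => x - b • z := by fun_prop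
    exact (h3.tendsto c).mono_left hFc
  have h3 := tendsto_nhds_unique h1 h2
  rw [eq_comm, sub_eq_zero] at h3
  exact h3.symm

end LocMin
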