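import Mathlib
import Pool.Agent.Lib.MP_27feec_al.Feathered
import Pool.Agent.Lib.MP_27feec_al_LM.Defs

/-!
# Quotients by small compact subgroups
-/

namespace LocMin

open Topology Filter

private theorem smallK_conv {G : Type*} [AddCommGroup G] [UniformSpace G] [IsUniformAddGroup G]
    [CompleteSpace G] {S : ℕ → Set G} (h : ∀ O ∈ 𝓝 (0 : G), ∃ n, Tb (S n) O)
    (F : Ultrafilter G) (hF : ∀ n, S n ∈ F) : ∃ g, (F : Filter G) ≤ 𝓝 g := by
  have hCau : Cauchy (F : Filter G) := by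
    refine cauchy_of_sub fun O hO => ?_
    obtain ⟨N, hN, hNs, hNa⟩ := exists_four hO
    have zN : (0 : G) ∈ N := mem_of_mem_nhds hN
    obtain ⟨n, Φ, hΦ, hΦ'⟩ := h N hN
    have hcov : S n ⊆ ⋃ φ ∈ Φ, {x | x - φ ∈ N} := by
      intro x hx
      obtain ⟨φ, hφ, hφ'⟩ := hΦ' x hx
      exact Set.mem_iUnion₂.2 ⟨φ, hφ, hφ'⟩
    have hmem := mem_of_superset (hF n) hcov
    obtain ⟨φ, -, hφ⟩ := (Ultrafilter.finite_biUnion_mem_iff hΦ).1 hmem
    refine ⟨_, hφ, fun x hx y hy => ?_⟩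
    have e : y - x = (y - φ) + -(x - φ) + 0 + 0 := by abel
    rw [e]
    exact hNa _ hy _ (hNs _ hx) 0 zN 0 zN
  exact CompleteSpace.complete hCau

theorem small_quotient {G : Type*} [AddCommGroup G] [UniformSpace G] [IsUniformAddGroup G]
    [T2Space G] [CompleteSpace G] {V : Set G} (hV : Wit V)
    (hP : ∀ S : ℕ → Set G, IsStr S → Small V S → ∀ O ∈ 𝓝 (0 : G), ∃ n, Tb (S n) O)
    (K : AddSubgroup G) (hK : IsCompact (K : Set G)) {V₁ : Set G} (hV₁ : V₁ ∈ 𝓝 (0 : G))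
    (h4 : ∀ a ∈ V₁, ∀ b ∈ V₁, ∀ c ∈ V₁, ∀ d ∈ V₁, a + b + c + d ∈ V) (hKV : (K : Set G) ⊆ V₁) :
    LocallyMinimal (G ⧸ K) := by
  have hpV : (QuotientAddGroup.mk : G → G ⧸ K) '' V₁ ∈ 𝓝 (0 : G ⧸ K) :=
    QuotientAddGroup.isOpenMap_coe.image_mem_nhds hV₁ (f := (QuotientAddGroup.mk : G → G ⧸ K))
  have hc : ∀ g : G, map (QuotientAddGroup.mk : G → G ⧸ K) (𝓝 g) ≤ 𝓝 (QuotientAddGroup.mk g) :=
    fun g => (QuotientAddGroup.continuous_mk (N := K)).continuousAt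
  refine ⟨(QuotientAddGroup.mk : G → G ⧸ K) '' V₁, hpV, ?_⟩
  intro σ hσ hσT hle hσV
  -- the chain of neighbourhoods
  let ι := {M : Set (G ⧸ K) // M ∈ @nhds (G ⧸ K) σ 0 ∧ ∀ x ∈ M, -x ∈ M}
  have hstep : ∀ M : ι, ∃ N : ι, ∀ a ∈ N.1, ∀ c ∈ N.1, ∀ d ∈ N.1, ∀ e ∈ N.1,
      a + c + d + e ∈ M.1 := by
    intro M
    obtain ⟨N, h1, h2, h3⟩ := @exists_four _ _ σ hσ _ M.2.1
    exact ⟨⟨N, h1, h2⟩, h3⟩
  choose nx hnx using hstep
  obtain ⟨N0, hN0, hN0s, hN0a⟩ := @exists_four _ _ σ hσ _ hσV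
  let M : ℕ → ι := fun n => Nat.rec ⟨N0, hN0, hN0s⟩ (fun _ x => nx x) n
  have hM : ∀ n, ∀ a ∈ (M (n + 1)).1, ∀ c ∈ (M (n + 1)).1, ∀ d ∈ (M (n + 1)).1,
      ∀ e ∈ (M (n + 1)).1, a + c + d + e ∈ (M n).1 := fun n => hnx (M n)
  have zM : ∀ n, (0 : G ⧸ K) ∈ (M n).1 := fun n => @mem_of_mem_nhds _ σ _ _ (M n).2.1
  have hM2 : ∀ n, ∀ a ∈ (M (n + 1)).1, ∀ c ∈ (M (n + 1)).1, a + c ∈ (M n).1 := by
    intro n a ha c hc
    have := hM n a ha c hc 0 (zM (n + 1)) 0 (zM (n + 1))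
    simpa using this
  have hM0 : (M 0).1 ⊆ (QuotientAddGroup.mk : G → G ⧸ K) '' V₁ := by
    intro a ha
    have := hN0a a ha 0 (zM 0) 0 (zM 0) 0 (zM 0)
    simpa using this
  let S : ℕ → Set G := fun n => {x | (QuotientAddGroup.mk x : G ⧸ K) ∈ (M n).1}
  have hS : IsStr S := by
    refine ⟨fun n => zM n, fun n x hx => ?_, fun n x hx y hy => ?_⟩
    · exact (M n).2.2 _ hx
    · exact hM2 n _ hx _ hy
  have hSV : Small V S := by
    refine ⟨V₁, hV₁, fun x hx s hs => ?_⟩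
    obtain ⟨v, hv, hv'⟩ := hM0 hs
    have hk : -v + s ∈ K := QuotientAddGroup.eq.1 hv'
    have e : x + s = x + v + (-v + s) + 0 := by abel
    rw [e]
    exact h4 x hx v hv _ (hKV hk) 0 (mem_of_mem_nhds hV₁)
  have hT := hP S hS hSV
  refine eq_of_ultrafilter inferInstance hσ hle fun F hF => ?_
  let s : G ⧸ K → G := Quotient.out
  have hs : ∀ y, (QuotientAddGroup.mk (s y) : G ⧸ K) = y := fun y => QuotientAddGroup.out_eq' y
  have hmem : ∀ n, S n ∈ F.map s := by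
    intro n
    rw [Ultrafilter.mem_map]
    refine mem_of_superset (hF (M n).2.1) fun y hy => ?_
    change (QuotientAddGroup.mk (s y) : G ⧸ K) ∈ (M n).1
    rw [hs]
    exact hy
  obtain ⟨g, hg⟩ := smallK_conv hT (F.map s) hmem
  have h2 : map (QuotientAddGroup.mk : G → G ⧸ K) (map s (F : Filter (G ⧸ K))) = F := by
    rw [map_map]
    have : (QuotientAddGroup.mk : G → G ⧸ K) ∘ s = id := funext hs
    rw [this, map_id]
  have h1 := (map_mono hg).trans (hc g)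
  rw [Ultrafilter.coe_map, h2] at h1
  have h3 : (F : Filter (G ⧸ K)) ≤ @nhds _ σ (QuotientAddGroup.mk g : G ⧸ K) :=
    h1.trans ((le_iff_nhds _ _).1 hle _)
  have h4 : (QuotientAddGroup.mk g : G ⧸ K) = 0 := @tendsto_nhds_unique _ _ σ hσT id
    (F : Filter (G ⧸ K)) _ 0 F.neBot (by rwa [tendsto_id']) (by rwa [tendsto_id'])
  rw [h4] at h1
  exact h1

theorem feathered_of_P {G : Type*} [AddCommGroup G] [UniformSpace G] [IsUniformAddGroup G]
    [T2Space G] [CompleteSpace G] {V : Set G} (hV : Wit V)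
    (hP : ∀ S : ℕ → Set G, IsStr S → Small V S → ∀ O ∈ 𝓝 (0 : G), ∃ n, Tb (S n) O) :
    ∃ K : AddSubgroup G, IsCompact (K : Set G) ∧ TopologicalSpace.MetrizableSpace (G ⧸ K) := by
  -- the sequence of neighbourhoods
  let ι := {M : Set G // M ∈ 𝓝 (0 : G) ∧ ∀ x ∈ M, -x ∈ M}
  have hstep : ∀ M : ι, ∃ N : ι, ∀ a ∈ N.1, ∀ c ∈ N.1, ∀ d ∈ N.1, ∀ e ∈ N.1,
      a + c + d + e ∈ M.1 := by
    intro M
    obtain ⟨N, h1, h2, h3⟩ := exists_four M.2.1
    exact ⟨⟨N, h1, h2⟩, h3⟩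
  choose nx hnx using hstep
  obtain ⟨N0, hN0, hN0s, hN0a⟩ := exists_four hV.1
  let M : ℕ → ι := fun n => Nat.rec ⟨N0, hN0, hN0s⟩ (fun _ x => nx x) n
  have hM : ∀ n, ∀ a ∈ (M (n + 1)).1, ∀ c ∈ (M (n + 1)).1, ∀ d ∈ (M (n + 1)).1,
      ∀ e ∈ (M (n + 1)).1, a + c + d + e ∈ (M n).1 := fun n => hnx (M n)
  have zM : ∀ n, (0 : G) ∈ (M n).1 := fun n => mem_of_mem_nhds (M n).2.1
  have hM2 : ∀ n, ∀ a ∈ (M (n + 1)).1, ∀ c ∈ (M (n + 1)).1, a + c ∈ (M n).1 := by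
    intro n a ha c hc
    have := hM n a ha c hc 0 (zM (n + 1)) 0 (zM (n + 1))
    simpa using this
  have hS : IsStr fun n => (M n).1 := ⟨zM, fun n => (M n).2.2, hM2⟩
  have hanti : Antitone fun n => (M n).1 := hS.anti
  have hSV : Small V fun n => (M n).1 := by
    refine ⟨N0, hN0, fun x hx s hs => ?_⟩
    have := hN0a x hx s hs 0 (zM 0) 0 (zM 0)
    simpa using this
  have hT := hP _ hS hSV
  have hconv : ∀ F : Ultrafilter G, (∀ n, (M n).1 ∈ F) → ∃ g, (F : Filter G) ≤ 𝓝 g :=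
    fun F hF => smallK_conv hT F hF
  let K : AddSubgroup G :=
    { carrier := {x | ∀ n, x ∈ (M n).1}
      zero_mem' := zM
      add_mem' := fun {a c} ha hc n => hM2 n a (ha (n + 1)) c (hc (n + 1))
      neg_mem' := fun {a} ha n => (M n).2.2 a (ha n) }
  have hlim : ∀ (F : Ultrafilter G) (g : G), (F : Filter G) ≤ 𝓝 g → (∀ n, (M n).1 ∈ F) →
      g ∈ K := by
    intro F g hg hF n
    have h1 : {y : G | g - y ∈ (M (n + 1)).1} ∈ 𝓝 g := by
      have hc : Continuous fun y : G => g - y := by fun_prop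
      exact hc.continuousAt.preimage_mem_nhds (by simpa using (M (n + 1)).2.1)
    obtain ⟨y, hy1, hy2⟩ := F.nonempty_of_mem (inter_mem (hg h1) (hF (n + 1)))
    have := hM2 n _ hy1 y hy2
    simpa using this
  have hKc : IsCompact (K : Set G) := by
    rw [isCompact_iff_ultrafilter_le_nhds]
    intro F hF
    have hFK : (K : Set G) ∈ F := le_principal_iff.1 hF
    have hFM : ∀ n, (M n).1 ∈ F := fun n => mem_of_superset hFK fun x hx => hx n
    obtain ⟨g, hg⟩ := hconv F hFM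
    exact ⟨g, hlim F g hg hFM, hg⟩
  refine ⟨K, hKc, ?_⟩
  have : IsClosed (K : Set G) := hKc.isClosed
  refine metrizable_of_countable ?_
  -- the images of `M n` form a base at `0`
  have hb0 : (𝓝 (0 : G ⧸ K)).HasBasis (fun _ : ℕ => True)
      fun n => (QuotientAddGroup.mk : G → G ⧸ K) '' (M n).1 := by
    constructor
    intro O
    constructor
    · intro hO
      by_contra hcon
      push Not at hcon
      have hex : ∀ n, ∃ x ∈ (M n).1, (QuotientAddGroup.mk x : G ⧸ K) ∉ O := by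
        intro n
        obtain ⟨_, ⟨x, hx, rfl⟩, hx'⟩ := Set.not_subset.1 (hcon n trivial)
        exact ⟨x, hx, hx'⟩
      choose x hx hxO using hex
      let F : Ultrafilter G := (hyperfilter ℕ).map x
      have hge : ∀ n, {k | n ≤ k} ∈ hyperfilter ℕ := by
        intro n
        refine Nat.hyperfilter_le_atTop ?_
        exact mem_atTop n
      have hMF : ∀ n, x '' {k | n ≤ k} ∈ F := fun n => by
        rw [Ultrafilter.mem_map]
        exact mem_of_superset (hge n) (Set.subset_preimage_image _ _)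
      have hFM : ∀ n, (M n).1 ∈ F := fun n => by
        refine mem_of_superset (hMF n) ?_
        rintro _ ⟨k, hk, rfl⟩
        exact hanti hk (hx k)
      obtain ⟨g, hg⟩ := hconv F hFM
      have hgK : g ∈ K := hlim F g hg hFM
      have hg0 : (QuotientAddGroup.mk g : G ⧸ K) = 0 := (QuotientAddGroup.eq_zero_iff g).2 hgK
      have h2 : {y : G | (QuotientAddGroup.mk y : G ⧸ K) ∈ O} ∈ 𝓝 g := by
        refine (QuotientAddGroup.continuous_mk (N := K)).continuousAt.preimage_mem_nhds ?_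
        rw [hg0]
        exact hO
      obtain ⟨y, hy1, k, -, rfl⟩ := F.nonempty_of_mem (inter_mem (hg h2) (hMF 0))
      exact hxO k hy1
    · rintro ⟨n, -, hn⟩
      have h1 := QuotientAddGroup.isOpenMap_coe.image_mem_nhds (M n).2.1
        (f := (QuotientAddGroup.mk : G → G ⧸ K))
      exact mem_of_superset h1 hn
  exact HasCountableBasis.isCountablyGenerated ⟨hb0, Set.to_countable _⟩

end LocMin
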