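import Mathlib
import Pool.Agent.Lib.MP_27feec_al_LM.SmallK
import Pool.Agent.Lib.MP_27feec_al.Radical

/-!
# Quotients by compact subgroups
-/

namespace LocMin

open Topology Filter

private theorem genK_lift (z : UnitAddCircle) :
    ∃ r : ℝ, ((r : ℝ) : UnitAddCircle) = z ∧ |r| = ‖z‖ := by
  induction z using QuotientAddGroup.induction_on with
  | H x =>
    refine ⟨x - round x, ?_, ?_⟩
    · have h : (((round x : ℤ) : ℝ) : UnitAddCircle) = 0 := by
        rw [AddCircle.coe_eq_zero_iff]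
        exact ⟨round x, by simp⟩
      rw [AddCircle.coe_sub, h, sub_zero]
    · exact (UnitAddCircle.norm_eq (x := x)).symm

private theorem genK_double {v : UnitAddCircle} (hv : ‖v‖ ≤ 3 / 50) : ‖v + v‖ = 2 * ‖v‖ := by
  obtain ⟨r, rfl, hr⟩ := genK_lift v
  rw [← AddCircle.coe_add]
  have h1 : ‖((r + r : ℝ) : UnitAddCircle)‖ = |r + r| := by
    rw [AddCircle.norm_coe_eq_abs_iff (1 : ℝ) one_ne_zero]
    rw [← hr] at hv
    rw [abs_le] at hv ⊢
    rw [abs_one]
    constructor <;> linarith [hv.1, hv.2]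
  rw [h1, ← hr, ← two_mul, abs_mul, abs_two]

private theorem genK_zero {u : UnitAddCircle} (hu : ∀ k : ℕ, ‖k • u‖ ≤ 3 / 50) : u = 0 := by
  have h : ∀ n : ℕ, ‖(2 ^ n) • u‖ = 2 ^ n * ‖u‖ := by
    intro n
    induction n with
    | zero => simp
    | succ n ih =>
      have h1 : (2 ^ (n + 1)) • u = (2 ^ n) • u + (2 ^ n) • u := by
        rw [← add_nsmul]
        congr 1
        ring
      rw [h1, genK_double (hu _), ih]
      ring
  by_contra hne
  have hpos : 0 < ‖u‖ := norm_pos_iff.2 hne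
  obtain ⟨n, hn⟩ := pow_unbounded_of_one_lt ((3 / 50) / ‖u‖) (one_lt_two : (1 : ℝ) < 2)
  have h1 := hu (2 ^ n)
  rw [h n] at h1
  rw [div_lt_iff₀ hpos] at hn
  linarith

theorem exists_nss {G : Type*} [AddCommGroup G] [TopologicalSpace G] [IsTopologicalAddGroup G]
    [T2Space G] (K : AddSubgroup G) (hK : IsCompact (K : Set G)) (hsep : CharSep K) {W : Set G}
    (hW : W ∈ 𝓝 (0 : G)) :
    ∃ L : AddSubgroup G, L ≤ K ∧ IsClosed (L : Set G) ∧ (L : Set G) ⊆ W ∧
      ∃ U ∈ 𝓝 (0 : G ⧸ L), ∀ x : G ⧸ L, x ∈ K.map (QuotientAddGroup.mk' L) →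
        (∀ j : ℕ, j • x ∈ U) → x = 0 := by
  classical
  have : CompactSpace K := isCompact_iff_compactSpace.1 hK
  let C : Set K := {k : K | (k : G) ∉ interior W}
  have hC : IsCompact C := by
    have h1 : IsClosed C :=
      (isOpen_interior.preimage continuous_subtype_val).isClosed_compl
    exact h1.isCompact
  have hC0 : ∀ k ∈ C, k ≠ 0 := by
    rintro k hk rfl
    exact hk (mem_interior_iff_mem_nhds.2 hW)
  have hex : ∀ k : K, ∃ χ : K →+ UnitAddCircle, Continuous χ ∧ (k ∈ C → χ k ≠ 0) := by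
    intro k
    by_cases hk : k ∈ C
    · obtain ⟨χ, h1, h2⟩ := hsep k (hC0 k hk)
      exact ⟨χ, h1, fun _ => h2⟩
    · exact ⟨0, continuous_zero, fun h => (hk h).elim⟩
  choose χ hχ hχ' using hex
  obtain ⟨F, hF⟩ := hC.elim_finite_subcover (fun k : K => {x : K | χ k x ≠ 0})
    (fun k => isOpen_ne_fun (hχ k) continuous_const)
    (fun k hk => Set.mem_iUnion.2 ⟨k, hχ' k hk⟩)
  let L0 : AddSubgroup K := ⨅ k ∈ F, (χ k).ker
  have hL0 : ∀ x : K, x ∈ L0 ↔ ∀ k ∈ F, χ k x = 0 := by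
    intro x
    simp only [L0, AddSubgroup.mem_iInf, AddMonoidHom.mem_ker]
  let L : AddSubgroup G := L0.map K.subtype
  have hLK : L ≤ K := by
    rintro _ ⟨x, -, rfl⟩
    exact x.2
  have hLm : ∀ x : K, (x : G) ∈ L ↔ ∀ k ∈ F, χ k x = 0 := by
    intro x
    rw [← hL0]
    constructor
    · rintro ⟨y, hy, hyx⟩
      have : y = x := Subtype.ext hyx
      rw [← this]
      exact hy
    · intro hx
      exact ⟨x, hx, rfl⟩
  have hL0c : IsClosed (L0 : Set K) := by
    have h1 : (L0 : Set K) = ⋂ k ∈ F, {x : K | χ k x = 0} := by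
      ext x
      rw [SetLike.mem_coe, hL0]
      simp
    rw [h1]
    exact isClosed_biInter fun k _ => isClosed_eq (hχ k) continuous_const
  have hLc : IsClosed (L : Set G) := by
    have h1 : (L : Set G) = (Subtype.val : K → G) '' (L0 : Set K) := rfl
    rw [h1]
    exact (hL0c.isCompact.image continuous_subtype_val).isClosed
  refine ⟨L, hLK, hLc, ?_, ?_⟩
  · intro x hx
    by_contra hxW
    let x' : K := ⟨x, hLK hx⟩
    have hxC : x' ∈ C := fun h => hxW (interior_subset h)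
    obtain ⟨k, hk⟩ := Set.mem_iUnion.1 (hF hxC)
    obtain ⟨hkF, hk'⟩ := Set.mem_iUnion.1 hk
    exact hk' ((hLm x').1 hx k hkF)
  · -- the neighbourhood
    have hO : {x : K | ∀ k ∈ F, ‖χ k x‖ < 3 / 50} ∈ 𝓝 (0 : K) := by
      have h1 : {x : K | ∀ k ∈ F, ‖χ k x‖ < 3 / 50} = ⋂ k ∈ F, {x : K | ‖χ k x‖ < 3 / 50} := by
        ext x
        simp
      rw [h1]
      refine (Filter.biInter_finset_mem F).2 fun k _ => ?_
      refine (isOpen_lt (hχ k).norm continuous_const).mem_nhds ?_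
      change ‖χ k 0‖ < 3 / 50
      rw [map_zero, norm_zero]
      norm_num
    rw [nhds_subtype_eq_comap, Filter.mem_comap] at hO
    obtain ⟨O, hO, hOF⟩ := hO
    refine ⟨(QuotientAddGroup.mk : G → G ⧸ L) '' O,
      QuotientAddGroup.isOpenMap_coe.image_mem_nhds hO (f := (QuotientAddGroup.mk : G → G ⧸ L)),
      ?_⟩
    rintro _ ⟨g, hg, rfl⟩ hj
    have hgL : g ∈ L := by
      let g' : K := ⟨g, hg⟩
      refine (hLm g').2 fun k hk => genK_zero fun j => ?_
      obtain ⟨o, ho, hoj⟩ := hj j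
      have h1 : -o + j • g ∈ L := QuotientAddGroup.eq.1 hoj
      have h2 : o ∈ K := by
        have h3 := K.sub_mem (K.nsmul_mem hg j) (hLK h1)
        have e : j • g - (-o + j • g) = o := by abel
        rwa [e] at h3
      have h4 : j • g' = (⟨o, h2⟩ : K) + ⟨-o + j • g, hLK h1⟩ := by
        apply Subtype.ext
        change j • g = o + (-o + j • g)
        abel
      have h5 : χ k ⟨-o + j • g, hLK h1⟩ = 0 := (hLm ⟨-o + j • g, hLK h1⟩).1 h1 k hk
      rw [← map_nsmul, h4, map_add, h5, add_zero]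
      have h6 : (⟨o, h2⟩ : K) ∈ {x : K | ∀ k ∈ F, ‖χ k x‖ < 3 / 50} := hOF ho
      exact (h6 k hk).le
    exact (QuotientAddGroup.eq_zero_iff g).2 hgL

theorem quotient_of_P {G : Type*} [AddCommGroup G] [UniformSpace G] [IsUniformAddGroup G]
    [T2Space G] [CompleteSpace G] {V : Set G} (hV : Wit V)
    (hP : ∀ S : ℕ → Set G, IsStr S → Small V S → ∀ O ∈ 𝓝 (0 : G), ∃ n, Tb (S n) O)
    (K : AddSubgroup G) (hK : IsCompact (K : Set G)) (hsep : CharSep K) :
    LocallyMinimal (G ⧸ K) := by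
  obtain ⟨V₁, h1, -, h4⟩ := exists_four hV.1
  obtain ⟨L, hLK, hLc, hLV, U, hU, h⟩ := exists_nss K hK hsep h1
  have hL : LocallyMinimal (G ⧸ L) :=
    small_quotient hV hP L (hK.of_isClosed_subset hLc hLK) h1 h4 hLV
  exact quotient_relative L K hLK hLc hK hL ⟨U, hU, fun x hx _ hj => h x hx hj⟩

end LocMin
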