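import Mathlib
import Pool.Agent.Lib.MP_27feec_al_LM.Defs

/-!
# Convolution operators on a compact abelian group
-/

namespace LocMin

open Topology Filter

namespace PWConv

open MeasureTheory

variable {N : Type*} [AddCommGroup N] [TopologicalSpace N] [IsTopologicalAddGroup N]
    [CompactSpace N] [MeasurableSpace N] [BorelSpace N] {μ : Measure N}

/-- the convolution as a continuous function -/
noncomputable def conv (μ : Measure N) [IsFiniteMeasure μ] (f u : C(N, ℂ)) : C(N, ℂ) :=
  ⟨fun x => ∫ y, f (x - y) * u y ∂μ, by
    rw [← continuousOn_univ]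
    refine continuousOn_integral_of_compact_support (k := Set.univ) isCompact_univ ?_ ?_
    · apply Continuous.continuousOn
      simp only [Function.uncurry_def]
      fun_prop
    · intro p x _ hx
      exact absurd (Set.mem_univ x) hx⟩

theorem conv_apply (μ : Measure N) [IsFiniteMeasure μ] (f u : C(N, ℂ)) (x : N) :
    conv μ f u x = ∫ y, f (x - y) * u y ∂μ := rfl

omit [AddCommGroup N] [IsTopologicalAddGroup N] in
theorem integrable_cont [IsFiniteMeasure μ] {F : N → ℂ} (hF : Continuous F) : Integrable F μ :=
  hF.integrable_of_hasCompactSupport (HasCompactSupport.of_compactSpace F)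

omit [AddCommGroup N] [IsTopologicalAddGroup N] in
theorem swap [IsFiniteMeasure μ] {F : N → N → ℂ} (hF : Continuous F.uncurry) :
    ∫ x, (∫ y, F x y ∂μ) ∂μ = ∫ y, (∫ x, F x y ∂μ) ∂μ :=
  integral_integral_swap_of_hasCompactSupport hF (HasCompactSupport.of_compactSpace _)

theorem conv_norm [IsProbabilityMeasure μ] (f u : C(N, ℂ)) : ‖conv μ f u‖ ≤ 1 * ‖f‖ * ‖u‖ := by
  rw [ContinuousMap.norm_le _ (by positivity)]
  intro x
  rw [conv_apply]
  refine (norm_integral_le_of_norm_le_const (C := ‖f‖ * ‖u‖) ?_).trans ?_
  · refine Filter.Eventually.of_forall fun y => ?_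
    rw [norm_mul]
    exact mul_le_mul (f.norm_coe_le_norm _) (u.norm_coe_le_norm _) (norm_nonneg _)
      (norm_nonneg _)
  · simp

/-- the convolution operators -/
noncomputable def TT (μ : Measure N) [IsProbabilityMeasure μ] :
    C(N, ℂ) →L[ℂ] (C(N, ℂ) →L[ℂ] C(N, ℂ)) :=
  LinearMap.mkContinuous₂ (LinearMap.mk₂ ℂ (conv μ)
    (by
      intro f f' u
      ext x
      simp only [conv_apply, ContinuousMap.add_apply, add_mul]
      exact integral_add (integrable_cont (by fun_prop)) (integrable_cont (by fun_prop)))
    (by
      intro c f u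
      ext x
      simp only [conv_apply, ContinuousMap.smul_apply, smul_eq_mul, mul_assoc]
      exact integral_const_mul _ _)
    (by
      intro f u u'
      ext x
      simp only [conv_apply, ContinuousMap.add_apply, mul_add]
      exact integral_add (integrable_cont (by fun_prop)) (integrable_cont (by fun_prop)))
    (by
      intro c f u
      ext x
      simp only [conv_apply, ContinuousMap.smul_apply, smul_eq_mul]
      rw [← integral_const_mul]
      exact integral_congr_ae (Filter.Eventually.of_forall fun y => by ring)))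
    1 conv_norm

theorem TT_apply (μ : Measure N) [IsProbabilityMeasure μ] (f u : C(N, ℂ)) :
    TT μ f u = conv μ f u := rfl

/-- the integral -/
noncomputable def II (μ : Measure N) [IsProbabilityMeasure μ] : C(N, ℂ) →L[ℂ] ℂ :=
  LinearMap.mkContinuous
    { toFun := fun u => ∫ x, u x ∂μ
      map_add' := fun u v => by
        simp only [ContinuousMap.add_apply]
        exact integral_add (integrable_cont u.continuous) (integrable_cont v.continuous)
      map_smul' := fun c u => by
        simp only [ContinuousMap.smul_apply, smul_eq_mul, RingHom.id_apply]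
        exact integral_const_mul _ _ } 1 (by
      intro u
      refine (norm_integral_le_of_norm_le_const (C := ‖u‖) ?_).trans ?_
      · exact Filter.Eventually.of_forall fun y => u.norm_coe_le_norm y
      · simp)

omit [AddCommGroup N] [IsTopologicalAddGroup N] in
theorem II_apply (μ : Measure N) [IsProbabilityMeasure μ] (u : C(N, ℂ)) :
    II μ u = ∫ x, u x ∂μ := rfl

/-- the involution -/
noncomputable def invo (g : C(N, ℂ)) : C(N, ℂ) :=
  ⟨fun x => star (g (-x)), by fun_prop⟩

omit [CompactSpace N] [MeasurableSpace N] [BorelSpace N] in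
theorem invo_apply (g : C(N, ℂ)) (x : N) : invo g x = star (g (-x)) := rfl

theorem conv_assoc [IsProbabilityMeasure μ] [μ.IsAddLeftInvariant] (f g u : C(N, ℂ)) :
    conv μ f (conv μ g u) = conv μ (conv μ f g) u := by
  ext x
  simp only [conv_apply]
  have h1 : ∀ y, f (x - y) * ∫ z, g (y - z) * u z ∂μ
      = ∫ z, f (x - y) * (g (y - z) * u z) ∂μ := fun y => (integral_const_mul _ _).symm
  simp only [h1]
  rw [swap (F := fun y z => f (x - y) * (g (y - z) * u z)) (by
    simp only [Function.uncurry_def]; fun_prop)]
  refine integral_congr_ae (Filter.Eventually.of_forall fun z => ?_)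
  simp only
  rw [← integral_mul_const]
  rw [← integral_sub_right_eq_self (μ := μ) (fun t => f (x - z - t) * g t * u z) z]
  refine integral_congr_ae (Filter.Eventually.of_forall fun y => ?_)
  simp only
  rw [show x - z - (y - z) = x - y by abel, mul_assoc]

theorem conv_comm [IsProbabilityMeasure μ] [μ.IsAddLeftInvariant] [μ.IsNegInvariant]
    (f g : C(N, ℂ)) : conv μ f g = conv μ g f := by
  ext x
  simp only [conv_apply]
  rw [← integral_sub_left_eq_self (fun t => f (x - t) * g t) μ x]
  refine integral_congr_ae (Filter.Eventually.of_forall fun y => ?_)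
  simp only
  rw [show x - (x - y) = y by abel, mul_comm]

theorem conv_shift [IsProbabilityMeasure μ] [μ.IsAddLeftInvariant] (f g : C(N, ℂ)) (y : N) :
    conv μ (shiftC y f) g = conv μ f (shiftC y g) := by
  ext x
  simp only [conv_apply]
  rw [← integral_sub_right_eq_self (μ := μ) (fun t => f (x - t) * shiftC y g t) y]
  refine integral_congr_ae (Filter.Eventually.of_forall fun t => ?_)
  show f (x - t + y) * g t = f (x - (t - y)) * g (t - y + y)
  rw [show x - (t - y) = x - t + y by abel, sub_add_cancel]

theorem II_conv [IsProbabilityMeasure μ] (g u v : C(N, ℂ)) :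
    II μ (conv μ g u * star v) = II μ (u * star (conv μ (invo g) v)) := by
  simp only [II_apply, ContinuousMap.mul_apply, ContinuousMap.star_apply, conv_apply]
  have h1 : ∀ x, (∫ y, g (x - y) * u y ∂μ) * star (v x)
      = ∫ y, g (x - y) * u y * star (v x) ∂μ := fun x => (integral_mul_const _ _).symm
  simp only [h1]
  rw [swap (F := fun x y => g (x - y) * u y * star (v x)) (by
    simp only [Function.uncurry_def]; fun_prop)]
  refine integral_congr_ae (Filter.Eventually.of_forall fun y => ?_)
  simp only
  have h2 : star (∫ x, invo g (y - x) * v x ∂μ) = ∫ x, star (invo g (y - x) * v x) ∂μ :=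
    (integral_conj).symm
  rw [h2, ← integral_const_mul]
  refine integral_congr_ae (Filter.Eventually.of_forall fun x => ?_)
  simp only [invo_apply, star_mul', star_star]
  rw [show -(y - x) = x - y by abel]
  ring

theorem re_eq [IsProbabilityMeasure μ] (u : C(N, ℂ)) :
    (II μ (u * star u)) = ((∫ x, ‖u x‖ ^ 2 ∂μ : ℝ) : ℂ) := by
  rw [II_apply, ← integral_complex_ofReal]
  refine integral_congr_ae (Filter.Eventually.of_forall fun x => ?_)
  simp only [ContinuousMap.mul_apply, ContinuousMap.star_apply]
  rw [Complex.star_def, Complex.mul_conj, Complex.normSq_eq_norm_sq]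

omit [AddCommGroup N] [IsTopologicalAddGroup N] in
theorem pos [IsProbabilityMeasure μ] [μ.IsOpenPosMeasure] (u : C(N, ℂ)) (hu : u ≠ 0) :
    0 < ∫ x, ‖u x‖ ^ 2 ∂μ := by
  obtain ⟨x, hx⟩ : ∃ x, u x ≠ 0 := by
    by_contra hcon
    push Not at hcon
    exact hu (ContinuousMap.ext hcon)
  refine Continuous.integral_pos_of_hasCompactSupport_nonneg_nonzero (f := fun x => ‖u x‖ ^ 2)
    (by fun_prop) (HasCompactSupport.of_compactSpace _) (fun x => by positivity) (x := x) ?_
  have := norm_pos_iff.2 hx
  positivity

end PWConv

theorem convBase (N : Type*) [AddCommGroup N] [TopologicalSpace N] [IsTopologicalAddGroup N]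
    [CompactSpace N] [T2Space N] : ConvBase N := by
  let _ : MeasurableSpace N := borel N
  have : BorelSpace N := ⟨rfl⟩
  set μ : MeasureTheory.Measure N := MeasureTheory.Measure.addHaarMeasure ⊤ with hμ
  have hprob : MeasureTheory.IsProbabilityMeasure μ := ⟨by
    have := MeasureTheory.Measure.addHaarMeasure_self
      (K₀ := (⊤ : TopologicalSpace.PositiveCompacts N))
    simpa using this⟩
  refine ⟨PWConv.TT μ, PWConv.II μ, PWConv.invo, ?_, ?_, ?_, ?_, ?_, ?_, ?_⟩
  · intro f g
    ext1 u
    show PWConv.conv μ f (PWConv.conv μ g u) = PWConv.conv μ g (PWConv.conv μ f u)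
    rw [PWConv.conv_assoc, PWConv.conv_assoc, PWConv.conv_comm f g]
  · intro f g y
    ext1 u
    show PWConv.conv μ (shiftC y f) (PWConv.conv μ g u)
      = PWConv.conv μ f (PWConv.conv μ (shiftC y g) u)
    rw [PWConv.conv_assoc, PWConv.conv_assoc, PWConv.conv_shift]
  · intro g u v
    exact PWConv.II_conv g u v
  · intro u
    exact integral_conj
  · intro u hu
    rw [PWConv.re_eq, Complex.ofReal_re]
    exact PWConv.pos u hu
  · intro u
    rw [PWConv.re_eq, Complex.ofReal_re]
    refine (le_abs_self _).trans ?_
    rw [← Real.norm_eq_abs]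
    refine (MeasureTheory.norm_integral_le_of_norm_le_const (C := ‖u‖ ^ 2) ?_).trans ?_
    · refine Filter.Eventually.of_forall fun y => ?_
      rw [norm_pow, norm_norm]
      exact pow_le_pow_left₀ (norm_nonneg _) (u.norm_coe_le_norm y) 2
    · simp
  · intro g hg h0
    have h1 : PWConv.conv μ (PWConv.invo g) g 0 = 0 := by
      have : PWConv.conv μ (PWConv.invo g) g = 0 := h0
      rw [this]
      rfl
    have h2 := PWConv.pos (μ := μ) g hg
    have h3 : PWConv.conv μ (PWConv.invo g) g 0 = PWConv.II μ (g * star g) := by
      rw [PWConv.conv_apply, PWConv.II_apply]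
      refine MeasureTheory.integral_congr_ae (Filter.Eventually.of_forall fun y => ?_)
      simp only [PWConv.invo_apply, ContinuousMap.mul_apply, ContinuousMap.star_apply]
      rw [show -(0 - y) = y by abel, mul_comm]
    rw [h3, PWConv.re_eq] at h1
    have h4 : (∫ x, ‖g x‖ ^ 2 ∂μ) = 0 := by exact_mod_cast h1
    exact absurd h4 h2.ne'

end LocMin
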