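import Mathlib
import Pool.Agent.Lib.MP_27feec_al_LM.Defs

/-!
# Growth of the powers
-/

namespace LocMin

open Topology Filter

section PWGrowAux

variable {N : Type*} [TopologicalSpace N] [CompactSpace N]

/-- Cauchy-Schwarz, real part -/
theorem PWGrow_cs (I : C(N, ℂ) →L[ℂ] ℂ) (h4 : ∀ u, I (star u) = star (I u))
    (h5 : ∀ u, u ≠ 0 → 0 < (I (u * star u)).re) (u v : C(N, ℂ)) :
    (I (u * star v)).re ^ 2 ≤ (I (u * star u)).re * (I (v * star v)).re := by
  have hnn : ∀ w : C(N, ℂ), 0 ≤ (I (w * star w)).re := by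
    intro w
    by_cases hw : w = 0
    · rw [hw, zero_mul, map_zero, Complex.zero_re]
    · exact (h5 w hw).le
  have hsym : (I (v * star u)).re = (I (u * star v)).re := by
    have h : v * star u = star (u * star v) := by
      rw [star_mul, star_star]
    rw [h, h4]
    exact Complex.conj_re _
  have key : ∀ t : ℝ, 0 ≤ (I (v * star v)).re * (t * t) + (2 * (I (u * star v)).re) * t +
      (I (u * star u)).re := by
    intro t
    have h := hnn (u + (t : ℂ) • v)
    have he : (u + (t : ℂ) • v) * star (u + (t : ℂ) • v) =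
        u * star u + (t : ℂ) • (u * star v) + (t : ℂ) • (v * star u) +
          ((t : ℂ) * (t : ℂ)) • (v * star v) := by
      have hst : star (u + (t : ℂ) • v) = star u + (t : ℂ) • star v := by
        rw [star_add, star_smul]
        congr 2
        exact Complex.conj_ofReal t
      rw [hst, add_mul, mul_add, mul_add, mul_smul_comm, smul_mul_assoc, smul_mul_assoc,
        mul_smul_comm, smul_smul]
      abel
    rw [he, map_add, map_add, map_add, map_smul, map_smul, map_smul] at h
    simp only [smul_eq_mul, Complex.add_re, Complex.mul_re, Complex.ofReal_re,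
      Complex.ofReal_im, zero_mul, sub_zero, mul_zero, Complex.mul_im, add_zero, hsym] at h
    nlinarith [h]
  have hd := discrim_le_zero key
  unfold discrim at hd
  nlinarith [hd]

end PWGrowAux

theorem convData_of_base (N : Type*) [AddCommGroup N] [TopologicalSpace N]
    [IsTopologicalAddGroup N] [CompactSpace N] [T2Space N] (h : ConvBase N) : ConvData N := by
  obtain ⟨T, I, inv, h1, h2, h3, h4, h5, h6, h7⟩ := h
  refine ⟨T, h1, h2, fun g hg => ⟨inv g, ?_⟩⟩
  set A : C(N, ℂ) →L[ℂ] C(N, ℂ) := T g * T (inv g) with hA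
  have hAu : ∀ u, A u = T g (T (inv g) u) := fun u => rfl
  have hB : ∀ u v, I (A u * star v) = I (T (inv g) u * star (T (inv g) v)) := by
    intro u v
    rw [hAu]
    exact h3 g _ _
  have hself : ∀ u v, I (A u * star v) = I (u * star (A v)) := by
    intro u v
    have e1 : u * star (A v) = star (A v * star u) := by
      rw [star_mul, star_star]
    have e2 : T (inv g) u * star (T (inv g) v) = star (T (inv g) v * star (T (inv g) u)) := by
      rw [star_mul, star_star]
    rw [hB, e1, h4, hB, e2, h4]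
  set x : ℕ → C(N, ℂ) := fun n => (A ^ n) g with hx
  have hx0 : x 0 = g := rfl
  have hxs : ∀ n, x (n + 1) = A (x n) := by
    intro n
    show (A ^ (n + 1)) g = A ((A ^ n) g)
    rw [pow_succ']
    rfl
  set b : ℕ → ℝ := fun n => (I (x n * star (x n))).re with hb
  have hb0 : 0 < b 0 := h5 g hg
  have hAg : A g ≠ 0 := by
    intro h0
    have e := hB g g
    rw [h0, zero_mul, map_zero] at e
    have := h5 _ (h7 g hg)
    rw [← e] at this
    exact lt_irrefl _ this
  have hb1 : 0 < b 1 := by
    show 0 < (I (x 1 * star (x 1))).re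
    rw [hxs 0, hx0]
    exact h5 _ hAg
  have hconv : ∀ n, b (n + 1) ^ 2 ≤ b n * b (n + 2) := by
    intro n
    have e : b (n + 1) = (I (x n * star (x (n + 2)))).re := by
      show (I (x (n + 1) * star (x (n + 1)))).re = _
      rw [hxs (n + 1)]
      conv_lhs => rw [hxs n]
      rw [hself, ← hxs n]
    rw [e]
    exact PWGrow_cs I h4 h5 _ _
  have hgrow : ∀ n, 0 < b n ∧ b 1 * b n ≤ b 0 * b (n + 1) := by
    intro n
    induction n with
    | zero => exact ⟨hb0, (mul_comm _ _).le⟩
    | succ n ih =>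
      obtain ⟨i1, i2⟩ := ih
      have i3 : 0 < b (n + 1) := by
        have : 0 < b 0 * b (n + 1) := lt_of_lt_of_le (mul_pos hb1 i1) i2
        exact (mul_pos_iff_of_pos_left hb0).1 this
      refine ⟨i3, ?_⟩
      have i4 := hconv n
      have i5 : (b 1 * b (n + 1)) * b n ≤ (b 0 * b (n + 2)) * b n := by
        calc (b 1 * b (n + 1)) * b n = (b 1 * b n) * b (n + 1) := by ring
          _ ≤ (b 0 * b (n + 1)) * b (n + 1) := mul_le_mul_of_nonneg_right i2 i3.le
          _ = b 0 * b (n + 1) ^ 2 := by ring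
          _ ≤ b 0 * (b n * b (n + 2)) := mul_le_mul_of_nonneg_left i4 hb0.le
          _ = (b 0 * b (n + 2)) * b n := by ring
      exact le_of_mul_le_mul_right i5 i1
  set r : ℝ := b 1 / b 0 with hr
  have hr0 : 0 < r := div_pos hb1 hb0
  have hlow : ∀ n, b 0 * r ^ n ≤ b n := by
    intro n
    induction n with
    | zero => simp
    | succ n ih =>
      have i1 := (hgrow n).2
      calc b 0 * r ^ (n + 1) = (b 0 * r ^ n) * r := by ring
        _ ≤ b n * r := mul_le_mul_of_nonneg_right ih hr0.le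
        _ = (b 1 * b n) / b 0 := by rw [hr]; ring
        _ ≤ (b 0 * b (n + 1)) / b 0 := div_le_div_of_nonneg_right i1 hb0.le
        _ = b (n + 1) := by field_simp
  have hgn : 0 < ‖g‖ := norm_pos_iff.2 hg
  refine ⟨Real.sqrt (b 0) / ‖g‖, div_pos (Real.sqrt_pos.2 hb0) hgn, Real.sqrt r,
    Real.sqrt_pos.2 hr0, fun n => ?_⟩
  have hup : b n ≤ (‖A ^ n‖ * ‖g‖) ^ 2 := by
    refine (h6 (x n)).trans ?_
    exact pow_le_pow_left₀ (norm_nonneg _) ((A ^ n).le_opNorm g) 2
  have hsq : (Real.sqrt (b 0) * Real.sqrt r ^ n) ^ 2 = b 0 * r ^ n := by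
    rw [mul_pow, Real.sq_sqrt hb0.le, ← pow_mul, mul_comm n 2, pow_mul, Real.sq_sqrt hr0.le]
  have hfin : Real.sqrt (b 0) * Real.sqrt r ^ n ≤ ‖A ^ n‖ * ‖g‖ := by
    refine le_of_sq_le_sq ?_ (by positivity)
    rw [hsq]
    exact (hlow n).trans hup
  calc Real.sqrt (b 0) / ‖g‖ * Real.sqrt r ^ n = (Real.sqrt (b 0) * Real.sqrt r ^ n) / ‖g‖ := by
        ring
    _ ≤ (‖A ^ n‖ * ‖g‖) / ‖g‖ := div_le_div_of_nonneg_right hfin hgn.le
    _ = ‖A ^ n‖ := by field_simp

end LocMin
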