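import Mathlib
import Pool.Agent.Lib.MP_27feec_al_LM.Defs

/-!
# A multiplicative functional
-/

namespace LocMin

open Topology Filter

private theorem pwAlg_radius {S : Type*} [NormedRing S] [NormedAlgebra ℂ S] [CompleteSpace S]
    (a : S) (c ρ : ℝ) (hc : 0 < c) (hρ : 0 < ρ) (hg : ∀ n : ℕ, c * ρ ^ n ≤ ‖a ^ n‖) :
    ENNReal.ofReal ρ ≤ spectralRadius ℂ a := by
  have h1 := spectrum.pow_nnnorm_pow_one_div_tendsto_nhds_spectralRadius a
  have h2 : Tendsto (fun n : ℕ => ENNReal.ofReal (c ^ (1 / (n : ℝ)) * ρ)) atTop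
      (𝓝 (ENNReal.ofReal ρ)) := by
    have h3 : Tendsto (fun n : ℕ => c ^ (1 / (n : ℝ)) * ρ) atTop (𝓝 (1 * ρ)) := by
      refine Tendsto.mul_const ρ ?_
      have h4 : Tendsto (fun n : ℕ => 1 / (n : ℝ)) atTop (𝓝 0) := tendsto_one_div_atTop_nhds_zero_nat
      have h5 := (Real.continuous_const_rpow hc.ne').tendsto (0 : ℝ)
      rw [Real.rpow_zero] at h5
      exact h5.comp h4
    rw [one_mul] at h3
    exact (ENNReal.continuous_ofReal.tendsto ρ).comp h3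
  refine le_of_tendsto_of_tendsto h2 h1 ?_
  filter_upwards [eventually_gt_atTop 0] with n hn
  have hn' : (n : ℝ) ≠ 0 := by exact_mod_cast hn.ne'
  have h6 : c ^ (1 / (n : ℝ)) * ρ = (c * ρ ^ n) ^ (1 / (n : ℝ)) := by
    rw [Real.mul_rpow hc.le (pow_nonneg hρ.le n), ← Real.rpow_natCast, ← Real.rpow_mul hρ.le,
      mul_one_div_cancel hn', Real.rpow_one]
  rw [h6, ← ENNReal.ofReal_rpow_of_nonneg (mul_nonneg hc.le (pow_nonneg hρ.le n))
    (by positivity)]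
  refine ENNReal.rpow_le_rpow ?_ (by positivity)
  calc ENNReal.ofReal (c * ρ ^ n) ≤ ENNReal.ofReal ‖a ^ n‖ := ENNReal.ofReal_le_ofReal (hg n)
    _ = (‖a ^ n‖₊ : ENNReal) := by
        rw [← coe_nnnorm, ENNReal.ofReal_coe_nnreal]

private theorem pwAlg_comm {S : Type*} [NormedCommRing S] [NormedAlgebra ℂ S] [CompleteSpace S]
    (a : S) (c ρ : ℝ) (hc : 0 < c) (hρ : 0 < ρ) (hg : ∀ n : ℕ, c * ρ ^ n ≤ ‖a ^ n‖) :
    ∃ ψ : S →ₐ[ℂ] ℂ, Continuous ψ ∧ ψ a ≠ 0 := by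
  have hr := pwAlg_radius a c ρ hc hρ hg
  have ha : a ≠ 0 := by
    intro h
    have := hg 1
    rw [h, pow_one, pow_one, norm_zero] at this
    have h2 := mul_pos hc hρ
    linarith
  have : Nontrivial S := ⟨⟨a, 0, ha⟩⟩
  obtain ⟨z, hz, hz2⟩ := spectrum.exists_nnnorm_eq_spectralRadius a
  rw [WeakDual.CharacterSpace.mem_spectrum_iff_exists] at hz
  obtain ⟨ψ, hψ⟩ := hz
  refine ⟨WeakDual.CharacterSpace.toAlgHom ψ, ?_, ?_⟩
  · exact map_continuous ψ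
  · intro h0
    have h1 : ψ a = 0 := h0
    rw [h1] at hψ
    rw [← hψ, nnnorm_zero, ENNReal.coe_zero] at hz2
    rw [← hz2] at hr
    have := ENNReal.ofReal_pos.mpr hρ
    exact absurd hr (not_le.mpr this)

private theorem pwAlg_comm' {S : Type*} [NormedRing S] [NormedAlgebra ℂ S] [CompleteSpace S]
    (hcomm : ∀ x y : S, x * y = y * x)
    (a : S) (c ρ : ℝ) (hc : 0 < c) (hρ : 0 < ρ) (hg : ∀ n : ℕ, c * ρ ^ n ≤ ‖a ^ n‖) :
    ∃ ψ : S →ₐ[ℂ] ℂ, Continuous ψ ∧ ψ a ≠ 0 := by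
  let _ : NormedCommRing S := { ‹NormedRing S› with mul_comm := hcomm }
  exact pwAlg_comm (S := S) a c ρ hc hρ hg

theorem exists_algHom {B : Type*} [NormedRing B] [NormedAlgebra ℂ B] [CompleteSpace B]
    (T : Set B) (hT : ∀ a ∈ T, ∀ b ∈ T, a * b = b * a) (a : B) (ha : a ∈ T) (c ρ : ℝ)
    (hc : 0 < c) (hρ : 0 < ρ) (hg : ∀ n : ℕ, c * ρ ^ n ≤ ‖a ^ n‖) :
    ∃ (S : Subalgebra ℂ B) (hS : T ⊆ S) (ψ : S →ₐ[ℂ] ℂ), Continuous ψ ∧ ψ ⟨a, hS ha⟩ ≠ 0 := by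
  have hS : T ⊆ ((Algebra.adjoin ℂ T).topologicalClosure : Subalgebra ℂ B) := fun x hx =>
    Subalgebra.le_topologicalClosure _ (Algebra.subset_adjoin hx)
  refine ⟨(Algebra.adjoin ℂ T).topologicalClosure, hS, ?_⟩
  have : CompleteSpace (Algebra.adjoin ℂ T).topologicalClosure :=
    (Subalgebra.isClosed_topologicalClosure _).completeSpace_coe
  refine pwAlg_comm' ?_ (⟨a, hS ha⟩ : (Algebra.adjoin ℂ T).topologicalClosure) c ρ hc hρ ?_
  · have h1 : ∀ x y : Algebra.adjoin ℂ T, x * y = y * x := by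
      intro x y
      exact (Algebra.isMulCommutative_adjoin ℂ hT).is_comm.comm x y
    exact (Subalgebra.commRingTopologicalClosure _ h1).mul_comm
  · intro n
    exact hg n

end LocMin
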