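import Mathlib
import Pool.Agent.Lib.MP_27feec_al_LM.PWAlg

/-!
# Characters of compact abelian groups separate points
-/

namespace LocMin

open Topology Filter

private theorem PWMain_shift_zero {N : Type*} [AddCommGroup N] [TopologicalSpace N]
    [IsTopologicalAddGroup N] (g : C(N, ℂ)) : shiftC 0 g = g := by
  ext x
  show g (x + 0) = g x
  rw [add_zero]

private theorem PWMain_shift_add {N : Type*} [AddCommGroup N] [TopologicalSpace N]
    [IsTopologicalAddGroup N] (y z : N) (g : C(N, ℂ)) :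
    shiftC y (shiftC z g) = shiftC (y + z) g := by
  ext x
  show g (x + y + z) = g (x + (y + z))
  rw [add_assoc]

private theorem PWMain_shift_cont {N : Type*} [AddCommGroup N] [TopologicalSpace N]
    [IsTopologicalAddGroup N] (g : C(N, ℂ)) : Continuous fun y : N => shiftC y g := by
  have h1 : Continuous fun p : N × N => g (p.2 + p.1) := by fun_prop
  exact (ContinuousMap.curry ⟨fun p : N × N => g (p.2 + p.1), h1⟩).continuous

/-- a bounded multiplicative function is unimodular -/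
private theorem PWMain_norm {N : Type*} [AddCommGroup N] [TopologicalSpace N] [CompactSpace N]
    (χ : N → ℂ) (hc : Continuous χ) (h0 : χ 0 = 1) (ha : ∀ y z, χ (y + z) = χ y * χ z) (y : N) :
    ‖χ y‖ = 1 := by
  obtain ⟨M, hM⟩ : ∃ M, ∀ y, ‖χ y‖ ≤ M := by
    obtain ⟨M, hM⟩ := (isCompact_range hc.norm).bddAbove
    exact ⟨M, fun y => hM ⟨y, rfl⟩⟩
  have hn : ∀ (n : ℕ) (y : N), χ (n • y) = χ y ^ n := by
    intro n y
    induction n with
    | zero => rw [zero_nsmul, h0, pow_zero]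
    | succ n ih => rw [succ_nsmul, ha, ih, pow_succ]
  have hle : ∀ y, ‖χ y‖ ≤ 1 := by
    intro y
    by_contra hlt
    push Not at hlt
    obtain ⟨n, hn1⟩ := pow_unbounded_of_one_lt M hlt
    have h2 := hM (n • y)
    rw [hn, norm_pow] at h2
    exact absurd hn1 (not_lt.mpr h2)
  have h1 : χ y * χ (-y) = 1 := by rw [← ha, add_neg_cancel, h0]
  have h2 : ‖χ y‖ * ‖χ (-y)‖ = 1 := by rw [← norm_mul, h1, norm_one]
  have h3 := hle y
  have h4 := hle (-y)
  have h5 := norm_nonneg (χ y)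
  nlinarith

/-- from a unimodular multiplicative function to a character -/
private theorem PWMain_char {N : Type*} [AddCommGroup N] [TopologicalSpace N]
    (χ : N → ℂ) (hc : Continuous χ) (h0 : χ 0 = 1) (ha : ∀ y z, χ (y + z) = χ y * χ z)
    (hn : ∀ y, ‖χ y‖ = 1) {x : N} (hx : χ x ≠ 1) :
    ∃ φ : N →+ UnitAddCircle, Continuous φ ∧ φ x ≠ 0 := by
  let ζ : N → Circle := fun y => ⟨χ y, mem_sphere_zero_iff_norm.mpr (hn y)⟩
  have hζc : Continuous ζ := hc.subtype_mk _
  have hζa : ∀ y z, ζ (y + z) = ζ y * ζ z := by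
    intro y z
    apply Subtype.ext
    exact ha y z
  let E : UnitAddCircle ≃ₜ Circle := AddCircle.homeomorphCircle one_ne_zero
  have hE : ∀ u v, E (u + v) = E u * E v := by
    intro u v
    show AddCircle.homeomorphCircle one_ne_zero (u + v) =
      AddCircle.homeomorphCircle one_ne_zero u * AddCircle.homeomorphCircle one_ne_zero v
    rw [AddCircle.homeomorphCircle_apply, AddCircle.homeomorphCircle_apply,
      AddCircle.homeomorphCircle_apply, AddCircle.toCircle_add]
  have hadd : ∀ y z, E.symm (ζ (y + z)) = E.symm (ζ y) + E.symm (ζ z) := by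
    intro y z
    apply E.injective
    rw [hE, E.apply_symm_apply, E.apply_symm_apply, E.apply_symm_apply, hζa]
  refine ⟨AddMonoidHom.mk' (fun y => E.symm (ζ y)) hadd, E.symm.continuous.comp hζc, ?_⟩
  intro h
  have h1 : E.symm (ζ x) = 0 := h
  have h2 : E.symm (ζ 0) = 0 := (AddMonoidHom.mk' (fun y => E.symm (ζ y)) hadd).map_zero
  have h3 : ζ x = ζ 0 := E.symm.injective (h1.trans h2.symm)
  apply hx
  have h4 := congrArg Subtype.val h3
  exact h4.trans h0

theorem charSep_of_conv (N : Type*) [AddCommGroup N] [TopologicalSpace N]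
    [IsTopologicalAddGroup N] [CompactSpace N] [T2Space N] (h : ConvData N) : CharSep N := by
  intro x hx
  obtain ⟨T, hcomm, hshift, hgrow⟩ := h
  -- a function separating `x` and `0`
  obtain ⟨f, hf⟩ : ∃ f : C(N, ℂ), f x ≠ f 0 := by
    have hd : Disjoint ({x} : Set N) {0} := by
      rw [Set.disjoint_singleton]
      exact hx
    obtain ⟨f, hf0, hf1, _⟩ := exists_continuous_zero_one_of_isClosed
      (isClosed_singleton (x := x)) (isClosed_singleton (x := (0 : N))) hd
    refine ⟨⟨fun y => ((f y : ℝ) : ℂ), by fun_prop⟩, ?_⟩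
    have h1 : f x = 0 := hf0 (Set.mem_singleton x)
    have h2 : f 0 = 1 := hf1 (Set.mem_singleton 0)
    show ((f x : ℝ) : ℂ) ≠ ((f 0 : ℝ) : ℂ)
    rw [h1, h2]
    norm_num
  set g : C(N, ℂ) := shiftC x f - f with hg
  have hg0 : g ≠ 0 := by
    intro h0
    apply hf
    have h1 : g 0 = 0 := by rw [h0]; rfl
    have h2 : g 0 = f (0 + x) - f 0 := rfl
    rw [h2, zero_add] at h1
    exact sub_eq_zero.mp h1
  obtain ⟨g', c, hc, ρ, hρ, hn⟩ := hgrow g hg0
  let 𝒯 : Set (C(N, ℂ) →L[ℂ] C(N, ℂ)) := Set.range (fun u => T u) ∪ {T g * T g'}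
  have h𝒯 : ∀ a ∈ 𝒯, ∀ b ∈ 𝒯, a * b = b * a := by
    have h1 : ∀ u, T u * (T g * T g') = (T g * T g') * T u := by
      intro u
      rw [← mul_assoc, hcomm u g, mul_assoc, hcomm u g', mul_assoc]
    rintro a (⟨u, rfl⟩ | rfl) b (⟨v, rfl⟩ | rfl)
    · exact hcomm u v
    · exact h1 u
    · exact (h1 v).symm
    · rfl
  obtain ⟨S, hS, ψ, hψc, hψ⟩ := exists_algHom 𝒯 h𝒯 (T g * T g') (Or.inr rfl) c ρ hc hρ hn
  have hmem : ∀ u, T u ∈ S := fun u => hS (Or.inl ⟨u, rfl⟩)
  let θ : C(N, ℂ) → ℂ := fun u => ψ ⟨T u, hmem u⟩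
  have hθc : Continuous θ := hψc.comp (T.continuous.subtype_mk _)
  have hθmul : ∀ u v u' v', T u * T v = T u' * T v' → θ u * θ v = θ u' * θ v' := by
    intro u v u' v' huv
    show ψ ⟨T u, hmem u⟩ * ψ ⟨T v, hmem v⟩ = ψ ⟨T u', hmem u'⟩ * ψ ⟨T v', hmem v'⟩
    rw [← map_mul, ← map_mul]
    congr 1
    exact Subtype.ext huv
  have hθsub : ∀ u v, θ (u - v) = θ u - θ v := by
    intro u v
    show ψ ⟨T (u - v), hmem _⟩ = ψ ⟨T u, hmem u⟩ - ψ ⟨T v, hmem v⟩
    rw [← map_sub]
    congr 1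
    apply Subtype.ext
    exact T.map_sub u v
  have hθg : θ g ≠ 0 := by
    intro h0
    apply hψ
    have h1 : (⟨T g * T g', hS (Or.inr rfl)⟩ : S) = ⟨T g, hmem g⟩ * ⟨T g', hmem g'⟩ :=
      Subtype.ext rfl
    rw [h1, map_mul]
    have h2 : ψ ⟨T g, hmem g⟩ = 0 := h0
    rw [h2, zero_mul]
  let χ : N → ℂ := fun y => θ (shiftC y g) / θ g
  have hχc : Continuous χ := (hθc.comp (PWMain_shift_cont g)).div_const _
  have hχ0 : χ 0 = 1 := by
    show θ (shiftC 0 g) / θ g = 1
    rw [PWMain_shift_zero, div_self hθg]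
  have hχa : ∀ y z, χ (y + z) = χ y * χ z := by
    intro y z
    show θ (shiftC (y + z) g) / θ g = θ (shiftC y g) / θ g * (θ (shiftC z g) / θ g)
    have h1 := hθmul _ _ _ _ (hshift (shiftC z g) g y)
    rw [PWMain_shift_add] at h1
    field_simp
    rw [h1]
    ring
  have hχn := PWMain_norm χ hχc hχ0 hχa
  refine PWMain_char χ hχc hχ0 hχa hχn ?_
  intro h1
  have h2 : θ (shiftC x g) = θ g := by
    have h3 : θ (shiftC x g) / θ g = 1 := h1
    rwa [div_eq_one_iff_eq hθg] at h3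
  have h3 := hθmul _ _ _ _ (hshift f g x)
  rw [h2] at h3
  have h4 : θ (shiftC x f) = θ f := mul_right_cancel₀ hθg h3
  apply hθg
  rw [hg, hθsub, h4, sub_self]

end LocMin
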