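import Mathlib
import Pool.Agent.Lib.MP_27feec_al_LM.Defs

/-!
# The number q
-/

namespace LocMin

open Topology Filter

variable {G : Type*} [AddCommGroup G] [TopologicalSpace G] [IsTopologicalAddGroup G]

theorem exists_q {S : ℕ → Set G} (hS : IsStr S) (a : ℕ) (ha : 0 < a) :
    ∃ q : ℕ, 0 < q ∧ (∀ U ∈ 𝓝 (0 : G), ∀ n, ∃ m, Tb (nm q (S m)) (Sm U (nm a (S n)))) ∧
      ∃ Q : Set G, Q ∈ 𝓝 (0 : G) ∧ (∀ x ∈ Q, -x ∈ Q) ∧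
        (∀ r, 0 < r → r < q → ∀ m, ¬ Tb (nm r (S m)) (Sm (Sm Q Q) (Sm Q Q))) ∧
        ∃ m, ∃ Φ : Set G, Φ.Finite ∧ ∀ s ∈ S m, ∃ φ ∈ Φ, q • s - φ ∈ Q := by
  classical
  have hex : ∃ d : ℕ, 0 < d ∧
      ∀ U ∈ 𝓝 (0 : G), ∀ n, ∃ m, Tb (nm d (S m)) (Sm U (nm a (S n))) := by
    refine ⟨a, ha, fun U hU n => ⟨n, {0}, Set.finite_singleton _, fun x hx => ?_⟩⟩
    exact ⟨0, rfl, 0, mem_of_mem_nhds hU, x, hx, by simp⟩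
  set q := Nat.find hex with hq
  obtain ⟨hq0, hqJ⟩ := Nat.find_spec hex
  rw [← hq] at hq0 hqJ
  have hlt : ∀ r, 0 < r → r < q → ∃ U ∈ 𝓝 (0 : G), ∃ n, ∀ m,
      ¬ Tb (nm r (S m)) (Sm U (nm a (S n))) := by
    intro r hr hrq
    have h := Nat.find_min hex hrq
    push Not at h
    obtain ⟨U, hU, n, h⟩ := h hr
    exact ⟨U, hU, n, h⟩
  have hlt' : ∀ r, ∃ U ∈ 𝓝 (0 : G), ∃ n, 0 < r → r < q → ∀ m,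
      ¬ Tb (nm r (S m)) (Sm U (nm a (S n))) := by
    intro r
    by_cases hr : 0 < r ∧ r < q
    · obtain ⟨U, hU, n, h⟩ := hlt r hr.1 hr.2
      exact ⟨U, hU, n, fun _ _ => h⟩
    · refine ⟨Set.univ, univ_mem, 0, fun h1 h2 => absurd ⟨h1, h2⟩ hr⟩
  choose U hU N hN using hlt'
  have hUU : (⋂ r ∈ Finset.range q, U r) ∈ 𝓝 (0 : G) :=
    (Filter.biInter_finset_mem _).2 fun r _ => hU r
  obtain ⟨V, hV, hV4⟩ := exists_nhds_zero_quarter hUU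
  set n := (Finset.range q).sup N with hn
  have hW : V ∩ (-V) ∈ 𝓝 (0 : G) := inter_mem hV (neg_mem_nhds_zero G hV)
  have hz : (0 : G) ∈ nm a (S (n + 2)) := ⟨0, hS.zero _, smul_zero _⟩
  refine ⟨q, hq0, hqJ, Sm (V ∩ (-V)) (nm a (S (n + 2))), ?_, ?_, ?_, ?_⟩
  · refine mem_of_superset hW fun x hx => ⟨x, hx, 0, hz, add_zero x⟩
  · rintro x ⟨v, ⟨hv, hv'⟩, y, ⟨s, hs, rfl⟩, rfl⟩
    refine ⟨-v, ⟨hv', by simpa using hv⟩, a • (-s), ⟨-s, hS.neg _ _ hs, rfl⟩, ?_⟩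
    rw [smul_neg, neg_add]
  · intro r hr hrq m h
    refine hN r hr hrq m (h.mono subset_rfl ?_)
    rintro x ⟨y1, ⟨z1, ⟨v1, hv1, _, ⟨s1, hs1, rfl⟩, rfl⟩, z2, ⟨v2, hv2, _, ⟨s2, hs2, rfl⟩, rfl⟩, rfl⟩,
      y2, ⟨z3, ⟨v3, hv3, _, ⟨s3, hs3, rfl⟩, rfl⟩, z4, ⟨v4, hv4, _, ⟨s4, hs4, rfl⟩, rfl⟩, rfl⟩, rfl⟩
    have h1 : v1 + v2 + v3 + v4 ∈ ⋂ r ∈ Finset.range q, U r := hV4 hv1.1 hv2.1 hv3.1 hv4.1
    have h2 : v1 + v2 + v3 + v4 ∈ U r := Set.mem_iInter₂.1 h1 r (Finset.mem_range.2 hrq)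
    have h3 : (s1 + s2) + (s3 + s4) ∈ S n :=
      hS.add _ _ (hS.add _ _ hs1 _ hs2) _ (hS.add _ _ hs3 _ hs4)
    have h4 : N r ≤ n := Finset.le_sup (f := N) (Finset.mem_range.2 hrq)
    refine ⟨v1 + v2 + v3 + v4, h2, a • ((s1 + s2) + (s3 + s4)), ⟨_, hS.anti h4 h3, rfl⟩, ?_⟩
    simp only [smul_add]
    abel
  · obtain ⟨m, Φ, hΦ, h⟩ := hqJ _ hW (n + 2)
    exact ⟨m, Φ, hΦ, fun s hs => h _ ⟨s, hs, rfl⟩⟩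

end LocMin
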