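import Mathlib
import Pool.Agent.Lib.MP_27feec_al_LM.Bx

/-!
# Divisibility of the coefficients
-/

namespace LocMin

open Topology Filter

variable {G : Type*} [AddCommGroup G]

theorem sepF {S : ℕ → Set G} (hS : IsStr S) {y : ℕ → G} (hy : ∀ m, y m ∈ S (m * m + m + 1))
    {k q m₀ : ℕ} (hq : 0 < q) {Q Φ : Set G} (hQ : ∀ x ∈ Q, -x ∈ Q)
    (hΦ : ∀ s ∈ S m₀, ∃ φ ∈ Φ, q • s - φ ∈ Q)
    (hgen : ∀ m, k ≤ m → ∀ r, 0 < r → r < q → ∀ κ ∈ LBox m, ∀ φ ∈ Φ,
      ev y κ + r • y m + φ ∉ Sm Q Q)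
    {κ : ℕ →₀ ℤ} (hκ : κ ∈ Box 0) (hk : ∀ i < k, κ i = 0) (hm₀ : ∀ i < m₀, κ i = 0)
    (hQκ : ev y κ ∈ Q) : ∀ i, (q : ℤ) ∣ κ i := by
  classical
  by_contra hcon
  push Not at hcon
  obtain ⟨i₀, hi₀⟩ := hcon
  have hne : (κ.support.filter (fun i => ¬ (q : ℤ) ∣ κ i)).Nonempty := by
    refine ⟨i₀, ?_⟩
    rw [Finset.mem_filter, Finsupp.mem_support_iff]
    refine ⟨fun h => hi₀ ?_, hi₀⟩
    rw [h]
    exact dvd_zero _
  set m := (κ.support.filter (fun i => ¬ (q : ℤ) ∣ κ i)).max' hne with hm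
  have hmem : m ∈ κ.support.filter (fun i => ¬ (q : ℤ) ∣ κ i) := Finset.max'_mem _ hne
  rw [Finset.mem_filter, Finsupp.mem_support_iff] at hmem
  obtain ⟨hm0, hmq⟩ := hmem
  have hgt : ∀ i, m < i → (q : ℤ) ∣ κ i := by
    intro i hi
    by_contra h
    have h1 : i ∈ κ.support.filter (fun i => ¬ (q : ℤ) ∣ κ i) := by
      rw [Finset.mem_filter, Finsupp.mem_support_iff]
      refine ⟨fun h' => h ?_, h⟩
      rw [h']
      exact dvd_zero _
    have h2 := Finset.le_max' _ i h1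
    rw [← hm] at h2
    omega
  have hkm : k ≤ m := by
    by_contra h
    exact hm0 (hk m (by omega))
  have hm₀m : m₀ ≤ m := by
    by_contra h
    exact hm0 (hm₀ m (by omega))
  have hq' : (0 : ℤ) < q := by exact_mod_cast hq
  -- the remainder
  set r : ℕ := (κ m % q).toNat with hr
  have hr1 : (r : ℤ) = κ m % q := by
    rw [hr, Int.toNat_of_nonneg (Int.emod_nonneg _ hq'.ne')]
  have hr0 : 0 < r := by
    have h1 : κ m % q ≠ 0 := fun h => hmq (Int.dvd_of_emod_eq_zero h)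
    have h2 := Int.emod_nonneg (κ m) hq'.ne'
    omega
  have hrq : r < q := by
    have h1 := Int.emod_lt_of_pos (κ m) hq'
    omega
  -- the two parts
  set κ₁ : ℕ →₀ ℤ := κ.filter (fun i => i < m) with hκ₁
  set κ₂ : ℕ →₀ ℤ := (κ.filter (fun i => m ≤ i)).mapRange (fun a => a / (q : ℤ)) (by simp)
    with hκ₂
  have h2v : ∀ i, κ₂ i = if m ≤ i then κ i / q else 0 := by
    intro i
    rw [hκ₂, Finsupp.mapRange_apply, Finsupp.filter_apply]
    split_ifs
    · rfl
    · simp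
  have h1v : ∀ i, κ₁ i = if i < m then κ i else 0 := by
    intro i
    rw [hκ₁, Finsupp.filter_apply]
  have hbox : ∀ i, |κ i| ≤ 2 ^ (i * i) := by
    intro i
    have h := hκ.2 i
    rwa [Nat.sub_zero] at h
  have hdec : κ = κ₁ + Finsupp.single m (r : ℤ) + q • κ₂ := by
    ext i
    rw [Finsupp.add_apply, Finsupp.add_apply, Finsupp.smul_apply, h1v, h2v, nsmul_eq_mul,
      Finsupp.single_apply]
    rcases lt_trichotomy i m with h | h | h
    · rw [if_pos h, if_neg (by omega), if_neg (by omega)]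
      simp
    · subst h
      rw [if_neg (lt_irrefl _), if_pos rfl, if_pos le_rfl, hr1]
      have := Int.emod_add_mul_ediv (κ m) q
      rw [zero_add]
      linarith
    · rw [if_neg (by omega), if_neg (by omega), if_pos h.le]
      have := Int.mul_ediv_cancel' (hgt i h)
      simp only [zero_add] at this ⊢
      exact this.symm
  have hL : κ₁ ∈ LBox m := by
    refine ⟨fun i hi => ?_, fun i => ?_⟩
    · rw [h1v, if_neg (by omega)]
    · rw [h1v]
      split_ifs
      · exact hbox i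
      · simp
  have hs : ev y κ₂ ∈ S m₀ := by
    refine ev_mem hS hy (fun i => ?_) (fun i hi => ?_)
    · rw [h2v]
      split_ifs
      · exact (Int.abs_ediv_le_abs _ _).trans (hbox i)
      · simp
    · rw [h2v, if_neg (by omega)]
  obtain ⟨φ, hφ, hp⟩ := hΦ _ hs
  refine hgen m hkm r hr0 hrq κ₁ hL φ hφ ⟨ev y κ, hQκ, -(q • ev y κ₂ - φ), hQ _ hp, ?_⟩
  have hev : ev y κ = ev y κ₁ + r • y m + q • ev y κ₂ := by
    conv_lhs => rw [hdec]
    rw [map_add, map_add, map_nsmul, ev_single, natCast_zsmul]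
  rw [hev]
  abel

end LocMin
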