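import Mathlib
import Pool.Agent.Lib.MP_27feec_al_LM.Defs

/-!
# The solid string
-/

namespace LocMin

open Topology Filter

variable {G : Type*} [AddCommGroup G]

private theorem sol_zero_mem (𝒰 : Ultrafilter ℕ) (y : ℕ → G) (q : ℕ) {R : ℕ → Set G}
    (hR : IsStr R) (n : ℕ) : (0 : ℕ →₀ ℤ) ∈ Sol 𝒰 y q R n := by
  intro c hc
  have : c = 0 := by
    ext i
    have := hc i
    simpa using this
  subst this
  refine Eventually.of_forall fun r => ?_
  rw [map_zero]
  exact hR.zero n

private theorem sol_split (a b c : ℤ) (h : |c| ≤ |a + b|) :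
    |max (-|a|) (min |a| c)| ≤ |a| ∧ |c - max (-|a|) (min |a| c)| ≤ |b| := by
  have h1 : |c| ≤ |a| + |b| := h.trans (abs_add_le a b)
  have ha : 0 ≤ |a| := abs_nonneg a
  have hb : 0 ≤ |b| := abs_nonneg b
  obtain ⟨h2, h3⟩ := abs_le.mp h1
  constructor
  · rw [abs_le]
    refine ⟨le_max_left _ _, max_le (by linarith) (min_le_left _ _)⟩
  · rw [abs_le]
    rcases le_total |a| c with h4 | h4
    · rw [min_eq_left h4, max_eq_right (by linarith)]
      constructor <;> linarith
    · rw [min_eq_right h4]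
      rcases le_total (-|a|) c with h5 | h5
      · rw [max_eq_right h5]
        constructor <;> linarith
      · rw [max_eq_left h5]
        constructor <;> linarith

theorem sol_str (𝒰 : Ultrafilter ℕ) (y : ℕ → G) (q : ℕ) {R : ℕ → Set G} (hR : IsStr R) :
    IsStr (Sol 𝒰 y q R) := by
  refine ⟨sol_zero_mem 𝒰 y q hR, ?_, ?_⟩
  · intro n κ hκ c hc
    refine hκ c fun i => ?_
    have := hc i
    rwa [Finsupp.neg_apply, abs_neg] at this
  · intro n κ hκ κ' hκ' c hc
    set d : ℕ →₀ ℤ := Finsupp.onFinset c.support (fun i => max (-|κ i|) (min |κ i| (c i)))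
      (by
        intro i hi
        rw [Finsupp.mem_support_iff]
        intro h0
        apply hi
        rw [h0, min_eq_right (abs_nonneg _), max_eq_right (by simp)]) with hd
    have hdi : ∀ i, d i = max (-|κ i|) (min |κ i| (c i)) := fun i => rfl
    have hs : ∀ i, |d i| ≤ |κ i| ∧ |c i - d i| ≤ |κ' i| := by
      intro i
      rw [hdi]
      apply sol_split
      have := hc i
      rwa [Finsupp.add_apply] at this
    have h1 := hκ d fun i => (hs i).1
    have h2 := hκ' (c - d) fun i => by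
      rw [Finsupp.sub_apply]
      exact (hs i).2
    filter_upwards [h1, h2] with r hr1 hr2
    have : c = d + (c - d) := by abel
    rw [this, map_add]
    exact hR.add n _ hr1 _ hr2

private theorem sol_smul_mem {R : ℕ → Set G} (hR : IsStr R) {n : ℕ} {x : G} (hx : x ∈ R n)
    {a : ℤ} (ha : |a| ≤ 1) : a • x ∈ R n := by
  obtain ⟨h1, h2⟩ := abs_le.mp ha
  have : a = -1 ∨ a = 0 ∨ a = 1 := by omega
  rcases this with h | h | h
  · rw [h, neg_one_zsmul]
    exact hR.neg n x hx
  · rw [h, zero_zsmul]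
    exact hR.zero n
  · rw [h, one_zsmul]
    exact hx

theorem sol_diff (𝒰 : Ultrafilter ℕ) (y : ℕ → G) (q : ℕ) {R : ℕ → Set G} (hR : IsStr R)
    (h : ∀ l, ∃ A ∈ 𝒰, ∀ i ∈ A, ∀ j ∈ A, q • (y i - y j) ∈ R l) :
    ∀ l, ∃ A ∈ 𝒰, ∀ i ∈ A, ∀ j ∈ A,
      Finsupp.single i (1 : ℤ) - Finsupp.single j (1 : ℤ) ∈ Sol 𝒰 y q R l := by
  intro l
  obtain ⟨A, hA, hAd⟩ := h (l + 1)
  refine ⟨A, hA, fun i hi j hj => ?_⟩
  by_cases hij : i = j
  · rw [hij, sub_self]
    exact sol_zero_mem 𝒰 y q hR l
  · intro c hc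
    have hci : |c i| ≤ 1 := by
      have := hc i
      rwa [Finsupp.sub_apply, Finsupp.single_eq_same, Finsupp.single_eq_of_ne (by tauto),
        sub_zero, abs_one] at this
    have hcj : |c j| ≤ 1 := by
      have := hc j
      rwa [Finsupp.sub_apply, Finsupp.single_eq_same, Finsupp.single_eq_of_ne (by tauto),
        zero_sub, abs_neg, abs_one] at this
    have hc0 : ∀ m, m ≠ i → m ≠ j → c m = 0 := by
      intro m hmi hmj
      have := hc m
      rw [Finsupp.sub_apply, Finsupp.single_eq_of_ne (by tauto),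
        Finsupp.single_eq_of_ne (by tauto), sub_zero, abs_zero] at this
      exact abs_nonpos_iff.mp this
    have hce : c = Finsupp.single i (c i) + Finsupp.single j (c j) := by
      ext m
      rw [Finsupp.add_apply]
      by_cases hmi : m = i
      · subst hmi
        rw [Finsupp.single_eq_same, Finsupp.single_eq_of_ne (by tauto), add_zero]
      · by_cases hmj : m = j
        · subst hmj
          rw [Finsupp.single_eq_same, Finsupp.single_eq_of_ne (by tauto), zero_add]
        · rw [Finsupp.single_eq_of_ne (by tauto), Finsupp.single_eq_of_ne (by tauto), add_zero]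
          exact hc0 m hmi hmj
    filter_upwards [hA] with r hr
    rw [hce, map_add, ev_single, ev_single]
    exact hR.add l _ (sol_smul_mem hR (hAd i hi r hr) hci) _
      (sol_smul_mem hR (hAd j hj r hr) hcj)

private theorem sol_ev_smul (y : ℕ → G) (q : ℕ) (c : ℕ →₀ ℤ) :
    ev (fun i => q • y i) c = ev y ((q : ℤ) • c) := by
  induction c using Finsupp.induction_linear with
  | zero => simp
  | add f g hf hg => rw [map_add, hf, hg, smul_add, map_add]
  | single a b =>
    rw [ev_single, Finsupp.smul_single, ev_single, smul_eq_mul, mul_comm, mul_smul,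
      natCast_zsmul]

private theorem sol_ev_sub (y : ℕ → G) (x : G) (κ : ℕ →₀ ℤ) :
    ev (fun i => y i - x) κ = ev y κ - (κ.sum fun _ a => a) • x := by
  induction κ using Finsupp.induction_linear with
  | zero => simp
  | add f g hf hg =>
    rw [map_add, hf, hg, map_add, Finsupp.sum_add_index' (fun _ => rfl) (fun _ _ _ => rfl),
      add_smul]
    abel
  | single a b =>
    rw [ev_single, ev_single, Finsupp.sum_single_index rfl, smul_sub]

theorem sol_eval (𝒰 : Ultrafilter ℕ) (y : ℕ → G) {q : ℕ} (hq : 0 < q) {R : ℕ → Set G} {l : ℕ}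
    {κ : ℕ →₀ ℤ} (hκ : κ ∈ Sol 𝒰 y q R l) (hdvd : ∀ i, (q : ℤ) ∣ κ i)
    (hsum : (κ.sum fun _ a => a) = 0) : ev y κ ∈ R l := by
  set c : ℕ →₀ ℤ := κ.mapRange (fun a => a / (q : ℤ)) (Int.zero_ediv _) with hc
  have hci : ∀ i, (q : ℤ) * c i = κ i := by
    intro i
    rw [hc, Finsupp.mapRange_apply]
    exact Int.mul_ediv_cancel' (hdvd i)
  have hκc : (q : ℤ) • c = κ := by
    ext i
    rw [Finsupp.smul_apply, smul_eq_mul, hci]
  have hle : ∀ i, |c i| ≤ |κ i| := by
    intro i
    rw [← hci i, abs_mul]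
    have h1 : (1 : ℤ) ≤ |(q : ℤ)| := by
      rw [abs_of_nonneg (by positivity)]
      exact_mod_cast hq
    nlinarith [abs_nonneg (c i)]
  obtain ⟨r, hr⟩ := (hκ c hle).exists
  have h2 : ev (fun i => q • (y i - y r)) c = ev y κ := by
    rw [sol_ev_smul (fun i => y i - y r) q c, hκc, sol_ev_sub, hsum, zero_smul, sub_zero]
  rwa [h2] at hr

end LocMin
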