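import Mathlib
import Pool.Agent.Lib.MP_27feec_al_LM.Fam
import Pool.Agent.Lib.MP_27feec_al_LM.Bx
import Pool.Agent.Lib.MP_27feec_al_LM.Sol

/-!
# The topology of the differences
-/

namespace LocMin

open Topology Filter

variable {G : Type*} [AddCommGroup G] [TopologicalSpace G] [IsTopologicalAddGroup G]

/-- the limits of the sets of differences -/
theorem diff_limit {S : ℕ → Set G} (hS : IsStr S) {y : ℕ → G}
    (hy : ∀ m, y m ∈ S (m * m + m + 1)) {a q : ℕ}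
    (hq : ∀ U ∈ 𝓝 (0 : G), ∀ n, ∃ m, Tb (nm q (S m)) (Sm U (nm a (S n))))
    (𝒰 : Ultrafilter ℕ) (h𝒰 : ∀ N, {i | N ≤ i} ∈ 𝒰) {U : Set G} (hU : U ∈ 𝓝 (0 : G)) (n : ℕ) :
    ∃ A ∈ 𝒰, ∀ i ∈ A, ∀ j ∈ A, q • (y i - y j) ∈ Sm U (nm a (S n)) := by
  obtain ⟨U', hU', hsub⟩ := exists_nhds_half_neg hU
  obtain ⟨m, Φ, hΦ, hcov⟩ := hq U' hU' (n + 1)
  have hmem : (⋃ φ ∈ Φ, {i : ℕ | q • y i - φ ∈ Sm U' (nm a (S (n + 1)))}) ∈ 𝒰 := by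
    refine Filter.mem_of_superset (h𝒰 m) ?_
    intro i hi
    have hi' : m ≤ i := hi
    have hyi : y i ∈ S m := hS.anti (by nlinarith : m ≤ i * i + i + 1) (hy i)
    obtain ⟨φ, hφ, h⟩ := hcov (q • y i) ⟨y i, hyi, rfl⟩
    exact Set.mem_biUnion hφ h
  rw [Ultrafilter.finite_biUnion_mem_iff hΦ] at hmem
  obtain ⟨φ, _, hA⟩ := hmem
  refine ⟨_, hA, ?_⟩
  rintro i ⟨u₁, hu₁, _, ⟨s₁, hs₁, rfl⟩, h₁⟩ j ⟨u₂, hu₂, _, ⟨s₂, hs₂, rfl⟩, h₂⟩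
  refine ⟨u₁ - u₂, hsub u₁ hu₁ u₂ hu₂, a • (s₁ + -s₂),
    ⟨s₁ + -s₂, hS.add n _ hs₁ _ (hS.neg _ _ hs₂), rfl⟩, ?_⟩
  have e : q • (y i - y j) = (q • y i - φ) - (q • y j - φ) := by
    rw [smul_sub]; abel
  rw [e, ← h₁, ← h₂, smul_add, smul_neg]
  abel

namespace ZCoreAux

/-- a string of neighbourhoods of zero inside a given one -/
theorem exists_nhds_str {O : Set G} (hO : O ∈ 𝓝 (0 : G)) :
    ∃ U : ℕ → Set G, (∀ l, U l ∈ 𝓝 (0 : G)) ∧ IsStr U ∧ U 0 ⊆ O := by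
  have step : ∀ W : Set G, ∃ W' : Set G, W ∈ 𝓝 (0 : G) → (W' ∈ 𝓝 (0 : G) ∧
      (∀ x ∈ W', -x ∈ W') ∧ ∀ x ∈ W', ∀ z ∈ W', x + z ∈ W) := by
    intro W
    by_cases hW : W ∈ 𝓝 (0 : G)
    · obtain ⟨V, hV, hsub⟩ := exists_nhds_half_neg hW
      refine ⟨V ∩ -V, fun _ => ⟨Filter.inter_mem hV (neg_mem_nhds_zero G hV), ?_, ?_⟩⟩
      · rintro x ⟨h1, h2⟩
        exact ⟨h2, by simpa using h1⟩
      · rintro x ⟨h1, _⟩ z ⟨_, h4⟩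
        have := hsub x h1 (-z) h4
        rwa [sub_neg_eq_add] at this
    · exact ⟨∅, fun h => absurd h hW⟩
  choose g hg using step
  let U : ℕ → Set G := fun l => Nat.rec (g O) (fun _ W => g W) l
  have hU0 : U 0 = g O := rfl
  have hUs : ∀ l, U (l + 1) = g (U l) := fun l => rfl
  have hnh : ∀ l, U l ∈ 𝓝 (0 : G) := by
    intro l
    induction l with
    | zero => exact (hg O hO).1
    | succ l ih => rw [hUs]; exact (hg _ ih).1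
  refine ⟨U, hnh, ⟨fun n => mem_of_mem_nhds (hnh n), ?_, ?_⟩, ?_⟩
  · intro n
    cases n with
    | zero => exact (hg O hO).2.1
    | succ n => rw [hUs]; exact (hg _ (hnh n)).2.1
  · intro n
    have h := (hg _ (hnh n)).2.2
    rw [← hUs] at h
    exact h
  · intro x hx
    have h := (hg O hO).2.2 x hx 0 (mem_of_mem_nhds (hnh 0))
    rwa [add_zero] at h

/-- the strings of multipliers which contain the differences -/
structure PM (𝒰 : Ultrafilter ℕ) (M : ℕ → Set (ℕ →₀ ℤ)) : Prop where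
  str : IsStr M
  box : M 0 ⊆ Box 0
  diff : ∀ l, ∃ A ∈ 𝒰, ∀ i ∈ A, ∀ j ∈ A,
    Finsupp.single i (1 : ℤ) - Finsupp.single j (1 : ℤ) ∈ M l

theorem isStr_inter {H : Type*} [AddCommGroup H] {M M' : ℕ → Set H} (h : IsStr M)
    (h' : IsStr M') : IsStr (fun l => M l ∩ M' l) :=
  ⟨fun n => ⟨h.zero n, h'.zero n⟩, fun n x hx => ⟨h.neg n x hx.1, h'.neg n x hx.2⟩,
    fun n x hx z hz => ⟨h.add n x hx.1 z hz.1, h'.add n x hx.2 z hz.2⟩⟩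

theorem isStr_shift {H : Type*} [AddCommGroup H] {M : ℕ → Set H} (h : IsStr M) :
    IsStr (fun l => M (l + 1)) :=
  ⟨fun n => h.zero _, fun n x hx => h.neg _ x hx, fun n x hx z hz => h.add _ x hx z hz⟩

theorem isStr_sub {H : Type*} [AddCommGroup H] (N : AddSubgroup H) :
    IsStr (fun _ => (N : Set H)) :=
  ⟨fun _ => N.zero_mem, fun _ _ hx => N.neg_mem hx, fun _ _ hx _ hz => N.add_mem hx hz⟩

theorem PM.inter {𝒰 : Ultrafilter ℕ} {M M' : ℕ → Set (ℕ →₀ ℤ)} (h : PM 𝒰 M) (h' : IsStr M')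
    (hd : ∀ l, ∃ A ∈ 𝒰, ∀ i ∈ A, ∀ j ∈ A,
      Finsupp.single i (1 : ℤ) - Finsupp.single j (1 : ℤ) ∈ M' l) :
    PM 𝒰 (fun l => M l ∩ M' l) := by
  refine ⟨isStr_inter h.str h', fun κ hκ => h.box hκ.1, fun l => ?_⟩
  obtain ⟨A, hA, h1⟩ := h.diff l
  obtain ⟨A', hA', h2⟩ := hd l
  exact ⟨A ∩ A', Filter.inter_mem hA hA', fun i hi j hj =>
    ⟨h1 i hi.1 j hj.1, h2 i hi.2 j hj.2⟩⟩

theorem PM.shift {𝒰 : Ultrafilter ℕ} {M : ℕ → Set (ℕ →₀ ℤ)} (h : PM 𝒰 M) :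
    PM 𝒰 (fun l => M (l + 1)) :=
  ⟨isStr_shift h.str, fun _ hκ => h.box (h.str.succ_subset 0 hκ), fun l => h.diff (l + 1)⟩

/-- the multipliers supported beyond `k` -/
def supp (k : ℕ) : AddSubgroup (ℕ →₀ ℤ) where
  carrier := {κ | ∀ i < k, κ i = 0}
  zero_mem' := fun _ _ => rfl
  add_mem' := by
    intro a b ha hb i hi
    rw [Finsupp.add_apply, ha i hi, hb i hi, add_zero]
  neg_mem' := by
    intro a ha i hi
    rw [Finsupp.neg_apply, ha i hi, neg_zero]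

/-- the sum of the coefficients -/
noncomputable def sg : (ℕ →₀ ℤ) →+ ℤ := Finsupp.liftAddHom fun _ => AddMonoidHom.id ℤ

theorem sg_apply (κ : ℕ →₀ ℤ) : sg κ = κ.sum fun _ a => a := rfl

theorem sg_single (i : ℕ) (a : ℤ) : sg (Finsupp.single i a) = a := by
  rw [sg_apply]
  exact Finsupp.sum_single_index rfl

theorem pm_box {𝒰 : Ultrafilter ℕ} (h𝒰 : ∀ N, {i | N ≤ i} ∈ 𝒰) : PM 𝒰 Box := by
  refine ⟨box_str, fun _ h => h, fun l => ⟨_, h𝒰 (l + 1), ?_⟩⟩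
  intro i hi j hj
  rw [sub_eq_add_neg]
  exact box_str.add l _ (single_mem_box hi) _ (box_str.neg _ _ (single_mem_box hj))

theorem supp_diff {𝒰 : Ultrafilter ℕ} (h𝒰 : ∀ N, {i | N ≤ i} ∈ 𝒰) (k : ℕ) :
    ∃ A ∈ 𝒰, ∀ i ∈ A, ∀ j ∈ A,
      Finsupp.single i (1 : ℤ) - Finsupp.single j (1 : ℤ) ∈ ((supp k : AddSubgroup (ℕ →₀ ℤ)) :
        Set (ℕ →₀ ℤ)) := by
  refine ⟨_, h𝒰 k, ?_⟩
  intro i hi j hj
  refine (supp k).sub_mem ?_ ?_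
  · intro r hr
    have : k ≤ i := hi
    exact Finsupp.single_eq_of_ne (by omega)
  · intro r hr
    have : k ≤ j := hj
    exact Finsupp.single_eq_of_ne (by omega)

end ZCoreAux

open ZCoreAux in
theorem zcore {V : Set G} (hV : Wit V) {S : ℕ → Set G} (hS : IsStr S) (hSV : Small V S)
    (hC : ∀ x ∈ Core S, x = 0) {y : ℕ → G} (hy : ∀ m, y m ∈ S (m * m + m + 1))
    (hsep : ∀ a : ℕ, 0 < a → ∃ q : ℕ, 0 < q ∧
      (∀ U ∈ 𝓝 (0 : G), ∀ n, ∃ m, Tb (nm q (S m)) (Sm U (nm a (S n)))) ∧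
      ∃ Q ∈ 𝓝 (0 : G), ∃ k, ∀ κ ∈ Box 0, (∀ i < k, κ i = 0) → ev y κ ∈ Q →
        ∀ i, (q : ℤ) ∣ κ i) :
    ∀ O ∈ 𝓝 (0 : G), ∃ i j, i < j ∧ y j - y i ∈ O := by
  classical
  set 𝒰 : Ultrafilter ℕ := hyperfilter ℕ with h𝒰def
  have h𝒰 : ∀ N, {i | N ≤ i} ∈ 𝒰 := by
    intro N
    refine mem_hyperfilter_of_finite_compl ?_
    refine (Set.finite_lt_nat N).subset ?_
    intro i hi
    simpa using hi
  obtain ⟨O₀, hO₀, hOV⟩ := hSV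
  have hbox := pm_box h𝒰
  haveI : Nonempty {M : ℕ → Set (ℕ →₀ ℤ) // PM 𝒰 M} := ⟨⟨Box, hbox⟩⟩
  have key := hV.family (ι := {M : ℕ → Set (ℕ →₀ ℤ) // PM 𝒰 M})
    (fun M => ev y '' (M.1 0)) (fun M => ⟨0, M.2.str.zero 0, map_zero _⟩)
    (fun M M' => ⟨⟨_, M.2.inter M'.2.str M'.2.diff⟩, by
      rintro _ ⟨κ, hκ, rfl⟩
      exact ⟨⟨κ, hκ.1, rfl⟩, ⟨κ, hκ.2, rfl⟩⟩⟩)
    (fun M => ⟨⟨_, M.2.shift⟩, by
      rintro _ ⟨κ, hκ, rfl⟩ _ ⟨κ', hκ', rfl⟩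
      exact ⟨κ + κ', M.2.str.add 0 κ hκ κ' hκ', map_add _ _ _⟩⟩)
    (fun M => ⟨M, by
      rintro _ ⟨κ, hκ, rfl⟩
      exact ⟨-κ, M.2.str.neg 0 κ hκ, map_neg _ _⟩⟩)
    (O₀ := O₀) hO₀ (i₀ := ⟨Box, hbox⟩) (by
      rintro x hx _ ⟨κ, hκ, rfl⟩
      refine hOV x hx _ (ev_mem hS hy (N := 0) (fun m => ?_) (fun m hm => absurd hm (by omega)))
      simpa using hκ.2 m) ?_
  · intro O hO
    obtain ⟨M, hM⟩ := key O hO
    obtain ⟨A, hA, hAd⟩ := M.2.diff 0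
    obtain ⟨i, hi⟩ := 𝒰.nonempty_of_mem hA
    obtain ⟨j, hj, hij⟩ := 𝒰.nonempty_of_mem (Filter.inter_mem hA (h𝒰 (i + 1)))
    refine ⟨i, j, hij, ?_⟩
    have h1 : ev y (Finsupp.single j (1 : ℤ) - Finsupp.single i (1 : ℤ)) = y j - y i := by
      rw [map_sub, ev_single, ev_single, one_smul, one_smul]
    rw [← h1]
    exact hM ⟨_, hAd j hj i hi, rfl⟩
  · intro x hx
    apply hC
    intro a ha n O hO
    obtain ⟨q, hq, hTB, Q, hQ, k, hdiv⟩ := hsep a ha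
    obtain ⟨U, hUn, hUs, hUO⟩ := exists_nhds_str hO
    set R : ℕ → Set G := fun l => Sm (U l) (nm a (S (n + l))) with hR
    have hRs : IsStr R := by
      refine ⟨fun l => ⟨0, hUs.zero l, 0, ⟨0, hS.zero _, smul_zero _⟩, add_zero _⟩, ?_, ?_⟩
      · rintro l _ ⟨u, hu, _, ⟨s, hs, rfl⟩, rfl⟩
        refine ⟨-u, hUs.neg l u hu, a • (-s), ⟨-s, hS.neg _ _ hs, rfl⟩, ?_⟩
        rw [smul_neg]; abel
      · rintro l _ ⟨u, hu, _, ⟨s, hs, rfl⟩, rfl⟩ _ ⟨u', hu', _, ⟨s', hs', rfl⟩, rfl⟩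
        refine ⟨u + u', hUs.add l u hu u' hu', a • (s + s'),
          ⟨s + s', hS.add (n + l) s hs s' hs', rfl⟩, ?_⟩
        rw [smul_add]; abel
    have hdl : ∀ l, ∃ A ∈ 𝒰, ∀ i ∈ A, ∀ j ∈ A, q • (y i - y j) ∈ R l := fun l =>
      diff_limit hS hy hTB 𝒰 h𝒰 (hUn l) (n + l)
    -- the string of multipliers
    have hM1 : PM 𝒰 (fun l => Box l ∩ ((supp k : AddSubgroup (ℕ →₀ ℤ)) : Set (ℕ →₀ ℤ))) :=
      hbox.inter (isStr_sub _) (fun _ => supp_diff h𝒰 k)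
    have hM2 : PM 𝒰 (fun l => (Box l ∩ ((supp k : AddSubgroup (ℕ →₀ ℤ)) : Set (ℕ →₀ ℤ))) ∩
        (sg.ker : Set (ℕ →₀ ℤ))) := by
      refine hM1.inter (isStr_sub _) (fun _ => ⟨_, h𝒰 0, ?_⟩)
      intro i _ j _
      change sg (Finsupp.single i (1 : ℤ) - Finsupp.single j (1 : ℤ)) = 0
      rw [map_sub, sg_single, sg_single, sub_self]
    have hM3 := hM2.inter (sol_str 𝒰 y q hRs) (sol_diff 𝒰 y q hRs hdl)
    set M : ℕ → Set (ℕ →₀ ℤ) := fun l =>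
      ((Box l ∩ ((supp k : AddSubgroup (ℕ →₀ ℤ)) : Set (ℕ →₀ ℤ))) ∩
        (sg.ker : Set (ℕ →₀ ℤ))) ∩ Sol 𝒰 y q R l with hMdef
    obtain ⟨V', hV', hsub⟩ := exists_nhds_half_neg hQ
    have hO' : V' ∩ U 1 ∈ 𝓝 (0 : G) := Filter.inter_mem hV' (hUn 1)
    obtain ⟨_, ⟨κ, hκ, rfl⟩, ho⟩ := hx _ hO' ⟨_, hM3.shift⟩
    have hκ' : κ ∈ M 1 := hκ
    set N' : ℕ := κ.support.sup id + 1 with hN'
    have hM4 := (hM3.inter (isStr_sub (supp N')) (fun _ => supp_diff h𝒰 N')).shift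
    obtain ⟨_, ⟨κ', hκ1, rfl⟩, ho'⟩ := hx _ hO' ⟨_, hM4⟩
    have hκ1M : κ' ∈ M 1 := hκ1.1
    have hκ1s : ∀ i < N', κ' i = 0 := hκ1.2
    have hdM : κ - κ' ∈ M 0 := by
      rw [sub_eq_add_neg]
      exact hM3.str.add 0 κ hκ' _ (hM3.str.neg 1 κ' hκ1M)
    have hevQ : ev y (κ - κ') ∈ Q := by
      have h1 : ev y (κ - κ') = (x - ev y κ') - (x - ev y κ) := by
        rw [map_sub]; abel
      rw [h1]
      exact hsub _ ho'.1 _ ho.1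
    have hdvd : ∀ i, (q : ℤ) ∣ κ i := by
      intro i
      have h1 := hdiv (κ - κ') (hM3.box hdM) hdM.1.1.2 hevQ i
      rw [Finsupp.sub_apply] at h1
      by_cases hi : i < N'
      · rwa [hκ1s i hi, sub_zero] at h1
      · have h2 : κ i = 0 := by
          by_contra hne
          have h3 : i ∈ κ.support := Finsupp.mem_support_iff.2 hne
          have h4 : i ≤ κ.support.sup id := Finset.le_sup (f := id) h3
          omega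
        rw [h2]
        exact dvd_zero _
    have hRe : ev y κ ∈ R 1 := sol_eval 𝒰 y hq hκ'.2 hdvd hκ'.1.2
    obtain ⟨u, hu, _, ⟨s, hs, rfl⟩, hus⟩ := hRe
    refine ⟨s, hS.succ_subset n hs, ?_⟩
    have h5 : x - a • s = (x - ev y κ) + u := by
      rw [← hus]; abel
    rw [h5]
    exact hUO (hUs.add 0 _ ho.2 _ hu)

end LocMin
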