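import Mathlib
import Pool.Agent.Lib.MP_27feec_al_LM.ZCore
import Pool.Agent.Lib.MP_27feec_al_LM.Neu
import Pool.Agent.Lib.MP_27feec_al_LM.QQ
import Pool.Agent.Lib.MP_27feec_al_LM.Sep

/-!
# Small strings with trivial core are totally bounded
-/

namespace LocMin

open Topology Filter

variable {G : Type*} [AddCommGroup G] [TopologicalSpace G] [IsTopologicalAddGroup G]

theorem lemmaZ {V : Set G} (hV : Wit V) {S : ℕ → Set G} (hS : IsStr S) (hSV : Small V S)
    (hC : ∀ x ∈ Core S, x = 0) : ∀ O ∈ 𝓝 (0 : G), ∃ n, Tb (S n) O := by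
  classical
  intro O₁ hO₁
  by_contra hcon
  push Not at hcon
  obtain ⟨O', hO', hsub⟩ := exists_nhds_half_neg hO₁
  -- the data of `exists_q`
  have hq' : ∀ a : ℕ, ∃ q : ℕ, ∃ Q : Set G, ∃ m : ℕ, ∃ Φ : Set G, 0 < a →
      (0 < q ∧ (∀ U ∈ 𝓝 (0 : G), ∀ n, ∃ m, Tb (nm q (S m)) (Sm U (nm a (S n)))) ∧
        Q ∈ 𝓝 (0 : G) ∧ (∀ x ∈ Q, -x ∈ Q) ∧
        (∀ r, 0 < r → r < q → ∀ m, ¬ Tb (nm r (S m)) (Sm (Sm Q Q) (Sm Q Q))) ∧
        Φ.Finite ∧ ∀ s ∈ S m, ∃ φ ∈ Φ, q • s - φ ∈ Q) := by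
    intro a
    by_cases ha : 0 < a
    · obtain ⟨q, h1, h2, Q, h3, h4, h5, m, Φ, h6, h7⟩ := exists_q hS a ha
      exact ⟨q, Q, m, Φ, fun _ => ⟨h1, h2, h3, h4, h5, h6, h7⟩⟩
    · exact ⟨0, ∅, 0, ∅, fun h => absurd h ha⟩
  choose q Q m₀ Φ hdata using hq'
  -- the sequence
  have hinh : Inhabited G := ⟨0⟩
  obtain ⟨y, hy⟩ := exists_dep_seq (α := G)
    (fun m p a => a ∈ S (m * m + m + 1) ∧ (∀ i < m, a - p i ∉ O') ∧
      ∀ b, 0 < b → b ≤ m → ∀ r, 0 < r → r < q b → ∀ κ ∈ LBox m, ∀ φ ∈ Φ b,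
        ev p κ + r • a + φ ∉ Sm (Q b) (Q b))
    (by
      intro m p
      set R : Finset (Option (ℕ × ℕ)) := Finset.insertNone
        ((Finset.Icc 1 m).biUnion fun b => (Finset.Ioo 0 (q b)).image fun r => (b, r)) with hR
      have hmem : ∀ b r, some (b, r) ∈ R ↔ (1 ≤ b ∧ b ≤ m) ∧ 0 < r ∧ r < q b := by
        intro b r
        rw [hR, Finset.some_mem_insertNone, Finset.mem_biUnion]
        constructor
        · rintro ⟨b', hb', h⟩
          obtain ⟨r', hr', h⟩ := Finset.mem_image.1 h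
          obtain ⟨rfl, rfl⟩ := Prod.mk.inj h
          exact ⟨Finset.mem_Icc.1 hb', Finset.mem_Ioo.1 hr'⟩
        · rintro ⟨hb, hr⟩
          exact ⟨b, Finset.mem_Icc.2 hb, Finset.mem_image.2 ⟨r, Finset.mem_Ioo.2 hr, rfl⟩⟩
      obtain ⟨a, ha, haR⟩ := neumann hS R
        (fun o => match o with | none => 1 | some x => x.2)
        (fun o => match o with | none => O' | some x => Sm (Q x.1) (Q x.1))
        (by
          rintro (_ | ⟨b, r⟩) hi n hT
          · refine hcon n (hT.mono ?_ ?_)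
            · intro x hx
              exact ⟨x, hx, one_smul ℕ x⟩
            · rintro x ⟨u, hu, v, hv, rfl⟩
              exact hsub u hu v hv
          · rw [hmem] at hi
            obtain ⟨-, -, -, h4, h5, -, -⟩ := hdata b (by omega)
            refine h5 r hi.2.1 hi.2.2 n (hT.mono subset_rfl ?_)
            rintro x ⟨u, hu, v, ⟨c, hc, d, hd, rfl⟩, rfl⟩
            exact ⟨u, hu, -c + -d, ⟨-c, h4 c hc, -d, h4 d hd, rfl⟩, by abel⟩)
        (fun o => match o with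
          | none => p '' {i | i < m}
          | some x => Set.image2 (fun κ φ => -(ev p κ) - φ) (LBox m) (Φ x.1))
        (by
          rintro (_ | ⟨b, r⟩) hi
          · exact (Set.finite_lt_nat m).image p
          · rw [hmem] at hi
            obtain ⟨-, -, -, -, -, h6, -⟩ := hdata b (by omega)
            exact (lbox_finite m).image2 _ h6)
        (m * m + m + 1)
      refine ⟨a, ha, ?_, ?_⟩
      · intro i hi h
        refine haR none (by rw [hR]; exact Finset.none_mem_insertNone) (p i) ⟨i, hi, rfl⟩ ?_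
        show 1 • a - p i ∈ O'
        rw [one_smul]
        exact h
      · intro b hb hbm r hr hrq κ hκ φ hφ h
        refine haR (some (b, r)) ((hmem b r).2 ⟨⟨hb, hbm⟩, hr, hrq⟩) (-(ev p κ) - φ)
          ⟨κ, hκ, φ, hφ, rfl⟩ ?_
        show r • a - (-(ev p κ) - φ) ∈ Sm (Q b) (Q b)
        have e : r • a - (-(ev p κ) - φ) = ev p κ + r • a + φ := by abel
        rw [e]
        exact h)
    (by
      rintro m p p' a hpp ⟨h1, h2, h3⟩
      refine ⟨h1, fun i hi => ?_, fun b hb hbm r hr hrq κ hκ φ hφ => ?_⟩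
      · rw [← hpp i hi]
        exact h2 i hi
      · rw [← ev_congr hpp hκ.1]
        exact h3 b hb hbm r hr hrq κ hκ φ hφ)
  have hyS : ∀ m, y m ∈ S (m * m + m + 1) := fun m => (hy m).1
  obtain ⟨i, j, hij, h⟩ := zcore hV hS hSV hC hyS (by
    intro a ha
    obtain ⟨h1, h2, h3, h4, h5, h6, h7⟩ := hdata a ha
    refine ⟨q a, h1, h2, Q a, h3, max a (m₀ a), ?_⟩
    intro κ hκ hk hQκ
    refine sepF hS hyS h1 h4 h7 (k := max a (m₀ a)) ?_ hκ hk
      (fun i hi => hk i (lt_of_lt_of_le hi (le_max_right _ _))) hQκ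
    intro m hm r hr hrq κ' hκ' φ hφ
    exact (hy m).2.2 a ha ((le_max_left _ _).trans hm) r hr hrq κ' hκ' φ hφ) O' hO'
  exact (hy j).2.1 i hij h

end LocMin
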