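import Mathlib
import Pool.Agent.Lib.MP_27feec_al_LM.Avg
import Pool.Agent.Lib.MP_27feec_al_LM.Core

/-!
# Correction by a character
-/

namespace LocMin

open Topology Filter

private theorem step_lift (z : UnitAddCircle) :
    ∃ r : ℝ, ((r : ℝ) : UnitAddCircle) = z ∧ |r| = ‖z‖ := by
  induction z using QuotientAddGroup.induction_on with
  | H x =>
    refine ⟨x - round x, ?_, ?_⟩
    · have h : (((round x : ℤ) : ℝ) : UnitAddCircle) = 0 := by
        rw [AddCircle.coe_eq_zero_iff]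
        exact ⟨round x, by simp⟩
      rw [AddCircle.coe_sub, h, sub_zero]
    · exact (UnitAddCircle.norm_eq (x := x)).symm

private theorem step_double {v : UnitAddCircle} (hv : ‖v‖ ≤ 3 / 50) : ‖v + v‖ = 2 * ‖v‖ := by
  obtain ⟨r, rfl, hr⟩ := step_lift v
  rw [← AddCircle.coe_add]
  have h1 : ‖((r + r : ℝ) : UnitAddCircle)‖ = |r + r| := by
    rw [AddCircle.norm_coe_eq_abs_iff (1 : ℝ) one_ne_zero]
    rw [← hr] at hv
    rw [abs_le] at hv ⊢
    rw [abs_one]
    constructor <;> linarith [hv.1, hv.2]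
  rw [h1, ← hr, ← two_mul, abs_mul, abs_two]

private theorem step_zero {u : UnitAddCircle} (hu : ∀ k : ℕ, ‖k • u‖ ≤ 3 / 50) : u = 0 := by
  have h : ∀ n : ℕ, ‖(2 ^ n) • u‖ = 2 ^ n * ‖u‖ := by
    intro n
    induction n with
    | zero => simp
    | succ n ih =>
      have h1 : (2 ^ (n + 1)) • u = (2 ^ n) • u + (2 ^ n) • u := by
        rw [← add_nsmul]
        congr 1
        ring
      rw [h1, step_double (hu _), ih]
      ring
  by_contra hne
  have hpos : 0 < ‖u‖ := norm_pos_iff.2 hne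
  obtain ⟨n, hn⟩ := pow_unbounded_of_one_lt ((3 / 50) / ‖u‖) (one_lt_two : (1 : ℝ) < 2)
  have h1 := hu (2 ^ n)
  rw [h n] at h1
  rw [div_lt_iff₀ hpos] at hn
  linarith

private theorem step_half {G : Type*} [AddCommGroup G] [TopologicalSpace G]
    [IsTopologicalAddGroup G] {O : Set G} (hO : O ∈ 𝓝 (0 : G)) :
    ∃ O' ∈ 𝓝 (0 : G), (∀ x ∈ O', -x ∈ O') ∧ ∀ x ∈ O', ∀ y ∈ O', x + y ∈ O := by
  obtain ⟨V, hV, h⟩ := exists_nhds_zero_half hO
  refine ⟨V ∩ {x | -x ∈ V}, inter_mem hV ?_, ?_, ?_⟩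
  · have h1 : Continuous fun x : G => -x := by fun_prop
    exact h1.continuousAt.preimage_mem_nhds (by simpa using hV)
  · rintro x ⟨h1, h2⟩
    refine ⟨h2, ?_⟩
    show - -x ∈ V
    rw [neg_neg]
    exact h1
  · intro x hx y hy
    exact h x hx.1 y hy.1

/-- A closed divisible nonzero subgroup of the circle is everything. -/
private theorem step_top (D : AddSubgroup UnitAddCircle) (hD : IsClosed (D : Set UnitAddCircle))
    (hdiv : ∀ x ∈ D, ∀ b : ℕ, 0 < b → ∃ c ∈ D, b • c = x) {x₀ : UnitAddCircle} (hx₀ : x₀ ∈ D)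
    (hne : x₀ ≠ 0) : D = ⊤ := by
  set q : ℝ →+ UnitAddCircle := QuotientAddGroup.mk' (AddSubgroup.zmultiples (1 : ℝ)) with hq
  have hqs : Function.Surjective q := QuotientAddGroup.mk'_surjective _
  have hqc : Continuous q := AddCircle.continuous_mk' (1 : ℝ)
  rcases AddSubgroup.dense_or_cyclic (D.comap q) with h | ⟨a, ha⟩
  · have h1 : Dense (D : Set UnitAddCircle) := by
      have h2 : Dense (q '' ((D.comap q : AddSubgroup ℝ) : Set ℝ)) :=
        hqs.denseRange.dense_image hqc h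
      refine h2.mono ?_
      rintro _ ⟨x, hx, rfl⟩
      exact hx
    have h3 := h1.closure_eq
    rw [hD.closure_eq] at h3
    exact SetLike.coe_injective (by rw [h3]; rfl)
  · exfalso
    have h1 : (1 : ℝ) ∈ D.comap q := by
      rw [AddSubgroup.mem_comap]
      have : q 1 = 0 := by
        show ((1 : ℝ) : UnitAddCircle) = 0
        rw [AddCircle.coe_eq_zero_iff]
        exact ⟨1, by simp⟩
      rw [this]
      exact D.zero_mem
    rw [ha, AddSubgroup.mem_closure_singleton] at h1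
    obtain ⟨k, hk⟩ := h1
    have hk0 : k ≠ 0 := by
      rintro rfl
      simp at hk
    have hkq : k • q a = 0 := by
      rw [← map_zsmul, hk]
      show ((1 : ℝ) : UnitAddCircle) = 0
      rw [AddCircle.coe_eq_zero_iff]
      exact ⟨1, by simp⟩
    have hall : ∀ c ∈ D, k.natAbs • c = 0 := by
      intro c hc
      obtain ⟨r, rfl⟩ := hqs c
      have hr : r ∈ D.comap q := hc
      rw [ha, AddSubgroup.mem_closure_singleton] at hr
      obtain ⟨m, rfl⟩ := hr
      have h2 : k • q (m • a) = 0 := by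
        rw [map_zsmul, ← mul_zsmul, mul_comm, mul_zsmul, hkq, zsmul_zero]
      rcases Int.natAbs_eq k with h3 | h3
      · rw [← natCast_zsmul, ← h3]
        exact h2
      · rw [← natCast_zsmul]
        have h4 : ((k.natAbs : ℕ) : ℤ) = -k := by omega
        rw [h4, neg_zsmul, h2, neg_zero]
    obtain ⟨c, hc, hcx⟩ := hdiv x₀ hx₀ k.natAbs (Int.natAbs_pos.2 hk0)
    exact hne (by rw [← hcx]; exact hall c hc)

private theorem step_ev_sub {G : Type*} [AddCommGroup G] (y y' : ℕ → G) (κ : ℕ →₀ ℤ) :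
    ev (fun m => y m - y' m) κ = ev y κ - ev y' κ := by
  simp only [ev_apply, Finsupp.sum, smul_sub, Finset.sum_sub_distrib]

private theorem step_ev_map {G H : Type*} [AddCommGroup G] [AddCommGroup H] (f : G →+ H)
    (y : ℕ → G) (κ : ℕ →₀ ℤ) : f (ev y κ) = ev (fun m => f (y m)) κ := by
  simp only [ev_apply, Finsupp.sum, map_sum, map_zsmul]

private theorem step_ev_smul {G : Type*} [AddCommGroup G] (a : ℕ) (y : ℕ → G) (κ : ℕ →₀ ℤ) :
    a • ev y κ = ev (fun m => a • y m) κ := by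
  simp only [ev_apply, Finsupp.sum, Finset.smul_sum]
  refine Finset.sum_congr rfl fun m _ => ?_
  rw [smul_comm]

variable {G : Type*} [AddCommGroup G] [TopologicalSpace G]

theorem step [IsTopologicalAddGroup G] [T2Space G] {z t : ℕ → G} {N : AddSubgroup G}
    (hN : IsCompact (N : Set G)) (hgood : Good z t N)
    (hdiv : ∀ x ∈ N, ∀ b : ℕ, 0 < b → ∃ c ∈ N, b • c = x) (χ : N →+ UnitAddCircle)
    (hχ : Continuous χ) :
    ∃ t' : ℕ → G, (∀ m, t' m - t m ∈ N) ∧
      ∀ x : N, (x : G) ∈ Core (strOf fun m => z m - t' m) → χ x = 0 := by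
  classical
  by_cases hχ0 : ∀ x, χ x = 0
  · exact ⟨t, fun m => by rw [sub_self]; exact N.zero_mem, fun x _ => hχ0 x⟩
  push Not at hχ0
  obtain ⟨x₀, hx₀⟩ := hχ0
  -- the character is onto
  have hcomp : CompactSpace N := isCompact_iff_compactSpace.1 hN
  have hclosed : IsClosed (χ.range : Set UnitAddCircle) := by
    have h1 : IsCompact (Set.range χ) := isCompact_range hχ
    have h2 : (χ.range : Set UnitAddCircle) = Set.range χ := AddMonoidHom.coe_range χ
    rw [h2]
    exact h1.isClosed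
  have hdivN : ∀ x : N, ∀ b : ℕ, 0 < b → ∃ c : N, b • c = x := by
    intro x b hb
    obtain ⟨c, hc, hcx⟩ := hdiv x x.2 b hb
    exact ⟨⟨c, hc⟩, Subtype.ext hcx⟩
  have htop : χ.range = ⊤ := by
    refine step_top χ.range hclosed ?_ (x₀ := χ x₀) ⟨x₀, rfl⟩ hx₀
    rintro _ ⟨x, rfl⟩ b hb
    obtain ⟨c, hc⟩ := hdivN x b hb
    exact ⟨χ c, ⟨c, rfl⟩, by rw [← map_nsmul, hc]⟩
  -- a neighbourhood on which the character is small
  obtain ⟨O₁, hO₁, hsmall⟩ : ∃ O ∈ 𝓝 (0 : G), ∀ x : N, (x : G) ∈ O → ‖χ x‖ ≤ 1 / 100 := by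
    have h1 : {x : N | ‖χ x‖ < 1 / 100} ∈ 𝓝 (0 : N) := by
      have h2 : Continuous fun x : N => ‖χ x‖ := hχ.norm
      have h3 : {x : N | ‖χ x‖ < 1 / 100} = (fun x : N => ‖χ x‖) ⁻¹' Set.Iio (1 / 100) := rfl
      rw [h3]
      refine (isOpen_Iio.preimage h2).mem_nhds ?_
      simp
    rw [nhds_subtype_eq_comap] at h1
    obtain ⟨O, hO, hOs⟩ := Filter.mem_comap.1 h1
    exact ⟨O, hO, fun x hx => (hOs hx).le⟩
  obtain ⟨O₂, hO₂, hneg₂, hadd₂⟩ := step_half hO₁
  obtain ⟨O, hO, hneg, hadd⟩ := step_half hO₂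
  have hO₂₁ : ∀ x ∈ O₂, x ∈ O₁ := fun x hx => by
    have := hadd₂ x hx 0 (mem_of_mem_nhds hO₂)
    rwa [add_zero] at this
  obtain ⟨a, ha, j, hj⟩ := hgood O hO
  have hc : ∀ κ : ℕ →₀ ℤ, ∃ c : N, κ ∈ Box j → a • ev (fun m => z m - t m) κ - (c : G) ∈ O := by
    intro κ
    by_cases hκ : κ ∈ Box j
    · obtain ⟨c, hcN, hcO⟩ := hj κ hκ
      exact ⟨⟨c, hcN⟩, fun _ => hcO⟩
    · exact ⟨0, fun h => absurd h hκ⟩
  choose c hc using hc
  have hφ : ∀ κ ∈ Box (j + 1), ∀ κ' ∈ Box (j + 1),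
      ‖χ (c (κ + κ')) - χ (c κ) - χ (c κ')‖ ≤ 1 / 100 := by
    intro κ hκ κ' hκ'
    have h1 := hc (κ + κ') (box_str.add j κ hκ κ' hκ')
    have h2 := hc κ (box_str.succ_subset j hκ)
    have h3 := hc κ' (box_str.succ_subset j hκ')
    rw [← map_sub, ← map_sub]
    refine hsmall _ ?_
    have h4 := hadd₂ _ (hadd _ h2 _ h3) _ (hadd _ (hneg _ h1) 0 (mem_of_mem_nhds hO))
    have h5 : ((c (κ + κ') - c κ - c κ' : N) : G) =
        (a • ev (fun m => z m - t m) κ - (c κ : G) + (a • ev (fun m => z m - t m) κ' - (c κ' : G)))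
          + (-(a • ev (fun m => z m - t m) (κ + κ') - (c (κ + κ') : G)) + 0) := by
      rw [map_add, smul_add]
      push_cast
      abel
    rw [h5]
    exact h4
  obtain ⟨μ, hμ⟩ := averaging j (fun κ => χ (c κ)) hφ
  have hs : ∀ m, ∃ s : N, a • χ s = μ m := by
    intro m
    have h1 : μ m ∈ χ.range := by rw [htop]; exact AddSubgroup.mem_top _
    obtain ⟨n, hn⟩ := h1
    obtain ⟨s, hs⟩ := hdivN n a ha
    exact ⟨s, by rw [← map_nsmul, hs, hn]⟩
  choose s hs using hs
  refine ⟨fun m => t m + s m, fun m => by rw [add_sub_cancel_left]; exact (s m).2, ?_⟩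
  -- the basic estimate
  have key : ∀ x : N, (x : G) ∈ Core (strOf fun m => z m - (t m + s m)) → ‖χ x‖ ≤ 3 / 50 := by
    intro x hx
    obtain ⟨_, ⟨κ, hκ, rfl⟩, hxO⟩ := hx a ha (j + 3) O hO
    have hκj : κ ∈ Box j := box_str.anti (by omega : j ≤ j + 3) hκ
    have h1 := hc κ hκj
    have h2 : ev (fun m => z m - (t m + (s m : G))) κ =
        ev (fun m => z m - t m) κ - ((ev s κ : N) : G) := by
      have h3 : (fun m => z m - (t m + (s m : G))) = fun m => (z m - t m) - (s m : G) := by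
        funext m
        abel
      rw [h3, step_ev_sub]
      congr 1
      exact (step_ev_map N.subtype s κ).symm
    rw [h2] at hxO
    have h3 := hO₂₁ _ (hadd _ hxO _ h1)
    have h4 : (x : G) - a • (ev (fun m => z m - t m) κ - ((ev s κ : N) : G)) +
        (a • ev (fun m => z m - t m) κ - (c κ : G)) = ((x + a • ev s κ - c κ : N) : G) := by
      push_cast
      rw [smul_sub]
      abel
    rw [h4] at h3
    have h5 := hsmall _ h3
    have h6 : χ (a • ev s κ) = ev μ κ := by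
      rw [map_nsmul, step_ev_map, step_ev_smul]
      congr 2
      funext m
      exact hs m
    rw [map_sub, map_add, h6] at h5
    have h7 := hμ κ hκ
    have h8 : χ x = (χ x + ev μ κ - χ (c κ)) + (χ (c κ) - ev μ κ) := by abel
    rw [h8]
    refine (norm_add_le _ _).trans ?_
    linarith
  intro x hx
  refine step_zero fun k => ?_
  rw [← map_nsmul]
  refine key _ ?_
  have h1 : (x : G) ∈ coreSub (strOf_isStr fun m => z m - (t m + (s m : G))) := hx
  have h2 := (coreSub (strOf_isStr fun m => z m - (t m + (s m : G)))).nsmul_mem h1 k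
  exact h2

end LocMin
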