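import Mathlib
import Pool.Agent.Lib.MP_27feec_al_LM.Bx

/-!
# A minimal pair
-/

namespace LocMin

open Topology Filter

variable {G : Type*} [AddCommGroup G] [TopologicalSpace G]

private theorem zorn_ev_sub {G : Type*} [AddCommGroup G] (y y' : ℕ → G) (κ : ℕ →₀ ℤ) :
    ev (fun m => y m - y' m) κ = ev y κ - ev y' κ := by
  rw [ev_apply, ev_apply, ev_apply, Finsupp.sum, Finsupp.sum, Finsupp.sum,
    ← Finset.sum_sub_distrib]
  exact Finset.sum_congr rfl fun m _ => smul_sub _ _ _

private theorem zorn_ev_mem {G : Type*} [AddCommGroup G] {N : AddSubgroup G} {y : ℕ → G}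
    (hy : ∀ m, y m ∈ N) (κ : ℕ →₀ ℤ) : ev y κ ∈ N := by
  rw [ev_apply]
  exact N.sum_mem fun m _ => N.zsmul_mem (hy m) _

theorem exists_min [IsTopologicalAddGroup G] [T2Space G] {z : ℕ → G} {C : AddSubgroup G}
    (hC : IsCompact (C : Set G)) (h0 : Good z (fun _ => 0) C) :
    ∃ (t : ℕ → G) (N : AddSubgroup G), (∀ m, t m ∈ C) ∧ N ≤ C ∧ IsClosed (N : Set G) ∧
      Good z t N ∧ ∀ (t' : ℕ → G) (N' : AddSubgroup G), N' ≤ N → IsClosed (N' : Set G) →
        (∀ m, t' m - t m ∈ N) → Good z t' N' → N ≤ N' := by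
  classical
  set P := {p : (ℕ → G) × AddSubgroup G // (∀ m, p.1 m ∈ C) ∧ p.2 ≤ C ∧
    IsClosed (p.2 : Set G) ∧ Good z p.1 p.2} with hP
  set r : P → P → Prop := fun p p' => p'.1.2 ≤ p.1.2 ∧ ∀ m, p'.1.1 m - p.1.1 m ∈ p.1.2 with hr
  have hchain : ∀ c : Set P, IsChain r c → ∃ ub : P, ∀ a ∈ c, r a ub := by
    intro c hc
    rcases c.eq_empty_or_nonempty with rfl | hne
    · exact ⟨⟨(fun _ => 0, C), fun _ => C.zero_mem, le_rfl, hC.isClosed, h0⟩, by simp⟩
    haveI : Nonempty c := hne.to_subtype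
    -- directedness
    have hdir : ∀ p q : c, ∃ s : c, (r p.1 s.1 ∨ p = s) ∧ (r q.1 s.1 ∨ q = s) := by
      intro p q
      by_cases hpq : p = q
      · exact ⟨q, Or.inr hpq, Or.inr rfl⟩
      · have hne' : p.1 ≠ q.1 := fun h => hpq (Subtype.ext h)
        rcases hc p.2 q.2 hne' with h | h
        · exact ⟨q, Or.inl h, Or.inr rfl⟩
        · exact ⟨p, Or.inr rfl, Or.inl h⟩
    have hle : ∀ p s : c, (r p.1 s.1 ∨ p = s) → s.1.1.2 ≤ p.1.1.2 := by
      rintro p s (h | rfl)
      · exact h.1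
      · exact le_rfl
    have hsub : ∀ p s : c, (r p.1 s.1 ∨ p = s) → ∀ m, s.1.1.1 m - p.1.1.1 m ∈ p.1.1.2 := by
      rintro p s (h | rfl) m
      · exact h.2 m
      · rw [sub_self]; exact p.1.1.2.zero_mem
    -- a point of all the cosets
    have hKne : (⋂ p : c, {t : ℕ → G | ∀ m, t m - p.1.1.1 m ∈ p.1.1.2}).Nonempty := by
      have hcl : ∀ p : c, IsClosed {t : ℕ → G | ∀ m, t m - p.1.1.1 m ∈ p.1.1.2} := by
        intro p
        rw [Set.setOf_forall]
        refine isClosed_iInter fun m => ?_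
        exact p.1.2.2.2.1.preimage (f := fun t : ℕ → G => t m - p.1.1.1 m)
          ((continuous_apply m).sub continuous_const)
      refine IsCompact.nonempty_iInter_of_directed_nonempty_isCompact_isClosed _ ?_ ?_ ?_ hcl
      · intro p q
        obtain ⟨s, h1, h2⟩ := hdir p q
        refine ⟨s, ?_, ?_⟩
        · intro t ht m
          have := p.1.1.2.add_mem (hle p s h1 (ht m)) (hsub p s h1 m)
          simpa using this
        · intro t ht m
          have := q.1.1.2.add_mem (hle q s h2 (ht m)) (hsub q s h2 m)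
          simpa using this
      · intro p
        exact ⟨p.1.1.1, fun m => by rw [sub_self]; exact p.1.1.2.zero_mem⟩
      · intro p
        have hc2 : IsCompact (Set.univ.pi fun _ : ℕ => (C : Set G)) :=
          isCompact_univ_pi fun _ => hC
        refine hc2.of_isClosed_subset (hcl p) ?_
        intro t ht m _
        have := C.add_mem (p.1.2.2.1 (ht m)) (p.1.2.1 m)
        simpa using this
    obtain ⟨t, ht⟩ := hKne
    simp only [Set.mem_iInter, Set.mem_setOf_eq] at ht
    set N : AddSubgroup G := ⨅ p : c, p.1.1.2 with hN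
    have hNle : ∀ p : c, N ≤ p.1.1.2 := fun p => iInf_le _ p
    obtain ⟨p0⟩ := ‹Nonempty c›
    have hNC : N ≤ C := (hNle p0).trans p0.1.2.2.1
    have htC : ∀ m, t m ∈ C := by
      intro m
      have := C.add_mem (p0.1.2.2.1 (ht p0 m)) (p0.1.2.1 m)
      simpa using this
    have hNcl : IsClosed (N : Set G) := by
      rw [hN, AddSubgroup.coe_iInf]
      exact isClosed_iInter fun p => p.1.2.2.2.1
    have hgood : Good z t N := by
      intro O hO
      obtain ⟨O', hO', hadd⟩ : ∃ O' ∈ 𝓝 (0 : G), ∀ x ∈ O', ∀ y ∈ O', x + y ∈ O :=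
        exists_nhds_zero_half hO
      obtain ⟨U, hUO, hUo, hU0⟩ := mem_nhds_iff.1 hO'
      -- some member of the chain is near N
      obtain ⟨p, hp⟩ : ∃ p : c, ∀ x ∈ p.1.1.2, ∃ n ∈ N, x - n ∈ U := by
        by_contra hcon
        push Not at hcon
        set W : Set G := {x | ∃ n ∈ N, x - n ∈ U} with hW
        have hWo : IsOpen W := by
          have : W = ⋃ n ∈ N, {x : G | x - n ∈ U} := by
            ext x
            simp [hW]
          rw [this]
          refine isOpen_biUnion fun n _ => ?_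
          exact hUo.preimage (f := fun x : G => x - n) (continuous_id.sub continuous_const)
        have hne2 : (⋂ p : c, ((p.1.1.2 : Set G) ∩ Wᶜ)).Nonempty := by
          have hcl : ∀ p : c, IsClosed ((p.1.1.2 : Set G) ∩ Wᶜ) := fun p =>
            p.1.2.2.2.1.inter hWo.isClosed_compl
          refine IsCompact.nonempty_iInter_of_directed_nonempty_isCompact_isClosed _ ?_ ?_ ?_ hcl
          · intro p q
            obtain ⟨s, h1, h2⟩ := hdir p q
            exact ⟨s, Set.inter_subset_inter_left _ (hle p s h1),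
              Set.inter_subset_inter_left _ (hle q s h2)⟩
          · intro p
            obtain ⟨x, hx, hx2⟩ := hcon p
            refine ⟨x, hx, ?_⟩
            rintro ⟨n, hn, hn2⟩
            exact hx2 n hn hn2
          · intro p
            exact hC.of_isClosed_subset (hcl p) fun x hx => p.1.2.2.1 hx.1
        obtain ⟨x, hx⟩ := hne2
        rw [Set.mem_iInter] at hx
        have hxN : x ∈ N := by
          rw [hN, AddSubgroup.mem_iInf]
          exact fun p => (hx p).1
        exact (hx p0).2 ⟨x, hxN, by rwa [sub_self]⟩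
      obtain ⟨a, ha, j, hj⟩ := p.1.2.2.2.2 O' hO'
      refine ⟨a, ha, j, fun κ hκ => ?_⟩
      obtain ⟨c1, hc1, hc2⟩ := hj κ hκ
      have hmem : a • ev (fun m => t m - p.1.1.1 m) κ ∈ p.1.1.2 :=
        p.1.1.2.nsmul_mem (zorn_ev_mem (ht p) κ) a
      obtain ⟨n, hn, hn2⟩ := hp (c1 - a • ev (fun m => t m - p.1.1.1 m) κ)
        (p.1.1.2.sub_mem hc1 hmem)
      refine ⟨n, hn, ?_⟩
      have key : a • ev (fun m => z m - t m) κ - n =
          (a • ev (fun m => z m - p.1.1.1 m) κ - c1) +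
            (c1 - a • ev (fun m => t m - p.1.1.1 m) κ - n) := by
        rw [zorn_ev_sub, zorn_ev_sub, zorn_ev_sub, smul_sub, smul_sub, smul_sub]
        abel
      rw [key]
      exact hadd _ hc2 _ (hUO hn2)
    exact ⟨⟨(t, N), htC, hNC, hNcl, hgood⟩, fun p hp => ⟨hNle ⟨p, hp⟩, ht ⟨p, hp⟩⟩⟩
  obtain ⟨⟨⟨t, N⟩, htC, hNC, hNcl, hgood⟩, hmax⟩ :=
    exists_maximal_of_chains_bounded hchain (by
      rintro a b c ⟨h1, h2⟩ ⟨h3, h4⟩
      refine ⟨h3.trans h1, fun m => ?_⟩
      have := a.1.2.add_mem (h1 (h4 m)) (h2 m)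
      simpa using this)
  refine ⟨t, N, htC, hNC, hNcl, hgood, fun t' N' hN' hN'cl ht' hg' => ?_⟩
  have htC' : ∀ m, t' m ∈ C := by
    intro m
    have := C.add_mem (hNC (ht' m)) (htC m)
    simpa using this
  exact (hmax ⟨(t', N'), htC', hN'.trans hNC, hN'cl, hg'⟩ ⟨hN', ht'⟩).1

end LocMin
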