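import Mathlib
import Pool.Agent.Lib.MP_27feec_al_LM.Core
import Pool.Agent.Lib.MP_27feec_al_LM.Zorn
import Pool.Agent.Lib.MP_27feec_al_LM.Step

/-!
# A correction with trivial core
-/

namespace LocMin

open Topology Filter

private theorem zc_half {G : Type*} [AddCommGroup G] [TopologicalSpace G]
    [IsTopologicalAddGroup G] {O : Set G} (hO : O ∈ 𝓝 (0 : G)) :
    ∃ O' ∈ 𝓝 (0 : G), ∀ x ∈ O', ∀ y ∈ O', x + y ∈ O := by
  obtain ⟨V, hV, h⟩ := exists_nhds_zero_half hO
  exact ⟨V, hV, h⟩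

private theorem zc_mem_of_good {G : Type*} [AddCommGroup G] [TopologicalSpace G]
    [IsTopologicalAddGroup G] {z t : ℕ → G} {N : AddSubgroup G} (hcl : IsClosed (N : Set G))
    (hgood : Good z t N) {x : G} (hx : x ∈ Core (strOf fun m => z m - t m)) : x ∈ N := by
  have hmem : x ∈ closure (N : Set G) := by
    rw [mem_closure_iff_nhds]
    intro U hU
    have hO : {y : G | x - y ∈ U} ∈ 𝓝 (0 : G) := by
      have hc : Continuous fun y : G => x - y := continuous_const.sub continuous_id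
      have : Tendsto (fun y : G => x - y) (𝓝 0) (𝓝 (x - 0)) := hc.tendsto 0
      rw [sub_zero] at this
      exact this hU
    obtain ⟨O', hO', hadd⟩ := zc_half hO
    obtain ⟨a, ha, j, hj⟩ := hgood O' hO'
    obtain ⟨s, hs, hxs⟩ := hx a ha j O' hO'
    obtain ⟨κ, hκ, rfl⟩ := hs
    obtain ⟨c, hc, hcO⟩ := hj κ hκ
    refine ⟨c, ?_, hc⟩
    have h1 := hadd _ hxs _ hcO
    have h2 : x - (x - a • (ev fun m => z m - t m) κ
        + (a • (ev fun m => z m - t m) κ - c)) = c := by abel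
    have h3 : x - (x - a • (ev fun m => z m - t m) κ
        + (a • (ev fun m => z m - t m) κ - c)) ∈ U := h1
    rw [h2] at h3
    exact h3
  rwa [hcl.closure_eq] at hmem

private theorem zc_mtb {G : Type*} [AddCommGroup G] [TopologicalSpace G]
    [IsTopologicalAddGroup G] {z t : ℕ → G} {N : AddSubgroup G} (hN : IsCompact (N : Set G))
    (hgood : Good z t N) : MTb (strOf fun m => z m - t m) := by
  intro O hO
  obtain ⟨O', hO', hadd⟩ := zc_half hO
  obtain ⟨a, ha, j, hj⟩ := hgood O' hO'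
  refine ⟨a, ha, j, ?_⟩
  obtain ⟨Φ, hΦ⟩ := hN.elim_nhds_subcover' (fun x _ => {y : G | y - x ∈ O'}) (by
    intro x _
    have hc : Continuous fun y : G => y - x := continuous_id.sub continuous_const
    have : Tendsto (fun y : G => y - x) (𝓝 x) (𝓝 (x - x)) := hc.tendsto x
    rw [sub_self] at this
    exact this hO')
  refine ⟨(fun p : (N : Set G) => (p : G)) '' (Φ : Set (N : Set G)),
    Φ.finite_toSet.image _, ?_⟩
  rintro x ⟨s, ⟨κ, hκ, rfl⟩, rfl⟩
  obtain ⟨c, hc, hcO⟩ := hj κ hκ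
  have := hΦ hc
  rw [Set.mem_iUnion₂] at this
  obtain ⟨p, hp, hcp⟩ := this
  refine ⟨p, ⟨p, hp, rfl⟩, ?_⟩
  have h1 := hadd _ hcO _ hcp
  have h2 : a • (ev fun m => z m - t m) κ - c + (c - (p : G))
      = a • (ev fun m => z m - t m) κ - p := by abel
  rw [h2] at h1
  exact h1

private theorem zc_ev_mem {G : Type*} [AddCommGroup G] {N : AddSubgroup G} {y : ℕ → G}
    (hy : ∀ m, y m ∈ N) (κ : ℕ →₀ ℤ) : ev y κ ∈ N := by
  rw [ev_apply]
  exact N.sum_mem fun m _ => N.zsmul_mem (hy m) _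

private theorem zc_ev_sub {G : Type*} [AddCommGroup G] (y y' : ℕ → G) (κ : ℕ →₀ ℤ) :
    ev (fun m => y m - y' m) κ = ev y κ - ev y' κ := by
  simp only [ev_apply, Finsupp.sum, smul_sub, Finset.sum_sub_distrib]

private theorem zc_good_change {G : Type*} [AddCommGroup G] [TopologicalSpace G]
    {z t t' : ℕ → G} {N : AddSubgroup G} (hgood : Good z t N) (h : ∀ m, t' m - t m ∈ N) :
    Good z t' N := by
  intro O hO
  obtain ⟨a, ha, j, hj⟩ := hgood O hO
  refine ⟨a, ha, j, fun κ hκ => ?_⟩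
  obtain ⟨c, hc, hcO⟩ := hj κ hκ
  refine ⟨c - a • ev (fun m => t' m - t m) κ,
    N.sub_mem hc (N.nsmul_mem (zc_ev_mem h κ) a), ?_⟩
  have h2 : a • ev (fun m => z m - t' m) κ - (c - a • ev (fun m => t' m - t m) κ)
      = a • ev (fun m => z m - t m) κ - c := by
    rw [zc_ev_sub, zc_ev_sub, zc_ev_sub, smul_sub, smul_sub, smul_sub]
    abel
  rw [h2]
  exact hcO

theorem exists_zero_core {G : Type*} [AddCommGroup G] [UniformSpace G] [IsUniformAddGroup G]
    [T2Space G] [CompleteSpace G]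
    (hPW : ∀ N : AddSubgroup G, IsCompact (N : Set G) → CharSep N)
    {z : ℕ → G} {C : AddSubgroup G} (hC : IsCompact (C : Set G)) (h0 : Good z (fun _ => 0) C) :
    ∃ t : ℕ → G, (∀ m, t m ∈ C) ∧ ∀ x ∈ Core (strOf fun m => z m - t m), x = 0 := by
  obtain ⟨t, N, ht, hNC, hNcl, hgood, hmin⟩ := exists_min hC h0
  have hN : IsCompact (N : Set G) := hC.of_isClosed_subset hNcl hNC
  -- minimality for the core of a good correction
  have key : ∀ t' : ℕ → G, (∀ m, t' m - t m ∈ N) → ∀ x ∈ N,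
      x ∈ Core (strOf fun m => z m - t' m) := by
    intro t' ht' x hx
    have hg' : Good z t' N := zc_good_change hgood ht'
    have hS : IsStr (strOf fun m => z m - t' m) := strOf_isStr _
    have hM : MTb (strOf fun m => z m - t' m) := zc_mtb hN hg'
    have hle : coreSub hS ≤ N := fun y hy => zc_mem_of_good hNcl hg' hy
    have hcl : IsClosed (coreSub hS : Set G) := (core_compact hS hM).isClosed
    have hgc : Good z t' (coreSub hS) := by
      intro O hO
      obtain ⟨a, ha, n, hn⟩ := core_near hS hM hO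
      refine ⟨a, ha, n, fun κ hκ => ?_⟩
      obtain ⟨c, hc, hcO⟩ := hn _ ⟨κ, hκ, rfl⟩
      exact ⟨c, hc, hcO⟩
    exact hmin t' (coreSub hS) hle hcl ht' hgc hx
  have hdiv : ∀ x ∈ N, ∀ b : ℕ, 0 < b → ∃ c ∈ N, b • c = x := by
    intro x hx b hb
    have hS : IsStr (strOf fun m => z m - t m) := strOf_isStr _
    have hM : MTb (strOf fun m => z m - t m) := zc_mtb hN hgood
    have hxc := key t (fun m => by rw [sub_self]; exact N.zero_mem) x hx
    obtain ⟨c, hc, hcx⟩ := core_div hS hM hxc hb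
    exact ⟨c, zc_mem_of_good hNcl hgood hc, hcx⟩
  refine ⟨t, ht, fun x hx => ?_⟩
  have hxN : x ∈ N := zc_mem_of_good hNcl hgood hx
  by_contra hx0
  obtain ⟨χ, hχ, hne⟩ := hPW N hN ⟨x, hxN⟩ (fun h => hx0 (congrArg Subtype.val h))
  obtain ⟨t', ht', hzero⟩ := step hN hgood hdiv χ hχ
  exact hne (hzero ⟨x, hxN⟩ (key t' ht' x hxN))

end LocMin
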