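import Mathlib
import Pool.Agent.Lib.MP_27feec_al_LM.CaseA
import Pool.Agent.Lib.MP_27feec_al_LM.ZeroCore
import Pool.Agent.Lib.MP_27feec_al_LM.LemZ
import Pool.Agent.Lib.MP_27feec_al_LM.Core
import Pool.Agent.Lib.MP_27feec_al_LM.Neu
import Pool.Agent.Lib.MP_27feec_al_LM.Bx

/-!
# Small strings are totally bounded
-/

namespace LocMin

open Topology Filter

private theorem thmP_symm {G : Type*} [AddCommGroup G] [TopologicalSpace G]
    [IsTopologicalAddGroup G] {O : Set G} (hO : O ∈ 𝓝 (0 : G)) :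
    ∃ W ∈ 𝓝 (0 : G), (∀ x ∈ W, -x ∈ W) ∧ ∀ x ∈ W, ∀ y ∈ W, x + y ∈ O := by
  obtain ⟨W, hW, hWW⟩ := exists_nhds_zero_half hO
  refine ⟨W ∩ (Neg.neg ⁻¹' W), Filter.inter_mem hW ?_, ?_, ?_⟩
  · have hc : Filter.Tendsto (fun x : G => -x) (𝓝 0) (𝓝 0) := by
      have := (continuous_neg (G := G)).tendsto 0
      simpa using this
    exact hc hW
  · rintro x ⟨h1, h2⟩
    refine ⟨h2, ?_⟩
    simpa using h1
  · rintro x ⟨h1, -⟩ y ⟨h2, -⟩
    exact hWW x h1 y h2

private theorem thmP_tb {G : Type*} [AddCommGroup G] [TopologicalSpace G]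
    [IsTopologicalAddGroup G] {C : Set G} (hC : IsCompact C) {O : Set G} (hO : O ∈ 𝓝 (0 : G)) :
    Tb C O := by
  have hU : ∀ c ∈ C, {x : G | x - c ∈ O} ∈ 𝓝 c := by
    intro c _
    have hc : Filter.Tendsto (fun x : G => x - c) (𝓝 c) (𝓝 0) := by
      have : Continuous fun x : G => x - c := by fun_prop
      have := this.tendsto c
      simpa using this
    exact hc hO
  obtain ⟨t, -, ht⟩ := hC.elim_nhds_subcover (fun c => {x : G | x - c ∈ O}) hU
  refine ⟨t, t.finite_toSet, fun x hx => ?_⟩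
  have := ht hx
  simp only [Set.mem_iUnion, Set.mem_ofPred_eq, exists_prop] at this
  obtain ⟨c, hc, h⟩ := this
  exact ⟨c, by simpa using hc, h⟩

private theorem thmP_ev_mem {G : Type*} [AddCommGroup G] (C : AddSubgroup G) {t : ℕ → G}
    (ht : ∀ m, t m ∈ C) (κ : ℕ →₀ ℤ) : ev t κ ∈ C := by
  rw [ev_apply]
  exact C.sum_mem fun m _ => C.zsmul_mem (ht m) _

private theorem thmP_ev_sub {G : Type*} [AddCommGroup G] (z t : ℕ → G) (κ : ℕ →₀ ℤ) :
    ev (fun m => z m - t m) κ = ev z κ - ev t κ := by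
  simp only [ev_apply, Finsupp.sum, smul_sub, Finset.sum_sub_distrib]

theorem theoremP {G : Type*} [AddCommGroup G] [UniformSpace G] [IsUniformAddGroup G]
    [T2Space G] [CompleteSpace G]
    (hPW : ∀ N : AddSubgroup G, IsCompact (N : Set G) → CharSep N)
    {V : Set G} (hV : Wit V) {S : ℕ → Set G} (hS : IsStr S) (hSV : Small V S) : ∀ O ∈ 𝓝 (0 : G), ∃ n, Tb (S n) O := by
  intro O hO
  by_contra hcon
  push Not at hcon
  have hM : MTb S := caseA hV hS hSV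
  have hCc : IsCompact (Core S) := core_compact hS hM
  have hCcoe : ((coreSub hS : AddSubgroup G) : Set G) = Core S := rfl
  obtain ⟨O', hO', hO's, hO'a⟩ := thmP_symm hO
  obtain ⟨Φ, hΦ, hΦC⟩ := thmP_tb hCc hO'
  -- choice of the sequence
  have : Inhabited G := ⟨0⟩
  obtain ⟨z, hz⟩ := exists_dep_seq (α := G)
    (fun m p a => a ∈ S (m * m + m + 2) ∧ ∀ i < m, ∀ c ∈ Core S, a - p i - c ∉ O')
    (by
      intro m p
      by_contra hno
      push Not at hno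
      refine hcon (m * m + m + 2) ⟨Set.image2 (fun i φ => p i + φ) (Set.Iio m) Φ,
        Set.Finite.image2 _ (Set.finite_Iio m) hΦ, ?_⟩
      intro a ha
      obtain ⟨i, hi, c, hc, hac⟩ := hno a ha
      obtain ⟨φ, hφ, hcφ⟩ := hΦC c hc
      refine ⟨p i + φ, ⟨i, hi, φ, hφ, rfl⟩, ?_⟩
      have h := hO'a _ hac _ hcφ
      have he : a - p i - c + (c - φ) = a - (p i + φ) := by abel
      rwa [he] at h)
    (by
      intro m p p' a hpp h
      refine ⟨h.1, fun i hi => ?_⟩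
      rw [← hpp i hi]
      exact h.2 i hi)
  have hz1 : ∀ m, z m ∈ S (m * m + m + 2) := fun m => (hz m).1
  have hz2 : ∀ m, ∀ i < m, ∀ c ∈ Core S, z m - z i - c ∉ O' := fun m => (hz m).2
  have hz1' : ∀ m, z m ∈ S (m * m + m + 1) := fun m => hS.anti (Nat.le_succ _) (hz1 m)
  have hbox : ∀ j : ℕ, ∀ κ ∈ Box j, ∀ m : ℕ, |κ m| ≤ 2 ^ (m * m) := by
    intro j κ hκ m
    refine (hκ.2 m).trans ?_
    exact pow_le_pow_right₀ (by norm_num) (Nat.mul_le_mul_left m (Nat.sub_le m j))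
  -- the sequence is small modulo the core
  have hgood : Good z (fun _ => 0) (coreSub hS) := by
    intro O₁ hO₁
    obtain ⟨a, ha, n, hn⟩ := core_near hS hM hO₁
    refine ⟨a, ha, n, fun κ hκ => ?_⟩
    have hmem : ev z κ ∈ S n := ev_mem hS hz1' (hbox n κ hκ) hκ.1
    obtain ⟨c, hc, hac⟩ := hn _ hmem
    refine ⟨c, hc, ?_⟩
    simpa using hac
  obtain ⟨t, htC, ht0⟩ := exists_zero_core hPW (C := coreSub hS) hCc hgood
  -- the corrected string
  have hS' : IsStr (strOf fun m => z m - t m) := strOf_isStr _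
  have hS1 : IsStr fun n => S (n + 1) :=
    ⟨fun n => hS.zero _, fun n => hS.neg _, fun n => hS.add _⟩
  have hsmall : Small V (strOf fun m => z m - t m) := by
    obtain ⟨O₁, hO₁, hV1⟩ := hSV
    obtain ⟨O₂, hO₂, hO₂s, hO₂a⟩ := thmP_symm hO₁
    refine ⟨O₂, hO₂, ?_⟩
    rintro x hx _ ⟨κ, hκ, rfl⟩
    have h1 : ev z κ ∈ S (0 + 1) :=
      ev_mem (S := fun n => S (n + 1)) hS1 (y := z) (fun m => hz1 m) (hbox 0 κ hκ) hκ.1
    have h2 : -ev t κ ∈ coreSub hS := (coreSub hS).neg_mem (thmP_ev_mem _ htC κ)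
    have h2' : -ev t κ ∈ Core S := h2
    obtain ⟨s, hs, hso⟩ := h2' 1 one_pos 1 O₂ hO₂
    rw [one_smul] at hso
    have h3 := hV1 _ (hO₂a _ hx _ hso) _ (hS.add 0 _ h1 _ hs)
    have he : x + (-ev t κ - s) + (ev z κ + s) = x + ev (fun m => z m - t m) κ := by
      rw [thmP_ev_sub]
      abel
    rwa [he] at h3
  -- pigeonhole
  obtain ⟨O'', hO'', hO''s, hO''a⟩ := thmP_symm hO'
  obtain ⟨n, Ψ, hΨ, hn⟩ := lemmaZ hV hS' hsmall ht0 O'' hO''
  have hmem : ∀ m, n ≤ m → ∃ φ ∈ Ψ, z m - t m - φ ∈ O'' := by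
    intro m hm
    refine hn _ ⟨Finsupp.single m 1, single_mem_box hm, ?_⟩
    rw [ev_single, one_smul]
  have hmem' : ∀ k : ℕ, ∃ φ ∈ Ψ, z (n + k) - t (n + k) - φ ∈ O'' := fun k =>
    hmem _ (Nat.le_add_right n k)
  choose φ hφΨ hφ using hmem'
  have hpig : ∃ i j : ℕ, i < j ∧ φ i = φ j := by
    have := hΨ.to_subtype
    obtain ⟨i, j, hij, he⟩ := Finite.exists_ne_map_eq_of_infinite
      (fun k : ℕ => (⟨φ k, hφΨ k⟩ : Ψ))
    have he' : φ i = φ j := congrArg Subtype.val he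
    rcases lt_or_gt_of_ne hij with h | h
    · exact ⟨i, j, h, he'⟩
    · exact ⟨j, i, h, he'.symm⟩
  obtain ⟨i, j, hij, he⟩ := hpig
  have h1 := hφ i
  have h2 := hφ j
  rw [← he] at h2
  have h3 := hO''a _ h2 _ (hO''s _ h1)
  refine hz2 (n + j) (n + i) (by omega) (t (n + j) - t (n + i))
    ((coreSub hS).sub_mem (htC _) (htC _)) ?_
  have h4 : z (n + j) - z (n + i) - (t (n + j) - t (n + i))
      = z (n + j) - t (n + j) - φ i + -(z (n + i) - t (n + i) - φ i) := by abel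
  rw [h4]
  exact h3

end LocMin
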