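import Mathlib
import Pool.Agent.Lib.MP_27feec_al_LM.ThmP
import Pool.Agent.Lib.MP_27feec_al_LM.GenK
import Pool.Agent.Lib.MP_27feec_al_LM.PWConv
import Pool.Agent.Lib.MP_27feec_al_LM.PWGrow
import Pool.Agent.Lib.MP_27feec_al_LM.PWMain

/-!
# Complete locally minimal abelian groups: quotients by compact subgroups
-/

namespace LocMin

open Topology Filter

/-- **Main theorem.** -/
theorem main {G : Type*} [AddCommGroup G] [UniformSpace G] [IsUniformAddGroup G] [T2Space G]
    [CompleteSpace G] (K : AddSubgroup G) (hK : IsCompact (K : Set G)) (hG : LocallyMinimal G) :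
    LocallyMinimal (G ⧸ K) := by
  have hPW : ∀ N : AddSubgroup G, IsCompact (N : Set G) → CharSep N := by
    intro N hN
    have : CompactSpace N := isCompact_iff_compactSpace.1 hN
    exact charSep_of_conv N (convData_of_base N (convBase N))
  obtain ⟨V, hV⟩ := locallyMinimal_iff.1 hG
  exact quotient_of_P hV (fun S hS hSV => theoremP hPW hV hS hSV) K hK (hPW K hK)

theorem main_feathered {G : Type*} [AddCommGroup G] [UniformSpace G] [IsUniformAddGroup G]
    [T2Space G] [CompleteSpace G] (hG : LocallyMinimal G) :
    ∃ K : AddSubgroup G, IsCompact (K : Set G) ∧ TopologicalSpace.MetrizableSpace (G ⧸ K) := by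
  have hPW : ∀ N : AddSubgroup G, IsCompact (N : Set G) → CharSep N := by
    intro N hN
    have : CompactSpace N := isCompact_iff_compactSpace.1 hN
    exact charSep_of_conv N (convData_of_base N (convBase N))
  obtain ⟨V, hV⟩ := locallyMinimal_iff.1 hG
  exact feathered_of_P hV fun S hS hSV => theoremP hPW hV hS hSV

end LocMin
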